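import Mathlib

/-!
# The case analysis at a point of the vertex line
-/

set_option autoImplicit false

namespace Pool.Agent.W623.Pris

/-- The hypotheses of the case analysis at a point of the vertex line. -/
def hypB (ah al gh gl h0 h2 h4 h6 h7 h8 h10 h12 xA xG tG tA : Bool) : Bool :=
    (ah || al) && ((gh || gl) &&
    ((!xA || ((!al && !(h4 || h6 || h7 || h10 || h12)) || (!ah && (h4 && h6 && h7 && h10 && h12)))) &&
    ((!xG || ((!gl && !(h2 || h4 || h12 || h6 || h8)) || (!gh && (h2 && h4 && h12 && h6 && h8)))) &&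
    ((!tG || ((h4 && h10 && h12 && !ah && !h6 && !h7) || (!h4 && !h10 && !h12 && !al && h6 && h7))) &&
    ((!tA || ((h2 && h4 && h12 && !gh && !h6 && !h8) || (!h2 && !h4 && !h12 && !gl && h6 && h8))) &&
    (!(tG && tA) &&
    ((!(!(h0 || h2 || h4 || h6 || h7 || h8 || h10 || h12) && !al && !gh) || xA) &&
    ((!(h0 && h2 && h4 && h6 && h7 && h8 && h10 && h12 && !ah && !gl) || xA) &&
    ((!(!(h0 || h2 || h4 || h6 || h7 || h8 || h10 || h12) && !gl && !ah) || xG) &&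
    ((!(h0 && h2 && h4 && h6 && h7 && h8 && h10 && h12 && !gh && !al) || xG) &&
    ((!(!(h0 || h2 || h4 || h6 || h7 || h8 || h10 || h12) && !al && !gl) || (xA == xG)) &&
    (!(h0 && h2 && h4 && h6 && h7 && h8 && h10 && h12 && !ah && !gh) || (xA == xG)))))))))))))

def e1B (h0 h2 h10 : Bool) : Bool := (h0 || h2 || h10) && !(h0 && h2 && h10)
def e5B (ah al h4 h6 h7 h10 h12 xA tG : Bool) : Bool :=
  (ah || h4 || h6 || h7 || h10 || h12) && (al || !(h4 && h6 && h7 && h10 && h12)) && !xA && !tG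

def nsB (e1 e2 e3 e4 e5 e6 : Bool) : Bool :=
  (!e1 || e2 || e3 || e4 || e5 || e6) && (!e2 || e1 || e3 || e4 || e5 || e6) &&
  (!e3 || e1 || e2 || e4 || e5 || e6) && (!e4 || e1 || e2 || e3 || e5 || e6) &&
  (!e5 || e1 || e2 || e3 || e4 || e6) && (!e6 || e1 || e2 || e3 || e4 || e5)

def concB (ah al gh gl h0 h2 h4 h6 h7 h8 h10 h12 xA xG tG tA : Bool) : Bool :=
  nsB (e1B h0 h2 h10) (ah && al) (gh && gl) (e1B h0 h7 h8)
    (e5B ah al h4 h6 h7 h10 h12 xA tG) (e5B gh gl h2 h4 h6 h8 h12 xG tA)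

theorem nsB_spec : ∀ b1 b2 b3 b4 b5 b6 : Bool, nsB b1 b2 b3 b4 b5 b6 = true →
    (b1 = true → b2 = true ∨ b3 = true ∨ b4 = true ∨ b5 = true ∨ b6 = true) ∧
    (b2 = true → b1 = true ∨ b3 = true ∨ b4 = true ∨ b5 = true ∨ b6 = true) ∧
    (b3 = true → b1 = true ∨ b2 = true ∨ b4 = true ∨ b5 = true ∨ b6 = true) ∧
    (b4 = true → b1 = true ∨ b2 = true ∨ b3 = true ∨ b5 = true ∨ b6 = true) ∧
    (b5 = true → b1 = true ∨ b2 = true ∨ b3 = true ∨ b4 = true ∨ b6 = true) ∧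
    (b6 = true → b1 = true ∨ b2 = true ∨ b3 = true ∨ b4 = true ∨ b5 = true) := by
  intro b1 b2 b3 b4 b5 b6
  cases b1 <;> cases b2 <;> cases b3 <;> cases b4 <;> cases b5 <;> cases b6 <;> simp [nsB]

theorem coreB_true : ∀ ah al gh gl h0 h2 h4 h6 h7 h8 h10 h12 xA xG tG tA : Bool,
    (!(hypB ah al gh gl h0 h2 h4 h6 h7 h8 h10 h12 xA xG tG tA) ||
      concB ah al gh gl h0 h2 h4 h6 h7 h8 h10 h12 xA xG tG tA) = true := by
  decide +kernel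

theorem core (ah al gh gl h0 h2 h4 h6 h7 h8 h10 h12 xA xG tG tA : Prop)
    (H1 : ah ∨ al) (H2 : gh ∨ gl)
    (H3 : xA → (¬ al ∧ ¬ (h4 ∨ h6 ∨ h7 ∨ h10 ∨ h12)) ∨ (¬ ah ∧ (h4 ∧ h6 ∧ h7 ∧ h10 ∧ h12)))
    (H4 : xG → (¬ gl ∧ ¬ (h2 ∨ h4 ∨ h12 ∨ h6 ∨ h8)) ∨ (¬ gh ∧ (h2 ∧ h4 ∧ h12 ∧ h6 ∧ h8)))
    (H5 : tG → (h4 ∧ h10 ∧ h12 ∧ ¬ ah ∧ ¬ h6 ∧ ¬ h7) ∨ (¬ h4 ∧ ¬ h10 ∧ ¬ h12 ∧ ¬ al ∧ h6 ∧ h7))
    (H6 : tA → (h2 ∧ h4 ∧ h12 ∧ ¬ gh ∧ ¬ h6 ∧ ¬ h8) ∨ (¬ h2 ∧ ¬ h4 ∧ ¬ h12 ∧ ¬ gl ∧ h6 ∧ h8))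
    (H7 : ¬ (tG ∧ tA))
    (H8 : ¬ (h0 ∨ h2 ∨ h4 ∨ h6 ∨ h7 ∨ h8 ∨ h10 ∨ h12) → ¬ al → ¬ gh → xA)
    (H9 : h0 ∧ h2 ∧ h4 ∧ h6 ∧ h7 ∧ h8 ∧ h10 ∧ h12 → ¬ ah → ¬ gl → xA)
    (H10 : ¬ (h0 ∨ h2 ∨ h4 ∨ h6 ∨ h7 ∨ h8 ∨ h10 ∨ h12) → ¬ gl → ¬ ah → xG)
    (H11 : h0 ∧ h2 ∧ h4 ∧ h6 ∧ h7 ∧ h8 ∧ h10 ∧ h12 → ¬ gh → ¬ al → xG)
    (H12 : ¬ (h0 ∨ h2 ∨ h4 ∨ h6 ∨ h7 ∨ h8 ∨ h10 ∨ h12) → ¬ al → ¬ gl → (xA ↔ xG))
    (H13 : h0 ∧ h2 ∧ h4 ∧ h6 ∧ h7 ∧ h8 ∧ h10 ∧ h12 → ¬ ah → ¬ gh → (xA ↔ xG))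
    (e1 e2 e3 e4 e5 e6 : Prop)
    (E1 : e1 ↔ (h0 ∨ h2 ∨ h10) ∧ ¬ (h0 ∧ h2 ∧ h10))
    (E2 : e2 ↔ ah ∧ al) (E3 : e3 ↔ gh ∧ gl)
    (E4 : e4 ↔ (h0 ∨ h7 ∨ h8) ∧ ¬ (h0 ∧ h7 ∧ h8))
    (E5 : e5 ↔ (ah ∨ h4 ∨ h6 ∨ h7 ∨ h10 ∨ h12) ∧ (al ∨ ¬ (h4 ∧ h6 ∧ h7 ∧ h10 ∧ h12)) ∧
      ¬ xA ∧ ¬ tG)
    (E6 : e6 ↔ (gh ∨ h2 ∨ h4 ∨ h6 ∨ h8 ∨ h12) ∧ (gl ∨ ¬ (h2 ∧ h4 ∧ h6 ∧ h8 ∧ h12)) ∧
      ¬ xG ∧ ¬ tA) :
    (e1 → e2 ∨ e3 ∨ e4 ∨ e5 ∨ e6) ∧ (e2 → e1 ∨ e3 ∨ e4 ∨ e5 ∨ e6) ∧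
    (e3 → e1 ∨ e2 ∨ e4 ∨ e5 ∨ e6) ∧ (e4 → e1 ∨ e2 ∨ e3 ∨ e5 ∨ e6) ∧
    (e5 → e1 ∨ e2 ∨ e3 ∨ e4 ∨ e6) ∧ (e6 → e1 ∨ e2 ∨ e3 ∨ e4 ∨ e5) := by
  classical
  have hE1 : e1 ↔ e1B (decide h0) (decide h2) (decide h10) = true := by
    rw [E1]; simp [e1B, imp_iff_not_or, or_assoc]
  have hE4 : e4 ↔ e1B (decide h0) (decide h7) (decide h8) = true := by
    rw [E4]; simp [e1B, imp_iff_not_or, or_assoc]
  have hE5 : e5 ↔ e5B (decide ah) (decide al) (decide h4) (decide h6) (decide h7) (decide h10)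
      (decide h12) (decide xA) (decide tG) = true := by
    rw [E5]; simp [e5B, imp_iff_not_or, or_assoc, and_assoc]
  have hE6 : e6 ↔ e5B (decide gh) (decide gl) (decide h2) (decide h4) (decide h6) (decide h8)
      (decide h12) (decide xG) (decide tA) = true := by
    rw [E6]; simp [e5B, imp_iff_not_or, or_assoc, and_assoc]
  have hE2 : e2 ↔ (decide ah && decide al) = true := by rw [E2]; simp
  have hE3 : e3 ↔ (decide gh && decide gl) = true := by rw [E3]; simp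
  have hh : hypB (decide ah) (decide al) (decide gh) (decide gl) (decide h0) (decide h2)
      (decide h4) (decide h6) (decide h7) (decide h8) (decide h10) (decide h12) (decide xA)
      (decide xG) (decide tG) (decide tA) = true := by
    unfold hypB
    simp only [Bool.and_eq_true, Bool.or_eq_true, Bool.not_eq_true', decide_eq_true_eq,
      decide_eq_false_iff_not, Bool.and_eq_false_iff, Bool.or_eq_false_iff, beq_iff_eq,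
      decide_eq_decide, Bool.not_eq_false']
    refine ⟨H1, H2, ?_, ?_, ?_, ?_, ?_, ?_, ?_, ?_, ?_, ?_, ?_⟩
    · clear H1 H2 H4 H5 H6 H7 H8 H9 H10 H11 H12 H13 E1 E2 E3 E4 E5 E6 hE1 hE2 hE3 hE4 hE5 hE6
      by_cases hx : xA
      · rcases H3 hx with ⟨h, h'⟩ | ⟨h, h'⟩
        · push Not at h'
          exact Or.inr (Or.inl (by simp only [h, h', not_false_eq_true, and_self]))
        · exact Or.inr (Or.inr (by simp only [h, h', not_false_eq_true, and_self]))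
      · exact Or.inl hx
    · clear H1 H2 H3 H5 H6 H7 H8 H9 H10 H11 H12 H13 E1 E2 E3 E4 E5 E6 hE1 hE2 hE3 hE4 hE5 hE6
      by_cases hx : xG
      · rcases H4 hx with ⟨h, h'⟩ | ⟨h, h'⟩
        · push Not at h'
          exact Or.inr (Or.inl (by simp only [h, h', not_false_eq_true, and_self]))
        · exact Or.inr (Or.inr (by simp only [h, h', not_false_eq_true, and_self]))
      · exact Or.inl hx
    · clear H1 H2 H3 H4 H6 H7 H8 H9 H10 H11 H12 H13 E1 E2 E3 E4 E5 E6 hE1 hE2 hE3 hE4 hE5 hE6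
      by_cases hx : tG
      · rcases H5 hx with h | h
        · exact Or.inr (Or.inl (by simp only [h, not_false_eq_true, and_self]))
        · exact Or.inr (Or.inr (by simp only [h, not_false_eq_true, and_self]))
      · exact Or.inl hx
    · clear H1 H2 H3 H4 H5 H7 H8 H9 H10 H11 H12 H13 E1 E2 E3 E4 E5 E6 hE1 hE2 hE3 hE4 hE5 hE6
      by_cases hx : tA
      · rcases H6 hx with h | h
        · exact Or.inr (Or.inl (by simp only [h, not_false_eq_true, and_self]))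
        · exact Or.inr (Or.inr (by simp only [h, not_false_eq_true, and_self]))
      · exact Or.inl hx
    · exact not_and_or.1 H7
    · by_cases h : (h0 ∨ h2 ∨ h4 ∨ h6 ∨ h7 ∨ h8 ∨ h10 ∨ h12) ∨ al ∨ gh
      · left; simpa only [or_assoc] using h
      · right; push Not at h; exact H8 (by simp only [h, or_self, not_false_eq_true]) h.2.1 h.2.2
    · by_cases h : (¬ h0 ∨ ¬ h2 ∨ ¬ h4 ∨ ¬ h6 ∨ ¬ h7 ∨ ¬ h8 ∨ ¬ h10 ∨ ¬ h12) ∨ ah ∨ gl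
      · left; simpa only [or_assoc] using h
      · right; push Not at h; exact H9 h.1 h.2.1 h.2.2
    · by_cases h : (h0 ∨ h2 ∨ h4 ∨ h6 ∨ h7 ∨ h8 ∨ h10 ∨ h12) ∨ gl ∨ ah
      · left; simpa only [or_assoc] using h
      · right; push Not at h; exact H10 (by simp only [h, or_self, not_false_eq_true]) h.2.1 h.2.2
    · by_cases h : (¬ h0 ∨ ¬ h2 ∨ ¬ h4 ∨ ¬ h6 ∨ ¬ h7 ∨ ¬ h8 ∨ ¬ h10 ∨ ¬ h12) ∨ gh ∨ al
      · left; simpa only [or_assoc] using h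
      · right; push Not at h; exact H11 h.1 h.2.1 h.2.2
    · by_cases h : (h0 ∨ h2 ∨ h4 ∨ h6 ∨ h7 ∨ h8 ∨ h10 ∨ h12) ∨ al ∨ gl
      · left; simpa only [or_assoc] using h
      · right; push Not at h; exact H12 (by simp only [h, or_self, not_false_eq_true]) h.2.1 h.2.2
    · by_cases h : (¬ h0 ∨ ¬ h2 ∨ ¬ h4 ∨ ¬ h6 ∨ ¬ h7 ∨ ¬ h8 ∨ ¬ h10 ∨ ¬ h12) ∨ ah ∨ gh
      · left; simpa only [or_assoc] using h
      · right; push Not at h; exact H13 h.1 h.2.1 h.2.2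
  have hc := coreB_true (decide ah) (decide al) (decide gh) (decide gl) (decide h0) (decide h2)
      (decide h4) (decide h6) (decide h7) (decide h8) (decide h10) (decide h12) (decide xA)
      (decide xG) (decide tG) (decide tA)
  rw [hh, Bool.not_true, Bool.false_or] at hc
  unfold concB at hc
  rw [hE1, hE2, hE3, hE4, hE5, hE6]
  clear hE1 hE2 hE3 hE4 hE5 hE6 E1 E2 E3 E4 E5 E6 H1 H2 H3 H4 H5 H6 H7 H8 H9 H10 H11 H12 H13 hh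
  generalize e1B (decide h0) (decide h2) (decide h10) = b1 at *
  generalize e1B (decide h0) (decide h7) (decide h8) = b4 at *
  generalize e5B (decide ah) (decide al) (decide h4) (decide h6) (decide h7) (decide h10)
      (decide h12) (decide xA) (decide tG) = b5 at *
  generalize e5B (decide gh) (decide gl) (decide h2) (decide h4) (decide h6) (decide h8)
      (decide h12) (decide xG) (decide tA) = b6 at *
  generalize (decide ah && decide al) = b2 at *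
  generalize (decide gh && decide gl) = b3 at *
  exact nsB_spec _ _ _ _ _ _ hc

end Pool.Agent.W623.Pris
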