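import Mathlib
import Pool.Agent.Helper514.IoD
import Pool.Agent.W964.LieExp.InvDim

/-!
# Collapses and closed sets without free boundary

Finite abstract simplicial complexes, their geometric realisations and elementary collapses,
and the following obstruction to collapsibility in dimension two: in the realisation of a
2-dimensional collapsible complex there is no closed set without isolated points such that
all but finitely many of its points lie on an embedded open disc contained in the set.
-/

set_option autoImplicit false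

open Set Filter Topology Metric Relation

namespace Pool.Agent.W623.Pris

/-- A finite abstract simplicial complex on the vertex set `Fin m`, given by its set of
(nonempty) simplices. -/
def IsComplex {m : ℕ} (T : Set (Finset (Fin m))) : Prop :=
  ∅ ∉ T ∧ ∀ s ∈ T, ∀ t ⊆ s, t.Nonempty → t ∈ T

/-- The geometric realisation of a finite abstract simplicial complex, in barycentric
coordinates. -/
def realization {m : ℕ} (T : Set (Finset (Fin m))) : Set (Fin m → ℝ) :=
  {w | (∀ i, 0 ≤ w i) ∧ ∑ i, w i = 1 ∧ (Finset.univ.filter fun i => 0 < w i) ∈ T}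

/-- An elementary collapse: remove a simplex `τ` and a codimension one face `σ` of `τ` which is
a face of no other simplex. -/
def ElemCollapse {m : ℕ} (A B : Set (Finset (Fin m))) : Prop :=
  ∃ σ ∈ A, ∃ τ ∈ A, σ ⊂ τ ∧ τ.card = σ.card + 1 ∧
    (∀ ρ ∈ A, σ ⊆ ρ → ρ = σ ∨ ρ = τ) ∧ B = A \ {σ, τ}

theorem ElemCollapse.isComplex {m : ℕ} {A B : Set (Finset (Fin m))} (h : ElemCollapse A B)
    (hA : IsComplex A) : IsComplex B := by
  obtain ⟨σ, hσ, τ, hτ, hst, -, hfree, rfl⟩ := h
  refine ⟨fun h => hA.1 h.1, ?_⟩
  rintro s ⟨hs, hs'⟩ t hts htn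
  refine ⟨hA.2 s hs t hts htn, ?_⟩
  rintro (rfl | rfl)
  · rcases hfree s hs hts with h | h
    · exact hs' (Or.inl h)
    · exact hs' (Or.inr h)
  · rcases hfree s hs (hst.subset.trans hts) with h | h
    · exact hs' (Or.inl h)
    · exact hs' (Or.inr h)

theorem ElemCollapse.subset {m : ℕ} {A B : Set (Finset (Fin m))} (h : ElemCollapse A B) :
    B ⊆ A := by
  obtain ⟨σ, -, τ, -, -, -, -, rfl⟩ := h
  exact sdiff_subset

/-- `x` lies on an embedded open disc contained in `S`. -/
def OnDisc {X : Type*} [TopologicalSpace X] (S : Set X) (x : X) : Prop :=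
  ∃ (O : Set ℂ) (φ : ℂ → X), IsOpen O ∧ ContinuousOn φ O ∧ InjOn φ O ∧ MapsTo φ O S ∧
    ∃ p ∈ O, φ p = x

/-- The key step: a closed set without free boundary survives an elementary collapse. -/
theorem step {m : ℕ} {A B : Set (Finset (Fin m))} (hA : IsComplex A)
    (hdim : ∀ s ∈ A, s.card ≤ 3) (hAB : ElemCollapse A B)
    (S E : Set (Fin m → ℝ)) (hSA : S ⊆ realization A) (hS : IsClosed S) (hE : E.Finite)
    (hdisc : ∀ x ∈ S \ E, OnDisc S x)
    (hperf : ∀ U : Set (Fin m → ℝ), IsOpen U → (U ∩ S).Nonempty → (U ∩ S).Infinite) :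
    S ⊆ realization B := by
  classical
  obtain ⟨σ, hσ, τ, hτ, hst, hcard, hfree, rfl⟩ := hAB
  intro x hxS
  refine ⟨(hSA hxS).1, (hSA hxS).2.1, (hSA hxS).2.2, ?_⟩
  intro hmem
  -- the open set of points whose coordinates on `σ` are positive
  set U : Set (Fin m → ℝ) := {w | ∀ i ∈ σ, 0 < w i} with hU
  have hUo : IsOpen U := by
    have : U = ⋂ i ∈ σ, {w : Fin m → ℝ | 0 < w i} := by
      ext w; simp [hU]
    rw [this]
    exact isOpen_biInter_finset fun i _ => isOpen_lt continuous_const (continuous_apply i)
  have hsupp : ∀ w ∈ U, w ∈ S → (Finset.univ.filter fun i => 0 < w i) = σ ∨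
      (Finset.univ.filter fun i => 0 < w i) = τ := by
    intro w hwU hwS
    refine hfree _ (hSA hwS).2.2 ?_
    intro i hi
    simpa using hwU i hi
  have hzero : ∀ w ∈ U, w ∈ S → ∀ i, i ∉ τ → w i = 0 := by
    intro w hwU hwS i hi
    have h1 : i ∉ (Finset.univ.filter fun i => 0 < w i) := by
      rcases hsupp w hwU hwS with h | h
      · rw [h]; exact fun h' => hi (hst.subset h')
      · rw [h]; exact hi
    have h2 : ¬ 0 < w i := by simpa using h1
    exact le_antisymm (not_lt.1 h2) ((hSA hwS).1 i)
  have hxU : x ∈ U := by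
    intro i hi
    have h1 : i ∈ (Finset.univ.filter fun i => 0 < x i) := by
      rcases hmem with h | h
      · rw [h]; exact hi
      · rw [show (Finset.univ.filter fun i => 0 < x i) = τ from h]; exact hst.subset hi
    simpa using h1
  -- a non exceptional point
  have hinf : (U ∩ S).Infinite := hperf U hUo ⟨x, hxU, hxS⟩
  obtain ⟨y, hy, hyE⟩ : ∃ y ∈ U ∩ S, y ∉ E := by
    by_contra hcon
    push Not at hcon
    exact hinf (hE.subset hcon)
  obtain ⟨c, hcτ, hcσ⟩ : ∃ c ∈ τ, c ∉ σ := Finset.exists_of_ssubset hst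
  have hτeq : τ = insert c σ := by
    symm
    apply Finset.eq_of_subset_of_card_le
    · intro i hi
      rcases Finset.mem_insert.1 hi with rfl | h
      · exact hcτ
      · exact hst.subset h
    · rw [Finset.card_insert_of_notMem hcσ, hcard]
  have hσcard : σ.card ≤ 2 := by
    have := hdim τ hτ; omega
  have hσpos : 0 < σ.card := by
    rw [Finset.card_pos]
    by_contra h
    rw [Finset.not_nonempty_iff_eq_empty] at h
    exact hA.1 (h ▸ hσ)
  -- sum over `τ`
  have hsum : ∀ w ∈ U, w ∈ S → ∑ i ∈ τ, w i = 1 := by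
    intro w hwU hwS
    rw [← (hSA hwS).2.1]
    apply Finset.sum_subset (Finset.subset_univ _)
    intro i _ hi
    exact hzero w hwU hwS i hi
  have hcases : σ.card = 1 ∨ σ.card = 2 := by omega
  rcases hcases with h1 | h2
  · -- one dimensional case
    obtain ⟨a, rfl⟩ := Finset.card_eq_one.1 h1
    obtain ⟨O, φ, hO, hφc, hφi, hφm, p, hpO, hp⟩ := hdisc y ⟨hy.2, hyE⟩
    have hO'o : IsOpen (O ∩ φ ⁻¹' U) := hφc.isOpen_inter_preimage hO hUo
    have hpO' : p ∈ O ∩ φ ⁻¹' U := ⟨hpO, by rw [mem_preimage, hp]; exact hy.1⟩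
    have hfin := Pool.Agent.W964.LieExp.finrank_le_of_injOn (V := ℂ) (W := ℝ) _ hO'o p hpO'
      (fun q => φ q a) (by
        apply ContinuousOn.mono _ inter_subset_left
        exact (continuous_apply a).comp_continuousOn hφc)
      (by
        intro q hq q' hq' hqq
        apply hφi hq.1 hq'.1
        have hqS := hφm hq.1
        have hqS' := hφm hq'.1
        have hac : a ≠ c := fun h => hcσ (by simp [h])
        have e1 := hsum _ hq.2 hqS
        have e2 := hsum _ hq'.2 hqS'
        rw [hτeq, Finset.sum_insert hcσ, Finset.sum_singleton] at e1 e2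
        funext i
        by_cases hi : i ∈ τ
        · rw [hτeq] at hi
          rcases Finset.mem_insert.1 hi with rfl | h
          · have : φ q a = φ q' a := hqq
            linarith
          · rw [Finset.mem_singleton.1 h]; exact hqq
        · rw [hzero _ hq.2 hqS i hi, hzero _ hq'.2 hqS' i hi])
    have h3 : Module.finrank ℝ ℂ = 2 := Complex.finrank_real_complex
    rw [h3, Module.finrank_self] at hfin
    omega
  · -- two dimensional case
    obtain ⟨a, b, hab, rfl⟩ := Finset.card_eq_two.1 h2
    have hac : a ≠ c := fun h => hcσ (by simp [h])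
    have hbc : b ≠ c := fun h => hcσ (by simp [h])
    let Q : (Fin m → ℝ) → ℂ := fun w => ⟨w a, w b⟩
    have hQc : Continuous Q := by
      have : Q = fun w => ((w a : ℝ) : ℂ) + ((w b : ℝ) : ℂ) * Complex.I := by
        funext w
        apply Complex.ext <;> simp [Q]
      rw [this]
      fun_prop
    have hsum' : ∀ w ∈ U, w ∈ S → w c + (w a + w b) = 1 := by
      intro w hwU hwS
      have e1 := hsum w hwU hwS
      rwa [hτeq, Finset.sum_insert hcσ, Finset.sum_pair hab] at e1
    have hQinj : ∀ w ∈ U, w ∈ S → ∀ w' ∈ U, w' ∈ S → Q w = Q w' → w = w' := by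
      intro w hwU hwS w' hwU' hwS' hQ
      have ea : w a = w' a := congrArg Complex.re hQ
      have eb : w b = w' b := congrArg Complex.im hQ
      have e1 := hsum' w hwU hwS
      have e2 := hsum' w' hwU' hwS'
      funext i
      by_cases hi : i ∈ τ
      · rw [hτeq] at hi
        simp only [Finset.mem_insert, Finset.mem_singleton] at hi
        rcases hi with rfl | rfl | rfl
        · linarith
        · exact ea
        · exact eb
      · rw [hzero w hwU hwS i hi, hzero w' hwU' hwS' i hi]
    set P : Set ℂ := Q '' (U ∩ S) with hP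
    let Δ : Set ℂ := {u | 0 < u.re ∧ 0 < u.im ∧ u.re + u.im ≤ 1}
    have hPΔ : P ⊆ Δ := by
      rintro _ ⟨w, ⟨hwU, hwS⟩, rfl⟩
      refine ⟨hwU a (by simp), hwU b (by simp), ?_⟩
      have e1 := hsum' w hwU hwS
      have e2 := (hSA hwS).1 c
      show w a + w b ≤ 1
      linarith
    let lift : ℂ → (Fin m → ℝ) := fun u i =>
      if i = a then u.re else if i = b then u.im else if i = c then 1 - u.re - u.im else 0
    have hliftc : Continuous lift := by
      apply continuous_pi
      intro i
      show Continuous fun u : ℂ => if i = a then u.re else if i = b then u.im else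
        if i = c then 1 - u.re - u.im else 0
      split_ifs
      · exact Complex.continuous_re
      · exact Complex.continuous_im
      · exact (continuous_const.sub Complex.continuous_re).sub Complex.continuous_im
      · exact continuous_const
    have hPiff : ∀ u ∈ Δ, (u ∈ P ↔ lift u ∈ S) := by
      intro u hu
      constructor
      · rintro ⟨w, ⟨hwU, hwS⟩, rfl⟩
        have : lift (Q w) = w := by
          funext i
          have e1 := hsum' w hwU hwS
          show (if i = a then w a else if i = b then w b else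
            if i = c then 1 - w a - w b else 0) = w i
          split_ifs with h1 h2 h3
          · rw [h1]
          · rw [h2]
          · rw [h3]; linarith
          · have : i ∉ τ := by
              rw [hτeq]; simp [h1, h2, h3]
            rw [hzero w hwU hwS i this]
        rw [this]; exact hwS
      · intro hl
        refine ⟨lift u, ⟨?_, hl⟩, ?_⟩
        · intro i hi
          simp only [Finset.mem_insert, Finset.mem_singleton] at hi
          rcases hi with rfl | rfl
          · show 0 < (if i = i then u.re else _)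
            rw [if_pos rfl]; exact hu.1
          · show 0 < (if i = a then u.re else if i = i then u.im else _)
            rw [if_neg hab.symm, if_pos rfl]; exact hu.2.1
        · apply Complex.ext
          · show (if a = a then u.re else _) = u.re
            rw [if_pos rfl]
          · show (if b = a then u.re else if b = b then u.im else _) = u.im
            rw [if_neg hab.symm, if_pos rfl]
    have hint : ∀ w ∈ U, w ∈ S → w ∉ E → P ∈ 𝓝 (Q w) := by
      intro w hwU hwS hwE
      obtain ⟨O, φ, hO, hφc, hφi, hφm, p, hpO, hp⟩ := hdisc w ⟨hwS, hwE⟩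
      have hO'o : IsOpen (O ∩ φ ⁻¹' U) := hφc.isOpen_inter_preimage hO hUo
      have hpO' : p ∈ O ∩ φ ⁻¹' U := ⟨hpO, by rw [mem_preimage, hp]; exact hwU⟩
      obtain ⟨r, hr, hball⟩ := Metric.nhds_basis_closedBall.mem_iff.1 (hO'o.mem_nhds hpO')
      have hg := Pool.Agent.Helper514.IoD.image_mem_nhds (E := ℂ) (fun q => Q (φ q)) p r hr
        (by
          apply hQc.comp_continuousOn
          exact hφc.mono fun q hq => (hball hq).1)
        (by
          intro q hq q' hq' hqq
          apply hφi (hball hq).1 (hball hq').1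
          exact hQinj _ (hball hq).2 (hφm (hball hq).1) _ (hball hq').2
            (hφm (hball hq').1) hqq)
      rw [show Q (φ p) = Q w by rw [hp]] at hg
      refine Filter.mem_of_superset hg ?_
      rintro _ ⟨q, hq, rfl⟩
      exact ⟨φ q, ⟨(hball hq).2, hφm (hball hq).1⟩, rfl⟩
    set F : Set ℂ := Q '' E with hF
    have hFfin : F.Finite := hE.image _
    have hint' : ∀ u ∈ P, u ∉ F → P ∈ 𝓝 u := by
      rintro _ ⟨w, ⟨hwU, hwS⟩, rfl⟩ hnF
      exact hint w hwU hwS fun h => hnF ⟨w, h, rfl⟩
    -- points of `P` on the edge are not interior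
    have hedge : ∀ u ∈ P, u.re + u.im = 1 → P ∉ 𝓝 u := by
      intro u hu hu1 hn
      have hc' : Tendsto (fun t : ℝ => u + (t : ℂ)) (𝓝 0) (𝓝 (u + ((0:ℝ) : ℂ))) :=
        (continuous_const.add Complex.continuous_ofReal).tendsto 0
      rw [Complex.ofReal_zero, add_zero] at hc'
      have h1 := hc' hn
      rw [Filter.mem_map, Metric.mem_nhds_iff] at h1
      obtain ⟨ε, hε, h1⟩ := h1
      have h2 : (ε / 2) ∈ ball (0:ℝ) ε := by
        rw [mem_ball, Real.dist_eq, sub_zero, abs_of_pos (by positivity)]; linarith
      have h3 : u + ((ε / 2 : ℝ) : ℂ) ∈ P := h1 h2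
      have h4 := (hPΔ h3).2.2
      rw [Complex.add_re, Complex.add_im, Complex.ofReal_re, Complex.ofReal_im] at h4
      linarith
    -- start
    set u0 : ℂ := Q y with hu0
    have hu0P : u0 ∈ P := ⟨y, hy, rfl⟩
    have hu0n : P ∈ 𝓝 u0 := hint y hy.1 hy.2 hyE
    have hu0Δ := hPΔ hu0P
    have hu0lt : u0.re + u0.im < 1 := by
      rcases lt_or_eq_of_le hu0Δ.2.2 with h | h
      · exact h
      · exact absurd hu0n (hedge u0 hu0P h)
    -- choose a target on the edge
    let q : ℝ → ℂ := fun s => ⟨s, 1 - s⟩
    have hbad : (⋃ f ∈ F \ {u0}, {s : ℝ | ∃ t : ℝ, f = u0 + (t : ℂ) * (q s - u0)}).Finite := by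
      refine Set.Finite.biUnion (hFfin.subset sdiff_subset) ?_
      rintro f ⟨-, hf⟩
      apply Set.Subsingleton.finite
      rintro s ⟨t, ht⟩ s' ⟨t', ht'⟩
      have hre : f.re = u0.re + t * (s - u0.re) := by
        rw [ht]; simp [q]
      have him : f.im = u0.im + t * ((1 - s) - u0.im) := by
        rw [ht]; simp [q]
      have hre' : f.re = u0.re + t' * (s' - u0.re) := by
        rw [ht']; simp [q]
      have him' : f.im = u0.im + t' * ((1 - s') - u0.im) := by
        rw [ht']; simp [q]
      have htt : t = t' := by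
        have : t * (1 - u0.re - u0.im) = t' * (1 - u0.re - u0.im) := by
          linarith
        have hpos : (0:ℝ) < 1 - u0.re - u0.im := by linarith
        exact mul_right_cancel₀ hpos.ne' this
      have ht0 : t ≠ 0 := by
        intro h0
        apply hf
        rw [mem_singleton_iff, ht, h0]; simp
      subst htt
      have : t * s = t * s' := by linarith
      exact mul_left_cancel₀ ht0 this
    obtain ⟨s, hs, hsbad⟩ : ∃ s ∈ Ioo (0:ℝ) 1,
        s ∉ ⋃ f ∈ F \ {u0}, {s : ℝ | ∃ t : ℝ, f = u0 + (t : ℂ) * (q s - u0)} := by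
      by_contra hcon
      push Not at hcon
      exact (Ioo_infinite (show (0:ℝ) < 1 by norm_num)) (hbad.subset hcon)
    have hsb : ∀ f ∈ F, f ≠ u0 → ∀ t : ℝ, f ≠ u0 + (t : ℂ) * (q s - u0) := by
      intro f hf hne t ht
      apply hsbad
      rw [mem_iUnion₂]
      exact ⟨f, ⟨hf, hne⟩, t, ht⟩
    -- the segment
    let g : ℝ → ℂ := fun t => u0 + (t : ℂ) * (q s - u0)
    have hgc : Continuous g := by
      show Continuous fun t : ℝ => u0 + (t : ℂ) * (q s - u0)
      fun_prop
    have hgre : ∀ t, (g t).re = u0.re + t * (s - u0.re) := fun t => by simp [g, q]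
    have hgim : ∀ t, (g t).im = u0.im + t * ((1 - s) - u0.im) := fun t => by simp [g, q]
    have hgΔ : ∀ t ∈ Icc (0:ℝ) 1, g t ∈ Δ := by
      intro t ht
      refine ⟨?_, ?_, ?_⟩
      · rw [hgre]
        nlinarith [hu0Δ.1, hs.1, ht.1, ht.2, mul_nonneg ht.1 hs.1.le,
          mul_nonneg (sub_nonneg.2 ht.2) hu0Δ.1.le]
      · rw [hgim]
        nlinarith [hu0Δ.2.1, hs.2, ht.1, ht.2, mul_nonneg ht.1 (sub_nonneg.2 hs.2.le),
          mul_nonneg (sub_nonneg.2 ht.2) hu0Δ.2.1.le]
      · rw [hgre, hgim]
        nlinarith [ht.2, hu0lt]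
    have hgP : ∀ t ∈ Icc (0:ℝ) 1, g t ∈ P := by
      have hclosed : IsClosed ({t | g t ∈ P} ∩ Icc (0:ℝ) 1) := by
        have : ({t | g t ∈ P} ∩ Icc (0:ℝ) 1) = (fun t => lift (g t)) ⁻¹' S ∩ Icc 0 1 := by
          ext t
          constructor
          · rintro ⟨h1, h2⟩
            exact ⟨(hPiff _ (hgΔ t h2)).1 h1, h2⟩
          · rintro ⟨h1, h2⟩
            exact ⟨(hPiff _ (hgΔ t h2)).2 h1, h2⟩
        rw [this]
        exact (hS.preimage (hliftc.comp hgc)).inter isClosed_Icc
      have := hclosed.Icc_subset_of_forall_mem_nhdsWithin (a := 0) (b := 1) (by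
          show g 0 ∈ P
          have : g 0 = u0 := by simp [g]
          rw [this]; exact hu0P) (by
        rintro t ⟨ht1, ht2⟩
        have h1 : P ∈ 𝓝 (g t) := by
          by_cases hgu : g t = u0
          · rw [hgu]; exact hu0n
          · apply hint' _ ht1
            intro hgF
            exact hsb _ hgF hgu t rfl
        exact mem_nhdsWithin_of_mem_nhds (hgc.continuousAt h1))
      exact fun t ht => this ht
    have h1P : g 1 ∈ P := hgP 1 ⟨zero_le_one, le_rfl⟩
    have h1e : (g 1).re + (g 1).im = 1 := by rw [hgre, hgim]; ring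
    have hne : g 1 ≠ u0 := by
      intro h
      rw [h] at h1e
      linarith
    have h1F : g 1 ∉ F := fun h => hsb _ h hne 1 rfl
    exact hedge _ h1P h1e (hint' _ h1P h1F)

/-- In the realisation of a collapsible 2-dimensional complex there is no nonempty closed set
without free boundary. -/
theorem no_free {m : ℕ} {A : Set (Finset (Fin m))} (hA : IsComplex A)
    (hdim : ∀ s ∈ A, s.card ≤ 3) (v : Fin m)
    (hcol : ReflTransGen ElemCollapse A {{v}})
    (S E : Set (Fin m → ℝ)) (hSA : S ⊆ realization A) (hS : IsClosed S) (hE : E.Finite)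
    (hdisc : ∀ x ∈ S \ E, OnDisc S x)
    (hperf : ∀ U : Set (Fin m → ℝ), IsOpen U → (U ∩ S).Nonempty → (U ∩ S).Infinite) :
    S = ∅ := by
  classical
  have key : ∀ B, ReflTransGen ElemCollapse A B →
      IsComplex B ∧ (∀ s ∈ B, s.card ≤ 3) ∧ S ⊆ realization B := by
    intro B hB
    induction hB with
    | refl => exact ⟨hA, hdim, hSA⟩
    | tail _ hBC ih =>
      exact ⟨hBC.isComplex ih.1, fun s hs => ih.2.1 s (hBC.subset hs),
        step ih.1 ih.2.1 hBC S E ih.2.2 hS hE hdisc hperf⟩
  have h1 := (key _ hcol).2.2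
  by_contra hne
  have hne' : S.Nonempty := nonempty_iff_ne_empty.2 hne
  have hinf : (univ ∩ S).Infinite := hperf univ isOpen_univ (by rwa [univ_inter])
  rw [univ_inter] at hinf
  apply hinf
  apply Set.Subsingleton.finite
  have huniq : ∀ w ∈ S, w = fun i => if i = v then (1:ℝ) else 0 := by
    intro w hw
    obtain ⟨h2, h3, h4⟩ := h1 hw
    have h5 : (Finset.univ.filter fun i => 0 < w i) = {v} := h4
    have h6 : ∀ i, i ≠ v → w i = 0 := by
      intro i hi
      have : i ∉ (Finset.univ.filter fun i => 0 < w i) := by rw [h5]; simpa using hi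
      have : ¬ 0 < w i := by simpa using this
      exact le_antisymm (not_lt.1 this) (h2 i)
    funext i
    by_cases hi : i = v
    · subst hi
      rw [if_pos rfl, ← h3]
      symm
      apply Finset.sum_eq_single
      · intro b _ hb; exact h6 b hb
      · intro h; exact absurd (Finset.mem_univ _) h
    · rw [if_neg hi, h6 i hi]
  intro x hx y hy
  rw [huniq x hx, huniq y hy]

/-- `X` is homeomorphic to the realisation of a finite simplicial complex that collapses to a
vertex by elementary simplicial collapses. -/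
def CollapsesToPoint (X : Type*) [TopologicalSpace X] : Prop :=
  ∃ (m : ℕ) (T : Set (Finset (Fin m))) (v : Fin m), IsComplex T ∧
    ReflTransGen ElemCollapse T {{v}} ∧ Nonempty (X ≃ₜ realization T)

/-- If a space contains no injectively and continuously embedded open piece of `ℝ³`, every
triangulation of it has dimension at most two. -/
theorem card_le_three {m : ℕ} {T : Set (Finset (Fin m))} (hT : IsComplex T)
    (hno : ¬ ∃ (O : Set (Fin 3 → ℝ)) (ψ : (Fin 3 → ℝ) → realization T),
      IsOpen O ∧ O.Nonempty ∧ ContinuousOn ψ O ∧ InjOn ψ O) :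
    ∀ s ∈ T, s.card ≤ 3 := by
  classical
  intro s hs
  by_contra hcard
  push Not at hcard
  obtain ⟨t, hts, ht4⟩ := Finset.exists_subset_card_eq (show 4 ≤ s.card by omega)
  have htT : t ∈ T := hT.2 s hs t hts (by rw [← Finset.card_pos]; omega)
  let e : Fin 4 ≃ t := (Fintype.equivFinOfCardEq (by simpa using ht4)).symm
  let u : (Fin 3 → ℝ) → Fin 4 → ℝ := fun x => Fin.cons (1 - ∑ i, x i) x
  let W : (Fin 3 → ℝ) → (Fin m → ℝ) := fun x i =>
    if h : i ∈ t then u x (e.symm ⟨i, h⟩) else 0
  let O : Set (Fin 3 → ℝ) := {x | (∀ i, 0 < x i) ∧ ∑ i, x i < 1}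
  have hupos : ∀ x ∈ O, ∀ j, 0 < u x j := by
    intro x hx j
    refine Fin.cases ?_ (fun i => ?_) j
    · show 0 < 1 - ∑ i, x i
      linarith [hx.2]
    · exact hx.1 i
  have husum : ∀ x, ∑ j, u x j = 1 := by
    intro x
    rw [Fin.sum_univ_succ]
    show (1 - ∑ i, x i) + ∑ i, x i = 1
    ring
  have hW : ∀ x ∈ O, W x ∈ realization T := by
    intro x hx
    refine ⟨?_, ?_, ?_⟩
    · intro i
      show 0 ≤ if h : i ∈ t then u x (e.symm ⟨i, h⟩) else 0
      split_ifs with h
      · exact (hupos x hx _).le
      · exact le_rfl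
    · have h1 : ∑ i, W x i = ∑ i ∈ t, W x i := by
        symm
        apply Finset.sum_subset (Finset.subset_univ _)
        intro i _ hi
        exact dif_neg hi
      rw [h1, ← Finset.sum_coe_sort]
      have h2 : ∀ i : t, W x i = u x (e.symm i) := fun i => dif_pos i.2
      rw [Finset.sum_congr rfl fun i _ => h2 i, Equiv.sum_comp e.symm, husum]
    · have : (Finset.univ.filter fun i => 0 < W x i) = t := by
        ext i
        simp only [Finset.mem_filter, Finset.mem_univ, true_and]
        constructor
        · intro h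
          by_contra hi
          rw [show W x i = 0 from dif_neg hi] at h
          exact lt_irrefl _ h
        · intro hi
          rw [show W x i = u x (e.symm ⟨i, hi⟩) from dif_pos hi]
          exact hupos x hx _
      rw [this]; exact htT
  have hWc : Continuous W := by
    apply continuous_pi
    intro i
    by_cases h : i ∈ t
    · have : (fun x => W x i) = fun x => u x (e.symm ⟨i, h⟩) := by
        funext x; exact dif_pos h
      rw [this]
      generalize e.symm ⟨i, h⟩ = j
      refine Fin.cases ?_ (fun k => ?_) j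
      · show Continuous fun x : Fin 3 → ℝ => 1 - ∑ i, x i
        fun_prop
      · show Continuous fun x : Fin 3 → ℝ => x k
        fun_prop
    · have : (fun x => W x i) = fun _ => 0 := by
        funext x; exact dif_neg h
      rw [this]; exact continuous_const
  have hO : IsOpen O := by
    have : O = (⋂ i, {x : Fin 3 → ℝ | 0 < x i}) ∩ {x | ∑ i, x i < 1} := by
      ext x; simp [O]
    rw [this]
    apply IsOpen.inter
    · exact isOpen_iInter_of_finite fun i => isOpen_lt continuous_const (continuous_apply i)
    · exact isOpen_lt (by fun_prop) continuous_const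
  have hx0 : (fun _ => (1/4 : ℝ)) ∈ O := by
    refine ⟨fun _ => by norm_num, ?_⟩
    rw [Fin.sum_univ_three]; norm_num
  apply hno
  refine ⟨O, fun x => if h : x ∈ O then ⟨W x, hW x h⟩ else ⟨W _, hW _ hx0⟩, hO, ⟨_, hx0⟩, ?_, ?_⟩
  · rw [continuousOn_iff_continuous_domRestrict]
    apply Continuous.subtype_mk (hWc.comp continuous_subtype_val) (fun x => hW x.1 x.2) |>.congr
    rintro ⟨x, hx⟩
    show _ = dite _ _ _
    rw [dif_pos hx]
    rfl
  · intro x hx y hy hxy
    simp only [dif_pos hx, dif_pos hy, Subtype.mk.injEq] at hxy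
    funext k
    have h1 := congrFun hxy (e k.succ : Fin m)
    have h2 : ∀ z, W z (e k.succ : Fin m) = z k := by
      intro z
      show dite _ _ _ = _
      rw [dif_pos (e k.succ).2]
      simp [u]
    rw [h2, h2] at h1
    exact h1

end Pool.Agent.W623.Pris
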