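import Mathlib
import Pool.Agent.W623.Pris.Free

/-!
# The standard complex of a presentation and the prismatic polyhedra

`StdComplex R` is the standard 2-complex of the presentation with generators `Fin n` and relators
`R j`; `Prism R f` is the polyhedron `(K¹ × I) ∪ ⋃ C_j^*` inside `K × I`, where `C_j^*` is the
graph of the height function `f j` over the closed 2-cell `C_j`.
-/

set_option autoImplicit false

open Set Filter Topology Metric Relation unitInterval

namespace Pool.Agent.W623.Pris

/-- Words in the generators `Fin n`: `(g, true)` is the generator, `(g, false)` its inverse (the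
convention of Mathlib's `FreeGroup`). -/
abbrev Word (n : ℕ) := List (Fin n × Bool)

/-- The closed unit disc, used as the closed 2-cells. -/
abbrev Disk := closedBall (0 : ℂ) 1

/-- The point of the boundary circle at parameter `θ` (the circle is `ℝ / ℤ`). -/
noncomputable def circlePt (θ : ℝ) : Disk :=
  ⟨Complex.exp ((2 * Real.pi * θ : ℝ) * Complex.I), by
    rw [mem_closedBall, dist_zero_right, Complex.norm_exp_ofReal_mul_I]⟩

/-- The disjoint union of the closed cells: `n` intervals and one disc for each relator. -/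
abbrev Raw (n : ℕ) := (Fin n × I) ⊕ (Fin n × Disk)

/-- Gluing: all ends of the intervals are glued to one point, and the boundary circle of the
`j`-th disc is glued along the loop that spells `R j`, the `i`-th letter being spelled on the arc
from `i / l` to `(i + 1) / l`, where `l` is the length of `R j`. -/
inductive Glue {n : ℕ} (R : Fin n → Word n) : Raw n → Raw n → Prop
  | base (g g' : Fin n) (a b : I) (ha : a = 0 ∨ a = 1) (hb : b = 0 ∨ b = 1) :
      Glue R (Sum.inl (g, a)) (Sum.inl (g', b))
  | attach (j : Fin n) (i : Fin (R j).length) (t : I) :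
      Glue R (Sum.inr (j, circlePt (((i : ℕ) + (t : ℝ)) / (R j).length)))
        (Sum.inl (((R j).get i).1, if ((R j).get i).2 then t else σ t))

/-- The standard 2-complex of the presentation `⟨Fin n | R j⟩`. -/
def StdComplex {n : ℕ} (R : Fin n → Word n) := Quot (Glue R)

instance {n : ℕ} (R : Fin n → Word n) : TopologicalSpace (StdComplex R) :=
  inferInstanceAs (TopologicalSpace (Quot (Glue R)))

/-- The polyhedron `(K¹ × I) ∪ ⋃ C_j^*` in `K × I`, where `C_j^*` is the graph of `f j`. -/
def Prism {n : ℕ} (R : Fin n → Word n) (f : Fin n → Disk → I) : Set (StdComplex R × I) :=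
  {p | ∃ g t, p.1 = Quot.mk _ (Sum.inl (g, t))} ∪
  {p | ∃ j z, p = (Quot.mk _ (Sum.inr (j, z)), f j z)}

/-- Continuous height functions whose restriction to each boundary circle is piecewise linear
(a continuous selection of finitely many affine functions). -/
def IsHeight {n : ℕ} (f : Fin n → Disk → I) : Prop :=
  (∀ j, Continuous (f j)) ∧
  ∀ j, ∃ A : Finset (ℝ × ℝ), ∀ s ∈ Icc (0:ℝ) 1, ∃ q ∈ A, (f j (circlePt s) : ℝ) = q.1 * s + q.2

/-- The complex `K` is prismatically collapsible: for some choice of the 2-cells `C_j^*` the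
polyhedron `(K¹ × I) ∪ ⋃ C_j^*` collapses to a point. -/
def PrismaticallyCollapsible {n : ℕ} (R : Fin n → Word n) : Prop :=
  ∃ f : Fin n → Disk → I, IsHeight f ∧ CollapsesToPoint (Prism R f)

/-! ### Elementary facts on the circle -/

theorem continuous_circlePt : Continuous circlePt := by
  unfold circlePt
  refine Continuous.subtype_mk ?_ _
  fun_prop

theorem norm_circlePt (θ : ℝ) : ‖(circlePt θ : ℂ)‖ = 1 := Complex.norm_exp_ofReal_mul_I _

theorem circlePt_eq_iff (a b : ℝ) : circlePt a = circlePt b ↔ ∃ k : ℤ, a = b + k := by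
  rw [Subtype.ext_iff]
  show Complex.exp ((2 * Real.pi * a : ℝ) * Complex.I) =
    Complex.exp ((2 * Real.pi * b : ℝ) * Complex.I) ↔ _
  rw [Complex.exp_eq_exp_iff_exists_int]
  constructor
  · rintro ⟨k, hk⟩
    refine ⟨k, ?_⟩
    have h1 := congrArg Complex.im hk
    simp at h1
    have h2 : 2 * Real.pi ≠ 0 := by positivity
    have h3 : (2 * Real.pi) * a = (2 * Real.pi) * (b + k) := by linarith
    exact mul_left_cancel₀ h2 h3
  · rintro ⟨k, rfl⟩
    refine ⟨k, ?_⟩
    push_cast
    ring

/-- Two points of the boundary of a cell given by letters. -/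
theorem circlePt_letters {l : ℕ} (i i' : Fin l) {t t' : ℝ} (ht : t ∈ Icc (0:ℝ) 1)
    (ht' : t' ∈ Icc (0:ℝ) 1)
    (h : circlePt (((i : ℕ) + t) / l) = circlePt (((i' : ℕ) + t') / l)) :
    (i = i' ∧ t = t') ∨ ((t = 0 ∨ t = 1) ∧ (t' = 0 ∨ t' = 1)) := by
  have hl : (0 : ℝ) < l := by
    have := i.pos
    exact_mod_cast this
  obtain ⟨k, hk⟩ := (circlePt_eq_iff _ _).1 h
  have h1 : ((i : ℕ) : ℝ) + t = (i' : ℕ) + t' + k * l := by
    field_simp at hk
    linarith
  have hi : ((i : ℕ) : ℝ) + 1 ≤ l := by exact_mod_cast i.2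
  have hi' : ((i' : ℕ) : ℝ) + 1 ≤ l := by exact_mod_cast i'.2
  have hi0 : (0:ℝ) ≤ ((i : ℕ) : ℝ) := by positivity
  have hi0' : (0:ℝ) ≤ ((i' : ℕ) : ℝ) := by positivity
  -- `t - t'` is an integer
  have h2 : t - t' = ((i' : ℤ) - (i : ℤ) + k * l : ℤ) := by
    push_cast
    linarith
  set d : ℤ := (i' : ℤ) - (i : ℤ) + k * l with hd
  have h3 : (-1 : ℝ) ≤ (d : ℝ) := by rw [← h2]; linarith [ht.1, ht'.2]
  have h4 : (d : ℝ) ≤ 1 := by rw [← h2]; linarith [ht.2, ht'.1]
  have h3' : -1 ≤ d := by exact_mod_cast h3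
  have h4' : d ≤ 1 := by exact_mod_cast h4
  have hcases : d = -1 ∨ d = 0 ∨ d = 1 := by omega
  rcases hcases with hd' | hd' | hd'
  · right
    rw [hd'] at h2
    push_cast at h2
    exact ⟨Or.inl (by linarith [ht.1, ht'.2]), Or.inr (by linarith [ht.1, ht'.2])⟩
  · left
    rw [hd'] at h2
    push_cast at h2
    have ht2 : t = t' := by linarith
    refine ⟨?_, ht2⟩
    have h5 : ((i' : ℤ) : ℤ) - (i : ℤ) + k * l = 0 := hd'
    have h6 : (i : ℤ) < l := by exact_mod_cast i.2
    have h7 : (i' : ℤ) < l := by exact_mod_cast i'.2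
    have hk0 : k = 0 := by
      have hlz : (0:ℤ) < l := by exact_mod_cast hl
      by_contra hk0
      rcases lt_or_gt_of_ne hk0 with hneg | hpos
      · have : k * l ≤ -1 * l := by nlinarith
        omega
      · have : 1 * (l:ℤ) ≤ k * l := by nlinarith
        omega
    rw [hk0] at h5
    apply Fin.ext
    omega
  · right
    rw [hd'] at h2
    push_cast at h2
    exact ⟨Or.inr (by linarith [ht.2, ht'.1]), Or.inl (by linarith [ht.2, ht'.1])⟩

/-! ### Normal forms -/

variable {n : ℕ} (R : Fin n → Word n)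

/-- The point of the 1-skeleton at letter `i`, parameter `t` of the relator `j`. -/
def letterPt (j : Fin n) (i : Fin (R j).length) (t : I) : Fin n × I :=
  (((R j).get i).1, if ((R j).get i).2 then t else σ t)

/-- Normal form of a point of the 1-skeleton. -/
noncomputable def nfE (p : Fin n × I) : Option (Fin n × ℝ) := by
  classical
  exact if 0 < (p.2 : ℝ) ∧ (p.2 : ℝ) < 1 then some (p.1, p.2) else none

/-- A boundary point of the `j`-th cell as a point of the 1-skeleton. -/
noncomputable def att (j : Fin n) (z : Disk) : Fin n × I := by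
  classical
  exact if h : ∃ q : Fin (R j).length × I,
      z = circlePt (((q.1 : ℕ) + (q.2 : ℝ)) / (R j).length) then
    letterPt R j h.choose.1 h.choose.2 else (j, 0)

/-- Normal form of a point of the disjoint union of the cells. -/
noncomputable def nf : Raw n → Option (Fin n × ℝ) ⊕ (Fin n × ℂ)
  | Sum.inl p => Sum.inl (nfE p)
  | Sum.inr (j, z) => by
      classical
      exact if ‖(z : ℂ)‖ < 1 then Sum.inr (j, z) else Sum.inl (nfE (att R j z))

theorem nfE_of_end (g : Fin n) (a : I) (h : a = 0 ∨ a = 1) : nfE (g, a) = none := by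
  unfold nfE
  rw [if_neg]
  rcases h with rfl | rfl <;> simp

theorem nfE_inner (g : Fin n) (a : I) (h0 : 0 < (a : ℝ)) (h1 : (a : ℝ) < 1) :
    nfE (g, a) = some (g, (a : ℝ)) := if_pos ⟨h0, h1⟩

theorem nf_glue {x y : Raw n} (h : Glue R x y) : nf R x = nf R y := by
  cases h with
  | base g g' a b ha hb =>
    show Sum.inl (nfE (g, a)) = Sum.inl (nfE (g', b))
    rw [nfE_of_end g a ha, nfE_of_end g' b hb]
  | attach j i t =>
    show (if ‖((circlePt (((i : ℕ) + (t : ℝ)) / (R j).length) : Disk) : ℂ)‖ < 1 then _ else _) = _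
    rw [if_neg (by rw [norm_circlePt]; exact lt_irrefl 1)]
    show Sum.inl (nfE (att R j _)) = Sum.inl (nfE (letterPt R j i t))
    congr 1
    have hex : ∃ q : Fin (R j).length × I,
      circlePt (((i : ℕ) + (t : ℝ)) / (R j).length) =
        circlePt (((q.1 : ℕ) + (q.2 : ℝ)) / (R j).length) := ⟨(i, t), rfl⟩
    unfold att
    rw [dif_pos hex]
    rcases circlePt_letters i hex.choose.1 t.2 hex.choose.2.2 hex.choose_spec with h | h
    · have h2 : t = hex.choose.2 := Subtype.ext h.2
      rw [← h.1, ← h2]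
    · have e1 : ∀ (i : Fin (R j).length) (t : I), (t : ℝ) = 0 ∨ (t : ℝ) = 1 →
          nfE (letterPt R j i t) = none := by
        intro i t ht
        apply nfE_of_end
        have ht' : t = 0 ∨ t = 1 := by
          rcases ht with h | h
          · left; exact Subtype.ext h
          · right; exact Subtype.ext h
        split_ifs
        · exact ht'
        · rcases ht' with rfl | rfl
          · right; exact unitInterval.symm_zero
          · left; exact unitInterval.symm_one
      rw [e1 _ _ h.1, e1 _ _ h.2]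

/-- Normal form on the complex. -/
noncomputable def nfQ : StdComplex R → Option (Fin n × ℝ) ⊕ (Fin n × ℂ) :=
  Quot.lift (nf R) fun _ _ h => nf_glue R h

variable (f : Fin n → Disk → I)

/-- The point `(g, t)` of the 1-skeleton at height `y`, as a point of the prismatic
polyhedron. -/
def ept (g : Fin n) (p : I × I) : Prism R f :=
  ⟨(Quot.mk _ (Sum.inl (g, p.1)), p.2), Or.inl ⟨g, p.1, rfl⟩⟩

/-- The point of `C_j^*` over the point `z` of the `j`-th cell. -/
def cpt (j : Fin n) (z : Disk) : Prism R f :=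
  ⟨(Quot.mk _ (Sum.inr (j, z)), f j z), Or.inr ⟨j, z, rfl⟩⟩

theorem continuous_ept (g : Fin n) : Continuous (ept R f g) := by
  unfold ept
  refine Continuous.subtype_mk ?_ _
  refine Continuous.prodMk ?_ continuous_snd
  exact continuous_quot_mk.comp (continuous_inl.comp (continuous_const.prodMk continuous_fst))

variable {f} in
theorem continuous_cpt (hf : ∀ j, Continuous (f j)) (j : Fin n) : Continuous (cpt R f j) := by
  unfold cpt
  refine Continuous.subtype_mk ?_ _
  refine Continuous.prodMk ?_ (hf j)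
  exact continuous_quot_mk.comp (continuous_inr.comp (continuous_const.prodMk continuous_id))

theorem ept_height {g g' : Fin n} {p p' : I × I} (h : ept R f g p = ept R f g' p') :
    p.2 = p'.2 := congrArg (fun x : Prism R f => x.1.2) h

theorem ept_end {g g' : Fin n} {a b y : I} (ha : a = 0 ∨ a = 1) (hb : b = 0 ∨ b = 1) :
    ept R f g (a, y) = ept R f g' (b, y) := by
  apply Subtype.ext
  apply Prod.ext
  · exact Quot.sound (Glue.base g g' a b ha hb)
  · rfl

theorem ept_inj {g g' : Fin n} {p p' : I × I} (h : ept R f g p = ept R f g' p')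
    (h0 : 0 < (p.1 : ℝ)) (h1 : (p.1 : ℝ) < 1) : g = g' ∧ p = p' := by
  have h2 := ept_height R f h
  have h3 : nfQ R (ept R f g p).1.1 = nfQ R (ept R f g' p').1.1 := by rw [h]
  have h4 : nfE (g, p.1) = nfE (g', p'.1) := Sum.inl_injective h3
  rw [nfE_inner g p.1 h0 h1] at h4
  by_cases hp : 0 < (p'.1 : ℝ) ∧ (p'.1 : ℝ) < 1
  · rw [nfE_inner g' p'.1 hp.1 hp.2] at h4
    have h5 := Option.some_injective _ h4
    refine ⟨congrArg Prod.fst h5, Prod.ext (Subtype.ext (congrArg Prod.snd h5)) h2⟩
  · rw [show nfE (g', p'.1) = none from if_neg hp] at h4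
    exact absurd h4 (by simp)

theorem ept_end_iff {g g' : Fin n} {p p' : I × I} (h : ept R f g p = ept R f g' p')
    (h0 : p.1 = 0 ∨ p.1 = 1) : (p'.1 = 0 ∨ p'.1 = 1) := by
  by_contra hcon
  have h1 : 0 < (p'.1 : ℝ) := by
    rcases lt_or_eq_of_le p'.1.2.1 with h' | h'
    · exact h'
    · exact absurd (Or.inl (Subtype.ext h'.symm)) hcon
  have h2 : (p'.1 : ℝ) < 1 := by
    rcases lt_or_eq_of_le p'.1.2.2 with h' | h'
    · exact h'
    · exact absurd (Or.inr (Subtype.ext h')) hcon
  have h3 := (ept_inj R f h.symm h1 h2).2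
  rw [h3] at hcon
  exact hcon h0

theorem cpt_inj {j j' : Fin n} {z z' : Disk} (h : cpt R f j z = cpt R f j' z')
    (hz : ‖(z : ℂ)‖ < 1) : j = j' ∧ z = z' := by
  have h3 : nfQ R (cpt R f j z).1.1 = nfQ R (cpt R f j' z').1.1 := by rw [h]
  have h4 : nf R (Sum.inr (j, z)) = nf R (Sum.inr (j', z')) := h3
  have h5 : nf R (Sum.inr (j, z)) = Sum.inr (j, (z : ℂ)) := if_pos hz
  rw [h5] at h4
  by_cases hz' : ‖(z' : ℂ)‖ < 1
  · have h6 : nf R (Sum.inr (j', z')) = Sum.inr (j', (z' : ℂ)) := if_pos hz'
    rw [h6] at h4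
    have h7 := Sum.inr_injective h4
    exact ⟨congrArg Prod.fst h7, Subtype.ext (congrArg Prod.snd h7)⟩
  · have h6 : nf R (Sum.inr (j', z')) = Sum.inl (nfE (att R j' z')) := if_neg hz'
    rw [h6] at h4
    exact absurd h4 (by simp)

theorem cpt_ne_ept {j g : Fin n} {z : Disk} {p : I × I} (hz : ‖(z : ℂ)‖ < 1) :
    cpt R f j z ≠ ept R f g p := by
  intro h
  have h3 : nfQ R (cpt R f j z).1.1 = nfQ R (ept R f g p).1.1 := by rw [h]
  have h4 : nf R (Sum.inr (j, z)) = nf R (Sum.inl (g, p.1)) := h3
  have h5 : nf R (Sum.inr (j, z)) = Sum.inr (j, (z : ℂ)) := if_pos hz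
  rw [h5] at h4
  exact absurd h4 (by simp [nf])

theorem cpt_boundary (j : Fin n) (i : Fin (R j).length) (t : I) :
    cpt R f j (circlePt (((i : ℕ) + (t : ℝ)) / (R j).length)) =
      ept R f ((R j).get i).1 (if ((R j).get i).2 then t else σ t,
        f j (circlePt (((i : ℕ) + (t : ℝ)) / (R j).length))) := by
  apply Subtype.ext
  apply Prod.ext
  · exact Quot.sound (Glue.attach j i t)
  · rfl

/-- Every point of the prismatic polyhedron is of one of the two kinds. -/
theorem cases_pt (x : Prism R f) : (∃ g p, x = ept R f g p) ∨ (∃ j z, x = cpt R f j z) := by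
  obtain ⟨⟨q, y⟩, h | h⟩ := x
  · obtain ⟨g, t, h⟩ := h
    left
    refine ⟨g, (t, y), ?_⟩
    apply Subtype.ext
    apply Prod.ext
    · exact h
    · rfl
  · obtain ⟨j, z, h⟩ := h
    right
    exact ⟨j, z, Subtype.ext h⟩

end Pool.Agent.W623.Pris
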