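import Mathlib
import Pool.Agent.W623.Pris.Poly

/-!
# Embedded discs in the prismatic polyhedra
-/

set_option autoImplicit false

open Set Filter Topology Metric Relation unitInterval

namespace Pool.Agent.W623.Pris

variable {n : ℕ} (R : Fin n → Word n) (f : Fin n → Disk → I)

/-- Orientation of the parameter. -/
def tau (b : Bool) (u : I) : I := if b then u else σ u

theorem tau_tau (b : Bool) (u : I) : tau b (tau b u) = u := by
  unfold tau
  cases b
  · simp
  · simp

theorem continuous_tau (b : Bool) : Continuous (tau b) := by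
  cases b
  · exact unitInterval.continuous_symm
  · exact continuous_id

theorem tau_mem (b : Bool) (u : I) (h0 : 0 < (u : ℝ)) (h1 : (u : ℝ) < 1) :
    0 < (tau b u : ℝ) ∧ (tau b u : ℝ) < 1 := by
  unfold tau
  cases b
  · simp only [Bool.false_eq_true, if_false, unitInterval.coe_symm_eq]
    constructor <;> linarith
  · simp only [if_true]
    exact ⟨h0, h1⟩

/-- The point of the boundary of the `j`-th cell on the arc of letter `i` that is glued to the
point `u` of the generator. -/
noncomputable def bp (j : Fin n) (i : Fin (R j).length) (u : I) : Disk :=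
  circlePt (((i : ℕ) + (tau ((R j).get i).2 u : ℝ)) / (R j).length)

/-- Height of the strand. -/
noncomputable def ht (j : Fin n) (i : Fin (R j).length) (u : I) : I := f j (bp R j i u)

/-- The generator of the letter. -/
def gen (j : Fin n) (i : Fin (R j).length) : Fin n := ((R j).get i).1

theorem norm_bp (j : Fin n) (i : Fin (R j).length) (u : I) : ‖(bp R j i u : ℂ)‖ = 1 :=
  norm_circlePt _

theorem continuous_bp (j : Fin n) (i : Fin (R j).length) : Continuous (bp R j i) := by
  unfold bp
  refine continuous_circlePt.comp ?_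
  have := continuous_tau ((R j).get i).2
  fun_prop

theorem cpt_bp (j : Fin n) (i : Fin (R j).length) (u : I) :
    cpt R f j (bp R j i u) = ept R f (gen R j i) (u, ht R f j i u) := by
  have h := cpt_boundary R f j i (tau ((R j).get i).2 u)
  unfold bp
  rw [h]
  have h2 : (if ((R j).get i).2 then tau ((R j).get i).2 u else σ (tau ((R j).get i).2 u)) = u :=
    tau_tau _ u
  rw [h2]
  rfl

theorem bp_inj (j : Fin n) (i i' : Fin (R j).length) (u u' : I) (h0 : 0 < (u : ℝ))
    (h1 : (u : ℝ) < 1) (h : bp R j i u = bp R j i' u') : i = i' ∧ u = u' := by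
  rcases circlePt_letters i i' (tau ((R j).get i).2 u).2 (tau ((R j).get i').2 u').2 h with
    h2 | h2
  · obtain ⟨rfl, h3⟩ := h2
    refine ⟨rfl, ?_⟩
    have h4 : tau ((R j).get i).2 u = tau ((R j).get i).2 u' := Subtype.ext h3
    rw [← tau_tau ((R j).get i).2 u, h4, tau_tau]
  · exfalso
    have h5 := tau_mem ((R j).get i).2 u h0 h1
    rcases h2.1 with h6 | h6
    · rw [h6] at h5; exact lt_irrefl _ h5.1
    · rw [h6] at h5; exact lt_irrefl _ h5.2

/-- Radial shrinking. -/
noncomputable def shr (c : I) (z : Disk) : Disk :=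
  ⟨((1 - (c : ℝ) : ℝ) : ℂ) * (z : ℂ), by
    have hz : ‖(z : ℂ)‖ ≤ 1 := by
      have := z.2
      rwa [mem_closedBall, dist_zero_right] at this
    rw [mem_closedBall, dist_zero_right, norm_mul, Complex.norm_real, Real.norm_eq_abs,
      abs_of_nonneg (by linarith [c.2.2])]
    nlinarith [c.2.1, c.2.2, norm_nonneg (z : ℂ)]⟩

theorem continuous_shr : Continuous fun p : I × Disk => shr p.1 p.2 := by
  unfold shr
  refine Continuous.subtype_mk ?_ _
  fun_prop

theorem norm_shr (c : I) (z : Disk) (hz : ‖(z : ℂ)‖ = 1) : ‖(shr c z : ℂ)‖ = 1 - c := by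
  show ‖((1 - (c : ℝ) : ℝ) : ℂ) * (z : ℂ)‖ = 1 - c
  rw [norm_mul, hz, mul_one, Complex.norm_real, Real.norm_eq_abs,
    abs_of_nonneg (by linarith [c.2.2])]

theorem shr_zero (z : Disk) : shr 0 z = z := by
  apply Subtype.ext
  show ((1 - ((0 : I) : ℝ) : ℝ) : ℂ) * (z : ℂ) = z
  simp

theorem shr_inj {c c' : I} {z z' : Disk} (hz : ‖(z : ℂ)‖ = 1) (hz' : ‖(z' : ℂ)‖ = 1)
    (hc : (c : ℝ) < 1) (h : shr c z = shr c' z') : c = c' ∧ z = z' := by
  have h1 : ‖(shr c z : ℂ)‖ = ‖(shr c' z' : ℂ)‖ := by rw [h]
  rw [norm_shr c z hz, norm_shr c' z' hz'] at h1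
  have h2 : c = c' := Subtype.ext (by linarith)
  refine ⟨h2, ?_⟩
  subst h2
  have h3 : ((1 - (c : ℝ) : ℝ) : ℂ) * (z : ℂ) = ((1 - (c : ℝ) : ℝ) : ℂ) * (z' : ℂ) :=
    congrArg Subtype.val h
  have h4 : ((1 - (c : ℝ) : ℝ) : ℂ) ≠ 0 := by
    rw [Complex.ofReal_ne_zero]; linarith
  exact Subtype.ext (mul_left_cancel₀ h4 h3)

/-- Clamping to the unit interval. -/
noncomputable def cl (x : ℝ) : I := projIcc 0 1 zero_le_one x

theorem continuous_cl : Continuous cl := continuous_projIcc (h := zero_le_one)

theorem isOpen_box (a b ε : ℝ) : IsOpen {p : ℂ | |p.re - a| < ε ∧ |p.im - b| < ε} :=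
  (isOpen_lt (by fun_prop) continuous_const).and (isOpen_lt (by fun_prop) continuous_const)

theorem isOpen_box0 (a ε : ℝ) : IsOpen {p : ℂ | |p.re - a| < ε ∧ |p.im| < ε} :=
  (isOpen_lt (by fun_prop) continuous_const).and (isOpen_lt (by fun_prop) continuous_const)

theorem isOpen_box0' (b ε : ℝ) : IsOpen {p : ℂ | |p.re| < ε ∧ |p.im - b| < ε} :=
  (isOpen_lt (by fun_prop) continuous_const).and (isOpen_lt (by fun_prop) continuous_const)

theorem cl_of_mem {x : ℝ} (h0 : 0 ≤ x) (h1 : x ≤ 1) : (cl x : ℝ) = x := by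
  unfold cl
  rw [projIcc_of_mem _ ⟨h0, h1⟩]

theorem cl_coe (x : I) : cl (x : ℝ) = x := by
  unfold cl
  exact projIcc_of_mem _ x.2

theorem cl_inj {x y : ℝ} (hx : x ∈ Icc (0:ℝ) 1) (hy : y ∈ Icc (0:ℝ) 1) (h : cl x = cl y) :
    x = y := by
  rw [← cl_of_mem hx.1 hx.2, ← cl_of_mem hy.1 hy.2, h]

/-- Interiors of the cells. -/
theorem onDisc_cell (hf : ∀ j, Continuous (f j)) (S : Set (Prism R f)) (j : Fin n)
    (hS : ∀ z, cpt R f j z ∈ S) (z : Disk) (hz : ‖(z : ℂ)‖ < 1) :
    OnDisc S (cpt R f j z) := by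
  classical
  let g : ℂ → Disk := fun w => if h : w ∈ closedBall (0:ℂ) 1 then ⟨w, h⟩ else z
  have hg : ∀ w ∈ ball (0:ℂ) 1, (g w : ℂ) = w := by
    intro w hw
    show ((if h : w ∈ closedBall (0:ℂ) 1 then (⟨w, h⟩ : Disk) else z : Disk) : ℂ) = w
    rw [dif_pos (ball_subset_closedBall hw)]
  refine ⟨ball 0 1, fun w => cpt R f j (g w), isOpen_ball, ?_, ?_, ?_, (z : ℂ), ?_, ?_⟩
  · apply (continuous_cpt R hf j).comp_continuousOn
    rw [continuousOn_iff_continuous_domRestrict]
    rw [continuous_induced_rng]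
    refine continuous_subtype_val.congr ?_
    intro w
    exact (hg w.1 w.2).symm
  · intro w hw w' hw' h
    have h1 : ‖(g w : ℂ)‖ < 1 := by rw [hg w hw]; simpa using hw
    have h2 := (cpt_inj R f h h1).2
    rw [← hg w hw, ← hg w' hw', h2]
  · intro w _
    exact hS _
  · simpa using hz
  · show cpt R f j (g z) = cpt R f j z
    congr 1
    apply Subtype.ext
    exact hg z (by simpa using hz)

/-- Interiors of the rectangles. -/
theorem onDisc_rect (S : Set (Prism R f)) (g : Fin n) (t0 y0 ε : ℝ) (hε : 0 < ε)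
    (ht0 : 0 < t0 - ε) (ht1 : t0 + ε < 1) (hy0 : 0 < y0 - ε) (hy1 : y0 + ε < 1)
    (hS : ∀ t y : ℝ, |t - t0| < ε → |y - y0| < ε → ept R f g (cl t, cl y) ∈ S) :
    OnDisc S (ept R f g (cl t0, cl y0)) := by
  refine ⟨{p | |p.re - t0| < ε ∧ |p.im - y0| < ε},
    fun p => ept R f g (cl p.re, cl p.im), ?_, ?_, ?_, ?_, ⟨t0, y0⟩, ?_, rfl⟩
  · exact isOpen_box _ _ _
  · apply Continuous.continuousOn
    exact (continuous_ept R f g).comp
      ((continuous_cl.comp Complex.continuous_re).prodMk (continuous_cl.comp Complex.continuous_im))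
  · rintro p ⟨hp1, hp2⟩ q ⟨hq1, hq2⟩ h
    rw [abs_lt] at hp1 hp2 hq1 hq2
    have h1 : ((cl p.re : I) : ℝ) = p.re := cl_of_mem (by linarith) (by linarith)
    have h2 := ept_inj R f h (by show 0 < ((cl p.re : I) : ℝ); rw [h1]; linarith)
      (by show ((cl p.re : I) : ℝ) < 1; rw [h1]; linarith)
    have h3 := congrArg Prod.fst h2.2
    have h4 := congrArg Prod.snd h2.2
    apply Complex.ext
    · exact cl_inj ⟨by linarith, by linarith⟩ ⟨by linarith, by linarith⟩ h3
    · exact cl_inj ⟨by linarith, by linarith⟩ ⟨by linarith, by linarith⟩ h4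
  · rintro p ⟨hp1, hp2⟩
    exact hS _ _ hp1 hp2
  · constructor
    · show |t0 - t0| < ε
      simpa using hε
    · show |y0 - y0| < ε
      simpa using hε

/-- A half disc of a cell and a half disc of a rectangle. -/
theorem onDisc_strand (hf : ∀ j, Continuous (f j)) (S : Set (Prism R f)) (j : Fin n)
    (i : Fin (R j).length) (hSc : ∀ z, cpt R f j z ∈ S) (t0 ε s : ℝ) (hε : 0 < ε)
    (hs : s ≠ 0) (ht0 : 0 < t0 - ε) (ht1 : t0 + ε < 1) (hε1 : ε < 1)
    (hy : ∀ t r : ℝ, |t - t0| < ε → 0 ≤ r → r < ε →
      (ht R f j i (cl t) : ℝ) + s * r ∈ Icc (0:ℝ) 1)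
    (hS : ∀ t r : ℝ, |t - t0| < ε → 0 ≤ r → r < ε →
      ept R f (gen R j i) (cl t, cl ((ht R f j i (cl t) : ℝ) + s * r)) ∈ S) :
    OnDisc S (ept R f (gen R j i) (cl t0, ht R f j i (cl t0))) := by
  classical
  have hbpc := continuous_bp R j i
  have hφ1 : Continuous fun p : ℂ => cpt R f j (shr (cl p.im) (bp R j i (cl p.re))) := by
    exact (continuous_cpt R hf j).comp (continuous_shr.comp
      ((continuous_cl.comp Complex.continuous_im).prodMk
        (hbpc.comp (continuous_cl.comp Complex.continuous_re))))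
  have hφ2 : Continuous fun p : ℂ =>
      ept R f (gen R j i) (cl p.re, cl ((ht R f j i (cl p.re) : ℝ) - s * p.im)) := by
    apply (continuous_ept R f _).comp
    refine (continuous_cl.comp Complex.continuous_re).prodMk (continuous_cl.comp ?_)
    have h1 : Continuous fun p : ℂ => (ht R f j i (cl p.re) : ℝ) :=
      continuous_subtype_val.comp ((hf j).comp (hbpc.comp
        (continuous_cl.comp Complex.continuous_re)))
    exact h1.sub (continuous_const.mul Complex.continuous_im)
  refine ⟨{p | |p.re - t0| < ε ∧ |p.im| < ε},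
    fun p => if 0 ≤ p.im then cpt R f j (shr (cl p.im) (bp R j i (cl p.re)))
      else ept R f (gen R j i) (cl p.re, cl ((ht R f j i (cl p.re) : ℝ) - s * p.im)),
    ?_, ?_, ?_, ?_, ⟨t0, 0⟩, ?_, ?_⟩
  · exact isOpen_box0 _ _
  · apply Continuous.continuousOn
    apply Continuous.if_le hφ1 hφ2 continuous_const Complex.continuous_im
    intro p hp
    rw [← hp]
    have h0 : cl 0 = 0 := by
      have := cl_coe 0
      simpa using this
    rw [h0, shr_zero, cpt_bp, mul_zero, sub_zero, cl_coe]
  · rintro p ⟨hp1, hp2⟩ q ⟨hq1, hq2⟩ h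
    rw [abs_lt] at hp1 hp2 hq1 hq2
    have hpre : ((cl p.re : I) : ℝ) = p.re := cl_of_mem (by linarith) (by linarith)
    have hqre : ((cl q.re : I) : ℝ) = q.re := cl_of_mem (by linarith) (by linarith)
    simp only at h
    -- interior / boundary distinction
    have key1 : ∀ p q : ℂ, 0 < p.im → p.im < 1 → ¬ 0 ≤ q.im →
        cpt R f j (shr (cl p.im) (bp R j i (cl p.re))) ≠
        ept R f (gen R j i) (cl q.re, cl ((ht R f j i (cl q.re) : ℝ) - s * q.im)) := by
      intro p q h1 h2 _
      apply cpt_ne_ept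
      rw [norm_shr _ _ (norm_bp R j i _), cl_of_mem h1.le h2.le]
      linarith
    have key2 : ∀ p : ℂ, p.im = 0 → cpt R f j (shr (cl p.im) (bp R j i (cl p.re))) =
        ept R f (gen R j i) (cl p.re, ht R f j i (cl p.re)) := by
      intro p hp
      have h0 : cl 0 = 0 := by
        have := cl_coe 0
        simpa using this
      rw [hp, h0, shr_zero, cpt_bp]
    by_cases hp0 : 0 ≤ p.im
    · by_cases hq0 : 0 ≤ q.im
      · rw [if_pos hp0, if_pos hq0] at h
        rcases hp0.eq_or_lt with hp0' | hp0'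
        · rw [key2 p hp0'.symm] at h
          rcases hq0.eq_or_lt with hq0' | hq0'
          · rw [key2 q hq0'.symm] at h
            have h2 := ept_inj R f h (by rw [hpre]; linarith) (by rw [hpre]; linarith)
            have h3 := congrArg Prod.fst h2.2
            apply Complex.ext
            · rw [← hpre, ← hqre]; exact congrArg Subtype.val h3
            · rw [← hp0', ← hq0']
          · exfalso
            refine cpt_ne_ept R f ?_ h.symm
            rw [norm_shr _ _ (norm_bp R j i _), cl_of_mem hq0'.le (by linarith)]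
            linarith
        · have hn : ‖(shr (cl p.im) (bp R j i (cl p.re)) : ℂ)‖ < 1 := by
            rw [norm_shr _ _ (norm_bp R j i _), cl_of_mem hp0'.le (by linarith)]
            linarith
          have h2 := (cpt_inj R f h hn).2
          have h3 := shr_inj (norm_bp R j i _) (norm_bp R j i _)
            (by rw [cl_of_mem hp0'.le (by linarith)]; linarith) h2
          have h4 := (bp_inj R j i i _ _ (by rw [hpre]; linarith) (by rw [hpre]; linarith) h3.2).2
          apply Complex.ext
          · rw [← hpre, ← hqre]; exact congrArg Subtype.val h4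
          · exact cl_inj ⟨hp0, by linarith⟩ ⟨hq0, by linarith⟩ h3.1
      · rw [if_pos hp0, if_neg hq0] at h
        exfalso
        rcases hp0.eq_or_lt with hp0' | hp0'
        · rw [key2 p hp0'.symm] at h
          have h2 := ept_inj R f h (by rw [hpre]; linarith) (by rw [hpre]; linarith)
          have h3 : cl p.re = cl q.re := congrArg Prod.fst h2.2
          have h4 : ht R f j i (cl p.re) = cl ((ht R f j i (cl q.re) : ℝ) - s * q.im) :=
            congrArg Prod.snd h2.2
          have h5 := hy q.re (-q.im) (abs_lt.2 hq1) (by linarith) (by linarith)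
          have h6 : (ht R f j i (cl q.re) : ℝ) + s * (-q.im) =
            (ht R f j i (cl q.re) : ℝ) - s * q.im := by ring
          rw [h6] at h5
          have h7 := congrArg Subtype.val h4
          rw [cl_of_mem h5.1 h5.2, h3] at h7
          have h8 : s * q.im = 0 := by linarith
          rcases mul_eq_zero.1 h8 with h9 | h9
          · exact hs h9
          · exact hq0 h9.ge
        · exact key1 p q hp0' (by linarith) hq0 h
    · by_cases hq0 : 0 ≤ q.im
      · rw [if_neg hp0, if_pos hq0] at h
        exfalso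
        rcases hq0.eq_or_lt with hq0' | hq0'
        · rw [key2 q hq0'.symm] at h
          have h2 := ept_inj R f h (by rw [hpre]; linarith) (by rw [hpre]; linarith)
          have h3 : cl p.re = cl q.re := congrArg Prod.fst h2.2
          have h4 : cl ((ht R f j i (cl p.re) : ℝ) - s * p.im) = ht R f j i (cl q.re) :=
            congrArg Prod.snd h2.2
          have h5 := hy p.re (-p.im) (abs_lt.2 hp1) (by linarith) (by linarith)
          have h6 : (ht R f j i (cl p.re) : ℝ) + s * (-p.im) =
            (ht R f j i (cl p.re) : ℝ) - s * p.im := by ring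
          rw [h6] at h5
          have h7 := congrArg Subtype.val h4
          rw [cl_of_mem h5.1 h5.2, h3] at h7
          have h8 : s * p.im = 0 := by linarith
          rcases mul_eq_zero.1 h8 with h9 | h9
          · exact hs h9
          · exact hp0 h9.ge
        · exact key1 q p hq0' (by linarith) hp0 h.symm
      · rw [if_neg hp0, if_neg hq0] at h
        have h2 := ept_inj R f h (by rw [hpre]; linarith) (by rw [hpre]; linarith)
        have h3 : cl p.re = cl q.re := congrArg Prod.fst h2.2
        have h4 : cl ((ht R f j i (cl p.re) : ℝ) - s * p.im) =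
          cl ((ht R f j i (cl q.re) : ℝ) - s * q.im) := congrArg Prod.snd h2.2
        have h5 := hy p.re (-p.im) (abs_lt.2 hp1) (by linarith) (by linarith)
        have h5' := hy q.re (-q.im) (abs_lt.2 hq1) (by linarith) (by linarith)
        have h6 : (ht R f j i (cl p.re) : ℝ) + s * (-p.im) =
          (ht R f j i (cl p.re) : ℝ) - s * p.im := by ring
        have h6' : (ht R f j i (cl q.re) : ℝ) + s * (-q.im) =
          (ht R f j i (cl q.re) : ℝ) - s * q.im := by ring
        rw [h6] at h5
        rw [h6'] at h5'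
        have h7 := cl_inj h5 h5' h4
        rw [h3] at h7
        have h8 : s * p.im = s * q.im := by linarith
        apply Complex.ext
        · rw [← hpre, ← hqre]; exact congrArg Subtype.val h3
        · exact mul_left_cancel₀ hs h8
  · rintro p ⟨hp1, hp2⟩
    by_cases hp0 : 0 ≤ p.im
    · show (if 0 ≤ p.im then _ else _) ∈ S
      rw [if_pos hp0]; exact hSc _
    · show (if 0 ≤ p.im then _ else _) ∈ S
      rw [if_neg hp0]
      have h1 := hS p.re (-p.im) hp1 (by linarith) (by rw [abs_lt] at hp2; linarith)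
      have h6 : (ht R f j i (cl p.re) : ℝ) + s * (-p.im) =
        (ht R f j i (cl p.re) : ℝ) - s * p.im := by ring
      rwa [h6] at h1
  · constructor
    · show |t0 - t0| < ε
      simpa using hε
    · show |(0:ℝ)| < ε
      simpa using hε
  · show (if (0:ℝ) ≤ 0 then _ else _) = _
    rw [if_pos le_rfl]
    have h0 : cl 0 = 0 := by
      have := cl_coe 0
      simpa using this
    show cpt R f j (shr (cl 0) (bp R j i (cl t0))) = _
    rw [h0, shr_zero, cpt_bp]

/-- Half discs of two cells, glued along coinciding strands. -/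
theorem onDisc_double (hf : ∀ j, Continuous (f j)) (S : Set (Prism R f)) (j j' : Fin n)
    (i : Fin (R j).length) (i' : Fin (R j').length) (hSc : ∀ j z, cpt R f j z ∈ S)
    (hne : ¬ ∃ h : j = j', h ▸ i = i') (hgen : gen R j i = gen R j' i')
    (t0 ε : ℝ) (hε : 0 < ε) (ht0 : 0 < t0 - ε) (ht1 : t0 + ε < 1) (hε1 : ε < 1)
    (hy : ∀ t : ℝ, |t - t0| < ε → ht R f j i (cl t) = ht R f j' i' (cl t)) :
    OnDisc S (ept R f (gen R j i) (cl t0, ht R f j i (cl t0))) := by
  classical
  have hcc : ∀ (j : Fin n) (i : Fin (R j).length),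
      Continuous fun p : ℝ × ℝ => cpt R f j (shr (cl p.2) (bp R j i (cl p.1))) := by
    intro j i
    exact (continuous_cpt R hf j).comp (continuous_shr.comp
      ((continuous_cl.comp continuous_snd).prodMk
        ((continuous_bp R j i).comp (continuous_cl.comp continuous_fst))))
  have h00 : cl 0 = 0 := by
    have := cl_coe 0
    simpa using this
  have hzero : ∀ (j : Fin n) (i : Fin (R j).length) (t : ℝ),
      cpt R f j (shr (cl 0) (bp R j i (cl t))) = ept R f (gen R j i) (cl t, ht R f j i (cl t)) := by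
    intro j i t
    rw [h00, shr_zero, cpt_bp]
  have hlt : ∀ (j : Fin n) (i : Fin (R j).length) (t r : ℝ), 0 < r → r < 1 →
      ‖(shr (cl r) (bp R j i (cl t)) : ℂ)‖ < 1 := by
    intro j i t r h0 h1
    rw [norm_shr _ _ (norm_bp R j i _), cl_of_mem h0.le h1.le]
    linarith
  refine ⟨{p | |p.re - t0| < ε ∧ |p.im| < ε},
    fun p => if 0 ≤ p.im then cpt R f j (shr (cl p.im) (bp R j i (cl p.re)))
      else cpt R f j' (shr (cl (-p.im)) (bp R j' i' (cl p.re))),
    ?_, ?_, ?_, ?_, ⟨t0, 0⟩, ?_, ?_⟩
  · exact isOpen_box0 _ _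
  · rw [continuousOn_iff_continuous_domRestrict]
    apply Continuous.if_le (f' := fun p : {p : ℂ | |p.re - t0| < ε ∧ |p.im| < ε} =>
        cpt R f j (shr (cl p.1.im) (bp R j i (cl p.1.re))))
      (g' := fun p : {p : ℂ | |p.re - t0| < ε ∧ |p.im| < ε} =>
        cpt R f j' (shr (cl (-p.1.im)) (bp R j' i' (cl p.1.re))))
      (f := fun _ => (0:ℝ)) (g := fun p => p.1.im)
    · exact (hcc j i).comp (f := fun p : {p : ℂ | |p.re - t0| < ε ∧ |p.im| < ε} =>
        ((p.1.re, p.1.im) : ℝ × ℝ)) (by fun_prop)
    · exact (hcc j' i').comp (f := fun p : {p : ℂ | |p.re - t0| < ε ∧ |p.im| < ε} =>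
        ((p.1.re, -p.1.im) : ℝ × ℝ)) (by fun_prop)
    · exact continuous_const
    · fun_prop
    · intro p hp
      have hp' : (0:ℝ) = p.1.im := hp
      show cpt R f j (shr (cl p.1.im) (bp R j i (cl p.1.re))) =
        cpt R f j' (shr (cl (-p.1.im)) (bp R j' i' (cl p.1.re)))
      rw [← hp', neg_zero, hzero, hzero, hy _ p.2.1, hgen]
  · rintro p ⟨hp1, hp2⟩ q ⟨hq1, hq2⟩ h
    rw [abs_lt] at hp1 hp2 hq1 hq2
    have hpre : ((cl p.re : I) : ℝ) = p.re := cl_of_mem (by linarith) (by linarith)
    have hqre : ((cl q.re : I) : ℝ) = q.re := cl_of_mem (by linarith) (by linarith)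
    -- same cell
    have same : ∀ (j : Fin n) (i : Fin (R j).length) (a b : ℝ) (p q : ℂ),
        p.re ∈ Ioo (0:ℝ) 1 → q.re ∈ Ioo (0:ℝ) 1 → 0 ≤ a → a < 1 → 0 ≤ b → b < 1 →
        cpt R f j (shr (cl a) (bp R j i (cl p.re))) = cpt R f j (shr (cl b) (bp R j i (cl q.re))) →
        p.re = q.re ∧ a = b := by
      intro j i a b p q hp hq ha ha' hb hb' h
      have hpre : ((cl p.re : I) : ℝ) = p.re := cl_of_mem hp.1.le hp.2.le
      have hqre : ((cl q.re : I) : ℝ) = q.re := cl_of_mem hq.1.le hq.2.le
      rcases ha.eq_or_lt with ha0 | ha0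
      · rw [← ha0, hzero] at h
        rcases hb.eq_or_lt with hb0 | hb0
        · rw [← hb0, hzero] at h
          have h2 := ept_inj R f h (by rw [hpre]; exact hp.1) (by rw [hpre]; exact hp.2)
          have h3 := congrArg Prod.fst h2.2
          refine ⟨?_, by rw [← ha0, ← hb0]⟩
          rw [← hpre, ← hqre]; exact congrArg Subtype.val h3
        · exact absurd h.symm (cpt_ne_ept R f (hlt j i _ b hb0 hb'))
      · have h2 := (cpt_inj R f h (hlt j i _ a ha0 ha')).2
        have h3 := shr_inj (norm_bp R j i _) (norm_bp R j i _)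
          (by rw [cl_of_mem ha ha'.le]; exact ha') h2
        have h4 := (bp_inj R j i i _ _ (by rw [hpre]; exact hp.1) (by rw [hpre]; exact hp.2)
          h3.2).2
        refine ⟨?_, cl_inj ⟨ha, ha'.le⟩ ⟨hb, hb'.le⟩ h3.1⟩
        rw [← hpre, ← hqre]; exact congrArg Subtype.val h4
    -- different cells
    have diff : ∀ (p q : ℂ), p.re ∈ Ioo (0:ℝ) 1 → q.re ∈ Ioo (0:ℝ) 1 → 0 ≤ p.im → p.im < 1 →
        q.im < 0 → -1 < q.im →
        cpt R f j (shr (cl p.im) (bp R j i (cl p.re))) ≠
        cpt R f j' (shr (cl (-q.im)) (bp R j' i' (cl q.re))) := by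
      intro p q hp hq ha ha' hb hb' h
      have hpre : ((cl p.re : I) : ℝ) = p.re := cl_of_mem hp.1.le hp.2.le
      rcases ha.eq_or_lt with ha0 | ha0
      · rw [← ha0, hzero] at h
        exact absurd h.symm (cpt_ne_ept R f (hlt j' i' _ (-q.im) (by linarith) (by linarith)))
      · have h2 := cpt_inj R f h (hlt j i _ p.im ha0 ha')
        obtain ⟨rfl, h2⟩ := h2
        have h3 := shr_inj (norm_bp R j i _) (norm_bp R j i' _)
          (by rw [cl_of_mem ha ha'.le]; exact ha') h2
        have h4 := (bp_inj R j i i' _ _ (by rw [hpre]; exact hp.1) (by rw [hpre]; exact hp.2)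
          h3.2).1
        exact hne ⟨rfl, h4⟩
    simp only at h
    have hpI : p.re ∈ Ioo (0:ℝ) 1 := ⟨by linarith, by linarith⟩
    have hqI : q.re ∈ Ioo (0:ℝ) 1 := ⟨by linarith, by linarith⟩
    by_cases hp0 : 0 ≤ p.im
    · by_cases hq0 : 0 ≤ q.im
      · rw [if_pos hp0, if_pos hq0] at h
        have := same j i p.im q.im p q hpI hqI hp0 (by linarith) hq0 (by linarith) h
        exact Complex.ext this.1 this.2
      · rw [if_pos hp0, if_neg hq0] at h
        exact absurd h (diff p q hpI hqI hp0 (by linarith) (by linarith) (by linarith))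
    · by_cases hq0 : 0 ≤ q.im
      · rw [if_neg hp0, if_pos hq0] at h
        exact absurd h.symm (diff q p hqI hpI hq0 (by linarith) (by linarith) (by linarith))
      · rw [if_neg hp0, if_neg hq0] at h
        have := same j' i' (-p.im) (-q.im) p q hpI hqI (by linarith) (by linarith) (by linarith)
          (by linarith) h
        exact Complex.ext this.1 (by linarith [this.2])
  · rintro p ⟨hp1, hp2⟩
    show (if 0 ≤ p.im then _ else _) ∈ S
    split_ifs
    · exact hSc _ _
    · exact hSc _ _
  · constructor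
    · show |t0 - t0| < ε
      simpa using hε
    · show |(0:ℝ)| < ε
      simpa using hε
  · show (if (0:ℝ) ≤ 0 then _ else _) = _
    rw [if_pos le_rfl]
    show cpt R f j (shr (cl 0) (bp R j i (cl t0))) = _
    rw [hzero]

/-- Coordinate along a generator at distance `r` from the end `b` (`b = true`: the start). -/
noncomputable def endCoord (b : Bool) (r : ℝ) : I := tau b (cl r)

/-- Two half discs of rectangles at two different ends, near the vertex. -/
theorem onDisc_ends (S : Set (Prism R f)) (g g' : Fin n) (b b' : Bool)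
    (hne : ¬ (g = g' ∧ b = b')) (y0 ε : ℝ) (hε : 0 < ε) (hε1 : ε < 1 / 2)
    (hy0 : 0 < y0 - ε) (hy1 : y0 + ε < 1)
    (hS : ∀ r y : ℝ, 0 ≤ r → r < ε → |y - y0| < ε → ept R f g (endCoord b r, cl y) ∈ S)
    (hS' : ∀ r y : ℝ, 0 ≤ r → r < ε → |y - y0| < ε → ept R f g' (endCoord b' r, cl y) ∈ S) :
    OnDisc S (ept R f g (endCoord b 0, cl y0)) := by
  classical
  have hcont : ∀ (g : Fin n) (b : Bool),
      Continuous fun p : ℝ × ℝ => ept R f g (endCoord b p.1, cl p.2) := by
    intro g b
    apply (continuous_ept R f g).comp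
    exact ((continuous_tau b).comp (continuous_cl.comp continuous_fst)).prodMk
      (continuous_cl.comp continuous_snd)
  have h00 : cl 0 = 0 := by
    have := cl_coe 0
    simpa using this
  have hend : ∀ b, endCoord b 0 = 0 ∨ endCoord b 0 = 1 := by
    intro b
    unfold endCoord tau
    rw [h00]
    cases b
    · right; simp
    · left; simp
  have hval : ∀ b (r : ℝ), 0 ≤ r → r ≤ 1 → (endCoord b r : ℝ) = if b then r else 1 - r := by
    intro b r h0 h1
    unfold endCoord tau
    cases b
    · simp [cl_of_mem h0 h1]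
    · simp [cl_of_mem h0 h1]
  have hinner : ∀ b (r : ℝ), 0 < r → r < 1 → 0 < (endCoord b r : ℝ) ∧ (endCoord b r : ℝ) < 1 := by
    intro b r h0 h1
    rw [hval b r h0.le h1.le]
    cases b
    · simp; constructor <;> linarith
    · simp; exact ⟨h0, h1⟩
  refine ⟨{p | |p.re| < ε ∧ |p.im - y0| < ε},
    fun p => if 0 ≤ p.re then ept R f g (endCoord b p.re, cl p.im)
      else ept R f g' (endCoord b' (-p.re), cl p.im),
    ?_, ?_, ?_, ?_, ⟨0, y0⟩, ?_, ?_⟩
  · exact isOpen_box0' _ _
  · apply Continuous.continuousOn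
    apply Continuous.if_le (f' := fun p : ℂ => ept R f g (endCoord b p.re, cl p.im))
      (g' := fun p : ℂ => ept R f g' (endCoord b' (-p.re), cl p.im))
      (f := fun _ => (0:ℝ)) (g := fun p => p.re)
    · exact (hcont g b).comp (f := fun p : ℂ => ((p.re, p.im) : ℝ × ℝ)) (by fun_prop)
    · exact (hcont g' b').comp (f := fun p : ℂ => ((-p.re, p.im) : ℝ × ℝ)) (by fun_prop)
    · exact continuous_const
    · fun_prop
    · intro p hp
      have hp' : (0:ℝ) = p.re := hp
      show ept R f g (endCoord b p.re, cl p.im) = ept R f g' (endCoord b' (-p.re), cl p.im)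
      rw [← hp', neg_zero]
      exact ept_end R f (hend b) (hend b')
  · rintro p ⟨hp1, hp2⟩ q ⟨hq1, hq2⟩ h
    rw [abs_lt] at hp1 hp2 hq1 hq2
    have same : ∀ (g : Fin n) (b : Bool) (x x' y y' : ℝ), 0 ≤ x → x < 1 → 0 ≤ x' → x' < 1 →
        y ∈ Icc (0:ℝ) 1 → y' ∈ Icc (0:ℝ) 1 →
        ept R f g (endCoord b x, cl y) = ept R f g (endCoord b x', cl y') → x = x' ∧ y = y' := by
      intro g b x x' y y' hx hx1 hx' hx1' hy hy' h
      have hyy : y = y' := cl_inj hy hy' (ept_height R f h)
      refine ⟨?_, hyy⟩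
      rcases hx.eq_or_lt with hx0 | hx0
      · rcases hx'.eq_or_lt with hx0' | hx0'
        · rw [← hx0, ← hx0']
        · exfalso
          rw [← hx0] at h
          have h1 := ept_end_iff R f h (hend b)
          have h2 := hinner b x' hx0' hx1'
          rcases h1 with h1 | h1
          · change endCoord b x' = 0 at h1
            rw [h1] at h2; simp at h2
          · change endCoord b x' = 1 at h1
            rw [h1] at h2; simp at h2
      · have h2 := hinner b x hx0 hx1
        have h3 := (ept_inj R f h h2.1 h2.2).2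
        have h4 : (endCoord b x : ℝ) = endCoord b x' := congrArg Subtype.val (congrArg Prod.fst h3)
        rw [hval b x hx hx1.le, hval b x' hx' hx1'.le] at h4
        cases b
        · simp at h4; exact h4
        · simpa using h4
    have diff : ∀ (x x' y y' : ℝ), 0 ≤ x → x < 1/2 → 0 < x' → x' < 1/2 →
        ept R f g (endCoord b x, cl y) ≠ ept R f g' (endCoord b' x', cl y') := by
      intro x x' y y' hx hx1 hx' hx1' h
      have h2 := hinner b' x' hx' (by linarith)
      have h3 := ept_inj R f h.symm h2.1 h2.2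
      have h4 : (endCoord b' x' : ℝ) = endCoord b x :=
        congrArg Subtype.val (congrArg Prod.fst h3.2)
      rw [hval b x hx (by linarith), hval b' x' hx'.le (by linarith)] at h4
      apply hne
      refine ⟨h3.1.symm, ?_⟩
      cases b <;> cases b' <;> simp at h4 ⊢ <;> linarith
    simp only at h
    have hpy : p.im ∈ Icc (0:ℝ) 1 := ⟨by linarith, by linarith⟩
    have hqy : q.im ∈ Icc (0:ℝ) 1 := ⟨by linarith, by linarith⟩
    by_cases hp0 : 0 ≤ p.re
    · by_cases hq0 : 0 ≤ q.re
      · rw [if_pos hp0, if_pos hq0] at h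
        have := same g b _ _ _ _ hp0 (by linarith) hq0 (by linarith) hpy hqy h
        exact Complex.ext this.1 this.2
      · rw [if_pos hp0, if_neg hq0] at h
        exact absurd h (diff _ _ _ _ hp0 (by linarith) (by linarith) (by linarith))
    · by_cases hq0 : 0 ≤ q.re
      · rw [if_neg hp0, if_pos hq0] at h
        exact absurd h.symm (diff _ _ _ _ hq0 (by linarith) (by linarith) (by linarith))
      · rw [if_neg hp0, if_neg hq0] at h
        have := same g' b' _ _ _ _ (by linarith) (by linarith) (by linarith) (by linarith)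
          hpy hqy h
        exact Complex.ext (by linarith [this.1]) this.2
  · rintro p ⟨hp1, hp2⟩
    rw [abs_lt] at hp1
    show (if 0 ≤ p.re then _ else _) ∈ S
    split_ifs with h
    · exact hS _ _ h (by linarith) hp2
    · exact hS' _ _ (by linarith) (by linarith) hp2
  · constructor
    · show |(0:ℝ)| < ε
      simpa using hε
    · show |y0 - y0| < ε
      simpa using hε
  · show (if (0:ℝ) ≤ 0 then _ else _) = _
    rw [if_pos le_rfl]

end Pool.Agent.W623.Pris
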