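import Mathlib
import Pool.Agent.W623.Pris.Discs

/-!
# The obstruction to collapsing a prismatic polyhedron
-/

set_option autoImplicit false

open Set Filter Topology Metric Relation unitInterval

namespace Pool.Agent.W623.Pris

variable {n : ℕ} (R : Fin n → Word n) (f : Fin n → Disk → I)

/-- A continuous map from a compact space to a Hausdorff space can be inverted continuously over
the points with a unique preimage. -/
theorem continuousOn_inverse {C X Z : Type*} [TopologicalSpace C] [CompactSpace C]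
    [TopologicalSpace X] [T2Space X] [TopologicalSpace Z] (q : C → X) (hq : Continuous q)
    (O : Set Z) (ψ : Z → X) (hψ : ContinuousOn ψ O) (r : Z → C)
    (hr : ∀ z ∈ O, q (r z) = ψ z) (huniq : ∀ z ∈ O, ∀ c, q c = ψ z → c = r z) :
    ContinuousOn r O := by
  rw [continuousOn_iff_continuous_domRestrict]
  rw [continuous_iff_isClosed]
  intro F hF
  have h1 : IsClosed (q '' F) := (hF.isCompact.image hq).isClosed
  have h2 : (O.domRestrict r) ⁻¹' F = (O.domRestrict ψ) ⁻¹' (q '' F) := by
    ext z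
    constructor
    · intro hz
      exact ⟨r z, hz, hr z z.2⟩
    · rintro ⟨c, hc, hcz⟩
      have := huniq z z.2 c hcz
      show r z ∈ F
      rw [← this]; exact hc
  rw [h2]
  exact h1.preimage (continuousOn_iff_continuous_domRestrict.1 hψ)

/-- If a nonempty open set is covered by finitely many relatively closed sets, then one of them
contains a nonempty open set. -/
theorem exists_open_of_cover {Z : Type*} [TopologicalSpace Z] {ι : Type*} (s : Finset ι)
    (A : ι → Set Z) (O : Set Z) (hO : IsOpen O) (hne : O.Nonempty)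
    (hA : ∀ i, IsOpen (O \ A i)) (hcov : ∀ z ∈ O, ∃ i ∈ s, z ∈ A i) :
    ∃ i ∈ s, ∃ O' ⊆ O, IsOpen O' ∧ O'.Nonempty ∧ O' ⊆ A i := by
  classical
  induction s using Finset.induction_on generalizing O with
  | empty =>
    obtain ⟨z, hz⟩ := hne
    obtain ⟨i, hi, -⟩ := hcov z hz
    exact absurd hi (Finset.notMem_empty i)
  | insert a s ha ih =>
    by_cases h : (O \ A a).Nonempty
    · obtain ⟨i, hi, O', hO', h1, h2, h3⟩ := ih (O \ A a) (hA a) h (by
        intro i
        have : (O \ A a) \ A i = (O \ A a) ∩ (O \ A i) := by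
          ext z
          simp only [Set.mem_sdiff, mem_inter_iff]
          tauto
        rw [this]
        exact (hA a).inter (hA i)) (by
        intro z hz
        obtain ⟨i, hi, hzi⟩ := hcov z hz.1
        rcases Finset.mem_insert.1 hi with rfl | hi
        · exact absurd hzi hz.2
        · exact ⟨i, hi, hzi⟩)
      exact ⟨i, Finset.mem_insert_of_mem hi, O', hO'.trans sdiff_subset, h1, h2, h3⟩
    · rw [Set.not_nonempty_iff_eq_empty, Set.sdiff_eq_empty] at h
      exact ⟨a, Finset.mem_insert_self _ _, O, subset_rfl, hO, hne, h⟩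

/-- Every boundary point of a cell lies on the arc of some letter. -/
theorem exists_letter {l : ℕ} (hl : 0 < l) (w : Disk) (hw : ‖(w : ℂ)‖ = 1) :
    ∃ (i : Fin l) (t : I), w = circlePt (((i : ℕ) + (t : ℝ)) / l) := by
  have hl' : (0:ℝ) < l := by exact_mod_cast hl
  -- the parameter
  obtain ⟨θ, hθ⟩ : ∃ θ : ℝ, w = circlePt θ := by
    refine ⟨Complex.arg (w : ℂ) / (2 * Real.pi), ?_⟩
    apply Subtype.ext
    show (w : ℂ) = Complex.exp ((2 * Real.pi * (Complex.arg (w : ℂ) / (2 * Real.pi)) : ℝ) *
      Complex.I)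
    have h1 : 2 * Real.pi * (Complex.arg (w : ℂ) / (2 * Real.pi)) = Complex.arg (w : ℂ) := by
      have := Real.pi_pos
      field_simp
    rw [h1]
    have h2 := Complex.norm_mul_exp_arg_mul_I (w : ℂ)
    rw [hw] at h2
    simpa using h2.symm
  have h3 : w = circlePt (Int.fract θ) := by
    rw [hθ, circlePt_eq_iff]
    exact ⟨⌊θ⌋, by rw [Int.fract]; ring⟩
  set x : ℝ := Int.fract θ * l with hx
  have hx0 : 0 ≤ x := mul_nonneg (Int.fract_nonneg θ) hl'.le
  have hxl : x < l := by
    have := Int.fract_lt_one θ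
    rw [hx]; nlinarith
  have hfl : ⌊x⌋₊ < l := (Nat.floor_lt hx0).2 hxl
  refine ⟨⟨⌊x⌋₊, hfl⟩, ⟨x - ⌊x⌋₊, ?_, ?_⟩, ?_⟩
  · have := Nat.floor_le hx0
    linarith
  · have := Nat.lt_floor_add_one x
    linarith
  · rw [h3]
    congr 1
    show Int.fract θ = ((⌊x⌋₊ : ℝ) + (x - ⌊x⌋₊)) / l
    rw [add_sub_cancel, hx]
    field_simp

/-- Boundary points of cells lie on strands. -/
theorem cpt_of_norm_one (hR : ∀ j, R j ≠ []) (j : Fin n) (w : Disk) (hw : ‖(w : ℂ)‖ = 1) :
    ∃ (i : Fin (R j).length) (u : I), w = bp R j i u := by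
  obtain ⟨i, t, h⟩ := exists_letter (List.length_pos_iff.2 (hR j)) w hw
  refine ⟨i, tau ((R j).get i).2 t, ?_⟩
  unfold bp
  rw [tau_tau]
  exact h

/-- No open piece of `ℝ³` embeds in the prismatic polyhedron. -/
theorem no_three (hR : ∀ j, R j ≠ []) (hf : ∀ j, Continuous (f j)) [T2Space (Prism R f)] :
    ¬ ∃ (O : Set (Fin 3 → ℝ)) (ψ : (Fin 3 → ℝ) → Prism R f),
      IsOpen O ∧ O.Nonempty ∧ ContinuousOn ψ O ∧ InjOn ψ O := by
  classical
  rintro ⟨O, ψ, hO, hne, hψ, hinj⟩
  have hfin3 : Module.finrank ℝ (Fin 3 → ℝ) = 3 := by simp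
  -- closed pieces
  have hCclosed : ∀ j, IsClosed (range (cpt R f j)) := fun j =>
    (isCompact_range (continuous_cpt R hf j)).isClosed
  have hEclosed : ∀ g, IsClosed (range (ept R f g)) := fun g =>
    (isCompact_range (continuous_ept R f g)).isClosed
  have hEall : IsClosed (⋃ g, range (ept R f g)) := isClosed_iUnion_of_finite hEclosed
  have hpre : ∀ (O : Set (Fin 3 → ℝ)), IsOpen O → ContinuousOn ψ O → ∀ F : Set (Prism R f),
      IsClosed F → IsOpen (O \ (ψ ⁻¹' F)) := by
    intro O hO hψ F hF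
    have : O \ (ψ ⁻¹' F) = O ∩ ψ ⁻¹' Fᶜ := rfl
    rw [this]
    exact hψ.isOpen_inter_preimage hO hF.isOpen_compl
  -- case of an open set inside the 1-skeleton times `I`
  have caseE : ∀ O' ⊆ O, IsOpen O' → O'.Nonempty → (∀ z ∈ O', ψ z ∈ ⋃ g, range (ept R f g)) →
      False := by
    intro O' hO'O hO' hne' hmem
    obtain ⟨g, -, O2, hO2, hO2o, hO2n, hO2m⟩ := exists_open_of_cover (Finset.univ : Finset (Fin n))
      (fun g => ψ ⁻¹' range (ept R f g)) O' hO' hne'
      (fun g => hpre O' hO' (hψ.mono hO'O) _ (hEclosed g)) (by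
        intro z hz
        obtain ⟨g, hg⟩ := mem_iUnion.1 (hmem z hz)
        exact ⟨g, Finset.mem_univ _, hg⟩)
    have hO2O : O2 ⊆ O := hO2.trans hO'O
    -- the vertical line over the vertex
    let V : Set (Prism R f) := ept R f g '' {p | p.1 = 0 ∨ p.1 = 1}
    have hVclosed : IsClosed V := by
      apply IsCompact.isClosed
      apply IsCompact.image _ (continuous_ept R f g)
      apply IsClosed.isCompact
      have : {p : I × I | p.1 = 0 ∨ p.1 = 1} = Prod.fst ⁻¹' {(0 : I), 1} := by
        ext p; simp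
      rw [this]
      exact (Set.toFinite _).isClosed.preimage continuous_fst
    by_cases hcase : (O2 \ (ψ ⁻¹' V)).Nonempty
    · have hO3 := hpre O2 hO2o (hψ.mono hO2O) V hVclosed
      -- inverse
      have hex : ∀ z ∈ O2 \ (ψ ⁻¹' V), ∃ p : I × I, ept R f g p = ψ z := fun z hz => hO2m hz.1
      let r : (Fin 3 → ℝ) → I × I := fun z =>
        if h : z ∈ O2 \ (ψ ⁻¹' V) then (hex z h).choose else (0, 0)
      have hr : ∀ z ∈ O2 \ (ψ ⁻¹' V), ept R f g (r z) = ψ z := by
        intro z hz
        show ept R f g (dite _ _ _) = _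
        rw [dif_pos hz]
        exact (hex z hz).choose_spec
      have hrin : ∀ z ∈ O2 \ (ψ ⁻¹' V), ∀ c, ept R f g c = ψ z → 0 < (c.1 : ℝ) ∧ (c.1 : ℝ) < 1 := by
        intro z hz c hc
        have h1 : ¬ (c.1 = 0 ∨ c.1 = 1) := fun h => hz.2 ⟨c, h, hc⟩
        push Not at h1
        constructor
        · rcases lt_or_eq_of_le c.1.2.1 with h | h
          · exact h
          · exact absurd (Subtype.ext h.symm) h1.1
        · rcases lt_or_eq_of_le c.1.2.2 with h | h
          · exact h
          · exact absurd (Subtype.ext h) h1.2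
      have huniq : ∀ z ∈ O2 \ (ψ ⁻¹' V), ∀ c, ept R f g c = ψ z → c = r z := by
        intro z hz c hc
        have h1 := hrin z hz c hc
        exact (ept_inj R f (hc.trans (hr z hz).symm) h1.1 h1.2).2
      have hrc := continuousOn_inverse (ept R f g) (continuous_ept R f g) _ ψ
        (hψ.mono (sdiff_subset.trans hO2O)) r hr huniq
      obtain ⟨z0, hz0⟩ := hcase
      have := Pool.Agent.W964.LieExp.finrank_le_of_injOn (V := Fin 3 → ℝ) (W := ℝ × ℝ) _ hO3 z0 hz0
        (fun z => ((r z).1.1, (r z).2.1)) (by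
          have h2 : Continuous fun p : I × I => ((p.1 : ℝ), (p.2 : ℝ)) := by fun_prop
          exact h2.comp_continuousOn hrc)
        (by
          intro z hz z' hz' h
          apply hinj (hO2O hz.1) (hO2O hz'.1)
          rw [← hr z hz, ← hr z' hz']
          congr 1
          exact Prod.ext (Subtype.ext (congrArg Prod.fst h)) (Subtype.ext (congrArg Prod.snd h)))
      rw [hfin3, Module.finrank_prod, Module.finrank_self] at this
      omega
    · rw [Set.not_nonempty_iff_eq_empty, Set.sdiff_eq_empty] at hcase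
      obtain ⟨z0, hz0⟩ := hO2n
      have := Pool.Agent.W964.LieExp.finrank_le_of_injOn (V := Fin 3 → ℝ) (W := ℝ) _ hO2o z0 hz0
        (fun z => ((ψ z).1.2 : ℝ)) (by
          have h2 : Continuous fun x : Prism R f => (x.1.2 : ℝ) := by fun_prop
          exact h2.comp_continuousOn (hψ.mono hO2O))
        (by
          intro z hz z' hz' h
          apply hinj (hO2O hz) (hO2O hz')
          obtain ⟨c, hc, hcz⟩ := hcase hz
          obtain ⟨c', hc', hcz'⟩ := hcase hz'
          change ((ψ z).1.2 : ℝ) = ((ψ z').1.2 : ℝ) at h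
          rw [← hcz, ← hcz'] at h
          rw [← hcz, ← hcz']
          have h3 : c.2 = c'.2 := Subtype.ext h
          obtain ⟨c1, c2⟩ := c
          obtain ⟨c1', c2'⟩ := c'
          simp only at h3
          subst h3
          exact ept_end R f hc hc')
      rw [hfin3, Module.finrank_self] at this
      omega
  -- main case distinction
  by_cases hcase : (O \ (ψ ⁻¹' (⋃ g, range (ept R f g)))).Nonempty
  · have hO1 := hpre O hO hψ _ hEall
    set O1 := O \ (ψ ⁻¹' (⋃ g, range (ept R f g))) with hO1def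
    obtain ⟨j, -, O2, hO2, hO2o, hO2n, hO2m⟩ := exists_open_of_cover
      (Finset.univ : Finset (Fin n))
      (fun j => ψ ⁻¹' range (cpt R f j)) O1 hO1 hcase
      (fun j => hpre O1 hO1 (hψ.mono sdiff_subset) _ (hCclosed j)) (by
        intro z hz
        rcases cases_pt R f (ψ z) with ⟨g, p, h⟩ | ⟨j, w, h⟩
        · exfalso
          exact hz.2 (mem_iUnion.2 ⟨g, p, h.symm⟩)
        · exact ⟨j, Finset.mem_univ _, w, h.symm⟩)
    have hO2O : O2 ⊆ O := hO2.trans sdiff_subset
    have hex : ∀ z ∈ O2, ∃ w : Disk, cpt R f j w = ψ z := fun z hz => hO2m hz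
    obtain ⟨z0, hz0⟩ := hO2n
    let r : (Fin 3 → ℝ) → Disk := fun z =>
      if h : z ∈ O2 then (hex z h).choose else (hex z0 hz0).choose
    have hr : ∀ z ∈ O2, cpt R f j (r z) = ψ z := by
      intro z hz
      show cpt R f j (dite _ _ _) = _
      rw [dif_pos hz]
      exact (hex z hz).choose_spec
    have hin : ∀ z ∈ O2, ∀ w : Disk, cpt R f j w = ψ z → ‖(w : ℂ)‖ < 1 := by
      intro z hz w hw
      by_contra hcon
      have h1 : ‖(w : ℂ)‖ = 1 := by
        have h2 : ‖(w : ℂ)‖ ≤ 1 := by
          have := w.2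
          rwa [mem_closedBall, dist_zero_right] at this
        linarith [not_lt.1 hcon]
      obtain ⟨i, u, rfl⟩ := cpt_of_norm_one R hR j w h1
      rw [cpt_bp] at hw
      exact (hO2 hz).2 (mem_iUnion.2 ⟨_, _, hw⟩)
    have huniq : ∀ z ∈ O2, ∀ w, cpt R f j w = ψ z → w = r z := by
      intro z hz w hw
      exact (cpt_inj R f (hw.trans (hr z hz).symm) (hin z hz w hw)).2
    have hrc := continuousOn_inverse (cpt R f j) (continuous_cpt R hf j) _ ψ
      (hψ.mono hO2O) r hr huniq
    have := Pool.Agent.W964.LieExp.finrank_le_of_injOn (V := Fin 3 → ℝ) (W := ℂ) _ hO2o z0 hz0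
      (fun z => (r z : ℂ)) (continuous_subtype_val.comp_continuousOn hrc)
      (by
        intro z hz z' hz' h
        apply hinj (hO2O hz) (hO2O hz')
        rw [← hr z hz, ← hr z' hz']
        congr 1
        exact Subtype.ext h)
    rw [hfin3, Complex.finrank_real_complex] at this
    omega
  · rw [Set.not_nonempty_iff_eq_empty, Set.sdiff_eq_empty] at hcase
    exact caseE O subset_rfl hO hne fun z hz => hcase hz

/-- Transport of embedded discs. -/
theorem OnDisc.map {X Y : Type*} [TopologicalSpace X] [TopologicalSpace Y] {S : Set X} {x : X}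
    (h : OnDisc S x) (g : X → Y) (hg : Continuous g) (hinj : Function.Injective g) :
    OnDisc (g '' S) (g x) := by
  obtain ⟨O, φ, hO, hφ, hφi, hφm, p, hp, hpx⟩ := h
  refine ⟨O, g ∘ φ, hO, hg.comp_continuousOn hφ, hinj.comp_injOn hφi, ?_, p, hp, by
    rw [Function.comp_apply, hpx]⟩
  intro q hq
  exact ⟨φ q, hφm hq, rfl⟩

/-- The obstruction: if the prismatic polyhedron contains a nonempty compact set without isolated
points such that all but finitely many of its points lie on embedded open discs contained in the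
set, then it does not collapse to a point. -/
theorem not_collapses (hR : ∀ j, R j ≠ []) (hf : ∀ j, Continuous (f j)) (S E : Set (Prism R f))
    (hS : IsCompact S) (hne : S.Nonempty) (hE : E.Finite) (hdisc : ∀ x ∈ S \ E, OnDisc S x)
    (hperf : ∀ U : Set (Prism R f), IsOpen U → (U ∩ S).Nonempty → (U ∩ S).Infinite) :
    ¬ CollapsesToPoint (Prism R f) := by
  rintro ⟨m, T, v, hT, hcol, ⟨h⟩⟩
  have : T2Space (Prism R f) := h.isEmbedding.t2Space
  let g : Prism R f → (Fin m → ℝ) := fun x => (h x : Fin m → ℝ)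
  have hg : Continuous g := continuous_subtype_val.comp h.continuous
  have hginj : Function.Injective g := Subtype.val_injective.comp h.injective
  have hdim := card_le_three hT (by
    rintro ⟨O, ψ, hO, hOne, hψ, hψi⟩
    exact no_three R f hR hf ⟨O, fun z => h.symm (ψ z), hO, hOne,
      h.symm.continuous.comp_continuousOn hψ, h.symm.injective.comp_injOn hψi⟩)
  have := no_free hT hdim v hcol (g '' S) (g '' E) (by
      rintro _ ⟨x, -, rfl⟩
      exact (h x).2) (hS.image hg).isClosed (hE.image g) (by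
      rintro _ ⟨⟨x, hx, rfl⟩, hxE⟩
      exact (hdisc x ⟨hx, fun h' => hxE ⟨x, h', rfl⟩⟩).map g hg hginj) (by
      rintro U hU ⟨_, hxU, x, hx, rfl⟩
      have h1 := hperf (g ⁻¹' U) (hU.preimage hg) ⟨x, hxU, hx⟩
      have h2 := h1.image (f := g) (hginj.injOn)
      refine h2.mono ?_
      rintro _ ⟨y, ⟨hyU, hyS⟩, rfl⟩
      exact ⟨hyU, y, hyS, rfl⟩)
  rw [Set.image_eq_empty] at this
  exact hne.ne_empty this

end Pool.Agent.W623.Pris
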