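import Mathlib

/-!
# The part of a rectangle that is never removed

A rectangle `I × I` contains finitely many strands, the graphs of `H k`, `k ∈ K`.  A cut consists
of a set `A` of strands which, starting from one end `e` of the rectangle, stays strictly on one
side of all other strands; the region between the two groups is removed as long as this persists.
-/

set_option autoImplicit false

open Set Filter Topology unitInterval

namespace Pool.Agent.W623.Pris

/-- A cut: `e` is the end of the rectangle where it starts, `s` the side (`1` or `-1`) on which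
the strands of `A` lie, and `c` tells whether the cut is made at all. -/
structure Cut (ι : Type) where
  e : I
  s : ℝ
  A : Finset ι
  c : Prop

variable {ι : Type} [DecidableEq ι] (K : Finset ι) (H : ι → I → I)

/-- The two groups of the cut are separated at the parameter `u`. -/
def Cut.Sep (C : Cut ι) (u : I) : Prop :=
  ∀ k ∈ K, ∀ k' ∈ K, k ∈ C.A → k' ∉ C.A → 0 < C.s * ((H k u : ℝ) - H k' u)

/-- The cut is active at `u`. -/
def Cut.Act (C : Cut ι) (u : I) : Prop := C.c ∧ ∀ u' ∈ uIcc C.e u, C.Sep K H u'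

/-- The height `y` is between the two groups at `u`. -/
def Cut.SepAt (C : Cut ι) (u : I) (y : ℝ) : Prop :=
  (∀ k ∈ K, k ∈ C.A → 0 < C.s * ((H k u : ℝ) - y)) ∧
  (∀ k ∈ K, k ∉ C.A → 0 < C.s * (y - (H k u : ℝ)))

/-- The part of the rectangle that is kept. -/
def Region (L : Set (Cut ι)) : Set (I × I) :=
  {p | (∃ k ∈ K, (H k p.1 : ℝ) ≤ p.2) ∧ (∃ k ∈ K, (p.2 : ℝ) ≤ H k p.1) ∧
    ∀ C ∈ L, ¬ (C.Act K H p.1 ∧ C.SepAt K H p.1 p.2)}

variable {K H}

theorem Cut.Sep.eventually (hH : ∀ k, Continuous (H k)) {C : Cut ι} {u : I}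
    (h : C.Sep K H u) : ∀ᶠ v in 𝓝 u, C.Sep K H v := by
  classical
  have h1 : ∀ k ∈ K, ∀ᶠ v in 𝓝 u, ∀ k' ∈ K, k ∈ C.A → k' ∉ C.A →
      0 < C.s * ((H k v : ℝ) - H k' v) := by
    intro k hk
    rw [Filter.eventually_all_finset]
    intro k' hk'
    by_cases hkA : k ∈ C.A
    · by_cases hkA' : k' ∈ C.A
      · exact Filter.Eventually.of_forall fun v _ h2 => absurd hkA' h2
      · have hc : Continuous fun v : I => C.s * ((H k v : ℝ) - H k' v) := by
          have := hH k; have := hH k'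
          fun_prop
        filter_upwards [hc.continuousAt.eventually (lt_mem_nhds (h k hk k' hk' hkA hkA'))] with
          v hv _ _
        exact hv
    · exact Filter.Eventually.of_forall fun v h2 => absurd h2 hkA
  have h2 := (Filter.eventually_all_finset K).2 h1
  exact h2

/-- If the groups are separated near `u`, activity is constant near `u`. -/
theorem Cut.act_of_near (hH : ∀ k, Continuous (H k)) {C : Cut ι} {u : I}
    (h : C.Sep K H u) : ∀ᶠ v in 𝓝 u, (C.Act K H v ↔ C.Act K H u) := by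
  obtain ⟨ε, hε, hball⟩ := Metric.eventually_nhds_iff_ball.1 (h.eventually hH)
  have hbt : ∀ v ∈ Metric.ball u ε, ∀ w ∈ uIcc u v, C.Sep K H w := by
    intro v hv w hw
    apply hball
    rw [Metric.mem_ball, Subtype.dist_eq, Real.dist_eq] at hv ⊢
    rw [mem_uIcc] at hw
    rw [abs_lt] at hv ⊢
    rcases hw with ⟨h1, h2⟩ | ⟨h1, h2⟩
    · have h1' : (u : ℝ) ≤ w := h1
      have h2' : (w : ℝ) ≤ v := h2
      constructor <;> linarith
    · have h1' : (v : ℝ) ≤ w := h1
      have h2' : (w : ℝ) ≤ u := h2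
      constructor <;> linarith
  rw [Metric.eventually_nhds_iff_ball]
  refine ⟨ε, hε, fun v hv => ?_⟩
  have key : ∀ a b : I, (∀ w ∈ uIcc a b, C.Sep K H w) → C.Act K H a → C.Act K H b := by
    intro a b hab ha
    refine ⟨ha.1, fun w hw => ?_⟩
    have h1 := uIcc_subset_uIcc_union_uIcc (a := C.e) (b := a) (c := b) hw
    rcases h1 with h1 | h1
    · exact ha.2 w h1
    · exact hab w h1
  constructor
  · apply key
    intro w hw
    rw [uIcc_comm] at hw
    exact hbt v hv w hw
  · apply key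
    exact hbt v hv

theorem Cut.isOpen_act (hH : ∀ k, Continuous (H k)) (C : Cut ι) :
    IsOpen {u | C.Act K H u} := by
  rw [isOpen_iff_mem_nhds]
  intro u hu
  have h1 : C.Sep K H u := hu.2 u right_mem_uIcc
  filter_upwards [Cut.act_of_near hH h1] with v hv
  exact hv.2 hu

theorem Cut.SepAt.sep {C : Cut ι} {u : I} {y : ℝ} (h : C.SepAt K H u y) : C.Sep K H u := by
  intro k hk k' hk' hkA hkA'
  have h1 := h.1 k hk hkA
  have h2 := h.2 k' hk' hkA'
  have : C.s * ((H k u : ℝ) - H k' u) = C.s * ((H k u : ℝ) - y) + C.s * (y - H k' u) := by ring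
  rw [this]
  linarith

theorem Cut.isOpen_sepAt (hH : ∀ k, Continuous (H k)) (C : Cut ι) :
    IsOpen {p : I × I | C.SepAt K H p.1 p.2} := by
  have h1 : {p : I × I | C.SepAt K H p.1 p.2} =
      (⋂ k ∈ K, {p : I × I | k ∈ C.A → 0 < C.s * ((H k p.1 : ℝ) - p.2)}) ∩
      (⋂ k ∈ K, {p : I × I | k ∉ C.A → 0 < C.s * ((p.2 : ℝ) - (H k p.1 : ℝ))}) := by
    ext p
    simp only [Cut.SepAt, mem_setOf_eq, mem_inter_iff, mem_iInter]
  rw [h1]
  apply IsOpen.inter
  · apply isOpen_biInter_finset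
    intro k _
    by_cases hk : k ∈ C.A
    · have : {p : I × I | k ∈ C.A → 0 < C.s * ((H k p.1 : ℝ) - p.2)} =
        {p : I × I | 0 < C.s * ((H k p.1 : ℝ) - p.2)} := by ext p; simp [hk]
      rw [this]
      have := hH k
      exact isOpen_lt continuous_const (by fun_prop)
    · have : {p : I × I | k ∈ C.A → 0 < C.s * ((H k p.1 : ℝ) - p.2)} = univ := by
        ext p; simp [hk]
      rw [this]; exact isOpen_univ
  · apply isOpen_biInter_finset
    intro k _
    by_cases hk : k ∈ C.A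
    · have : {p : I × I | k ∉ C.A → 0 < C.s * ((p.2 : ℝ) - (H k p.1 : ℝ))} = univ := by
        ext p; simp [hk]
      rw [this]; exact isOpen_univ
    · have : {p : I × I | k ∉ C.A → 0 < C.s * ((p.2 : ℝ) - (H k p.1 : ℝ))} =
        {p : I × I | 0 < C.s * ((p.2 : ℝ) - (H k p.1 : ℝ))} := by ext p; simp [hk]
      rw [this]
      have := hH k
      exact isOpen_lt continuous_const (by fun_prop)

theorem isClosed_region (hH : ∀ k, Continuous (H k)) (L : Set (Cut ι)) :
    IsClosed (Region K H L) := by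
  have h1 : Region K H L = (⋃ k ∈ K, {p : I × I | (H k p.1 : ℝ) ≤ p.2}) ∩
      (⋃ k ∈ K, {p : I × I | (p.2 : ℝ) ≤ H k p.1}) ∩
      ⋂ C ∈ L, ({p : I × I | C.Act K H p.1} ∩ {p : I × I | C.SepAt K H p.1 p.2})ᶜ := by
    ext p
    simp only [Region, mem_setOf_eq, mem_inter_iff, mem_iUnion, mem_iInter, mem_compl_iff,
      exists_prop, and_assoc]
  rw [h1]
  apply IsClosed.inter
  · apply IsClosed.inter
    · apply isClosed_biUnion_finset
      intro k _
      have := hH k
      exact isClosed_le (by fun_prop) (by fun_prop)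
    · apply isClosed_biUnion_finset
      intro k _
      have := hH k
      exact isClosed_le (by fun_prop) (by fun_prop)
  · apply isClosed_biInter
    intro C _
    apply IsOpen.isClosed_compl
    exact ((C.isOpen_act hH).preimage continuous_fst).inter (C.isOpen_sepAt hH)

/-- Points of the kept region off the strands are interior points. -/
theorem region_interior (hH : ∀ k, Continuous (H k)) {L : Set (Cut ι)} (hL : L.Finite)
    {p : I × I} (hp : p ∈ Region K H L) (hns : ∀ k ∈ K, (H k p.1 : ℝ) ≠ p.2) :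
    Region K H L ∈ 𝓝 p := by
  classical
  -- signs are locally constant
  have hsign : ∀ k ∈ K, ∀ᶠ q : I × I in 𝓝 p, ((H k q.1 : ℝ) < q.2 ↔ (H k p.1 : ℝ) < p.2) ∧
      ((q.2 : ℝ) < H k q.1 ↔ (p.2 : ℝ) < H k p.1) := by
    intro k hk
    have hc1 : Continuous fun q : I × I => (H k q.1 : ℝ) := by
      have := hH k; fun_prop
    have hc2 : Continuous fun q : I × I => (q.2 : ℝ) := by fun_prop
    rcases lt_or_gt_of_ne (hns k hk) with h | h
    · filter_upwards [(isOpen_lt hc1 hc2).mem_nhds h] with q hq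
      have hq' : (H k q.1 : ℝ) < q.2 := hq
      exact ⟨⟨fun _ => h, fun _ => hq'⟩, ⟨fun h2 => absurd h2 (not_lt.2 hq'.le),
        fun h2 => absurd h2 (not_lt.2 h.le)⟩⟩
    · filter_upwards [(isOpen_lt hc2 hc1).mem_nhds h] with q hq
      have hq' : (q.2 : ℝ) < H k q.1 := hq
      exact ⟨⟨fun h2 => absurd h2 (not_lt.2 hq'.le), fun h2 => absurd h2 (not_lt.2 h.le)⟩,
        ⟨fun _ => h, fun _ => hq'⟩⟩
  have hsign' := (Filter.eventually_all_finset K).2 hsign
  have hcut : ∀ C ∈ L, ∀ᶠ q : I × I in 𝓝 p, ¬ (C.Act K H q.1 ∧ C.SepAt K H q.1 q.2) := by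
    intro C hC
    by_cases hsep : C.SepAt K H p.1 p.2
    · have hnact : ¬ C.Act K H p.1 := fun h => hp.2.2 C hC ⟨h, hsep⟩
      have h1 := Cut.act_of_near hH hsep.sep
      have h2 : ∀ᶠ q : I × I in 𝓝 p, (C.Act K H q.1 ↔ C.Act K H p.1) :=
        continuous_fst.continuousAt.eventually h1
      filter_upwards [h2] with q hq h3
      exact hnact (hq.1 h3.1)
    · filter_upwards [hsign'] with q hq h3
      apply hsep
      have hs : C.s ≠ 0 ∨ K = ∅ := by
        by_cases hK : K = ∅
        · exact Or.inr hK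
        · left
          obtain ⟨k, hk⟩ := Finset.nonempty_iff_ne_empty.2 hK
          intro hs0
          by_cases hkA : k ∈ C.A
          · have := h3.2.1 k hk hkA
            rw [hs0, zero_mul] at this; exact lt_irrefl _ this
          · have := h3.2.2 k hk hkA
            rw [hs0, zero_mul] at this; exact lt_irrefl _ this
      rcases hs with hs | hs
      · constructor
        · intro k hk hkA
          have h4 := h3.2.1 k hk hkA
          rcases pos_and_pos_or_neg_and_neg_of_mul_pos h4 with ⟨h5, h6⟩ | ⟨h5, h6⟩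
          · exact mul_pos h5 (sub_pos.2 ((hq k hk).2.1 (sub_pos.1 h6)))
          · exact mul_pos_of_neg_of_neg h5 (sub_neg.2 ((hq k hk).1.1 (sub_neg.1 h6)))
        · intro k hk hkA
          have h4 := h3.2.2 k hk hkA
          rcases pos_and_pos_or_neg_and_neg_of_mul_pos h4 with ⟨h5, h6⟩ | ⟨h5, h6⟩
          · exact mul_pos h5 (sub_pos.2 ((hq k hk).1.1 (sub_pos.1 h6)))
          · exact mul_pos_of_neg_of_neg h5 (sub_neg.2 ((hq k hk).2.1 (sub_neg.1 h6)))
      · subst hs
        exact ⟨fun k hk => absurd hk (Finset.notMem_empty k),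
          fun k hk => absurd hk (Finset.notMem_empty k)⟩
  have hcut' := (Filter.eventually_all_finite hL).2 hcut
  obtain ⟨⟨k1, hk1, hk1'⟩, ⟨k2, hk2, hk2'⟩, -⟩ := hp
  have h1 : (H k1 p.1 : ℝ) < p.2 := lt_of_le_of_ne hk1' (hns k1 hk1)
  have h2 : (p.2 : ℝ) < H k2 p.1 := lt_of_le_of_ne hk2' (hns k2 hk2).symm
  filter_upwards [hsign', hcut'] with q hq hq'
  exact ⟨⟨k1, hk1, ((hq k1 hk1).1.2 h1).le⟩, ⟨k2, hk2, ((hq k2 hk2).2.2 h2).le⟩, hq'⟩

/-- The sign pattern just above (`t = 1`) or just below (`t = -1`) the strand `k`. -/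
def Cut.Pattern (C : Cut ι) (K : Finset ι) (H : ι → I → I) (k : ι) (t : ℝ) (u : I) : Prop :=
  (∀ k' ∈ K, k' ∈ C.A → (k' = k ∧ C.s * t < 0) ∨ (k' ≠ k ∧ 0 < C.s * ((H k' u : ℝ) - H k u))) ∧
  (∀ k' ∈ K, k' ∉ C.A → (k' = k ∧ 0 < C.s * t) ∨ (k' ≠ k ∧ 0 < C.s * ((H k u : ℝ) - H k' u)))

/-- Near a point of a strand `k` where no other strand has the same height, the kept region
contains a strip on the side `t` of the strand, provided the side is not removed. -/
theorem region_strip (hH : ∀ k, Continuous (H k)) {L : Set (Cut ι)} (hL : L.Finite)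
    (hLs : ∀ C ∈ L, C.s ≠ 0) (k : ι) (hk : k ∈ K) (t : ℝ) (ht : t = 1 ∨ t = -1) (u : I)
    (hdist : ∀ k' ∈ K, k' ≠ k → H k' u ≠ H k u)
    (hside : ∃ k' ∈ K, 0 < t * ((H k' u : ℝ) - H k u))
    (hkeep : ∀ C ∈ L, ¬ (C.Act K H u ∧ C.Pattern K H k t u)) :
    ∃ ε > 0, ∀ v : I, |(v : ℝ) - u| < ε → ∀ r : ℝ, 0 ≤ r → r < ε →
      ∃ y : I, (y : ℝ) = H k v + t * r ∧ (v, y) ∈ Region K H L := by
  classical
  have ht0 : t ≠ 0 := by rcases ht with rfl | rfl <;> norm_num
  -- a uniform gap to the other strands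
  have hgap : ∀ k' ∈ K, ∃ δ > 0, k' ≠ k → ∀ᶠ v in 𝓝 u,
      ((H k u : ℝ) < H k' u → (H k v : ℝ) + δ < H k' v) ∧
      ((H k' u : ℝ) < H k u → (H k' v : ℝ) + δ < H k v) := by
    intro k' hk'
    by_cases hkk : k' = k
    · exact ⟨1, one_pos, fun h => absurd hkk h⟩
    · have hne : (H k' u : ℝ) ≠ H k u := fun h => hdist k' hk' hkk (Subtype.ext h)
      refine ⟨|(H k' u : ℝ) - H k u| / 2, by
        have := abs_pos.2 (sub_ne_zero.2 hne); linarith, fun _ => ?_⟩
      have hc1 : Continuous fun v : I => (H k v : ℝ) := by have := hH k; fun_prop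
      have hc2 : Continuous fun v : I => (H k' v : ℝ) := by have := hH k'; fun_prop
      rcases lt_or_gt_of_ne hne with h | h
      · have h3 : (H k' u : ℝ) + |(H k' u : ℝ) - H k u| / 2 < H k u := by
          rw [abs_of_neg (by linarith)]; linarith
        filter_upwards [(isOpen_lt (hc2.add continuous_const) hc1).mem_nhds h3] with v hv
        exact ⟨fun h4 => absurd h4 (not_lt.2 h.le), fun _ => hv⟩
      · have h3 : (H k u : ℝ) + |(H k' u : ℝ) - H k u| / 2 < H k' u := by
          rw [abs_of_pos (by linarith)]; linarith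
        filter_upwards [(isOpen_lt (hc1.add continuous_const) hc2).mem_nhds h3] with v hv
        exact ⟨fun _ => hv, fun h4 => absurd h4 (not_lt.2 h.le)⟩
  choose! δ hδ hδ' using hgap
  obtain ⟨δ0, hδ0, hδ0'⟩ : ∃ δ0 > 0, ∀ k' ∈ K, δ0 ≤ δ k' := by
    have hne : (K.image δ).Nonempty := ⟨δ k, Finset.mem_image_of_mem _ hk⟩
    refine ⟨(K.image δ).min' hne, ?_, ?_⟩
    · obtain ⟨k', hk', h⟩ := Finset.mem_image.1 ((K.image δ).min'_mem hne)
      rw [← h]; exact hδ k' hk'
    · intro k' hk'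
      exact Finset.min'_le _ _ (Finset.mem_image_of_mem _ hk')
  have hev : ∀ k' ∈ K, ∀ᶠ v in 𝓝 u, k' ≠ k →
      ((H k u : ℝ) < H k' u → (H k v : ℝ) + δ k' < H k' v) ∧
      ((H k' u : ℝ) < H k u → (H k' v : ℝ) + δ k' < H k v) := by
    intro k' hk'
    by_cases hkk : k' = k
    · exact Filter.Eventually.of_forall fun v h => absurd hkk h
    · filter_upwards [hδ' k' hk' hkk] with v hv _
      exact hv
  have hev' := (Filter.eventually_all_finset K).2 hev
  -- cuts
  have hcut : ∀ C ∈ L, ∀ᶠ v in 𝓝 u, ¬ (C.Act K H v ∧ C.Pattern K H k t u) := by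
    intro C hC
    by_cases hpat : C.Pattern K H k t u
    · have hsep : C.Sep K H u := by
        intro k1 hk1 k2 hk2 h1 h2
        rcases hpat.1 k1 hk1 h1 with ⟨rfl, h3⟩ | ⟨h3, h3'⟩
        · rcases hpat.2 k2 hk2 h2 with ⟨rfl, h4⟩ | ⟨h4, h4'⟩
          · exact absurd h1 h2
          · exact h4'
        · rcases hpat.2 k2 hk2 h2 with ⟨rfl, h4⟩ | ⟨h4, h4'⟩
          · exact h3'
          · have : C.s * ((H k1 u : ℝ) - H k2 u) = C.s * ((H k1 u : ℝ) - H k u) +
              C.s * ((H k u : ℝ) - H k2 u) := by ring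
            rw [this]; linarith
      filter_upwards [Cut.act_of_near hH hsep] with v hv h3
      exact hkeep C hC ⟨hv.1 h3.1, hpat⟩
    · exact Filter.Eventually.of_forall fun v h => hpat h.2
  have hcut' := (Filter.eventually_all_finite hL).2 hcut
  obtain ⟨ε, hε, hball⟩ := Metric.eventually_nhds_iff_ball.1 (hev'.and hcut')
  obtain ⟨k1, hk1, hk1'⟩ := hside
  have hk1k : k1 ≠ k := by
    rintro rfl
    rw [sub_self, mul_zero] at hk1'
    exact lt_irrefl _ hk1'
  refine ⟨min ε δ0, lt_min hε hδ0, fun v hv r hr0 hr => ?_⟩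
  have hvε : |(v : ℝ) - u| < ε := lt_of_lt_of_le hv (min_le_left _ _)
  have hrδ : r < δ0 := lt_of_lt_of_le hr (min_le_right _ _)
  have hvb : v ∈ Metric.ball u ε := by
    rw [Metric.mem_ball, Subtype.dist_eq, Real.dist_eq]; exact hvε
  obtain ⟨hA, hB⟩ := hball v hvb
  -- the height is between the strand `k` and the strand `k1`
  have hA1 := hA k1 hk1 hk1k
  have hyI : (H k v : ℝ) + t * r ∈ Icc (0:ℝ) 1 := by
    rcases ht with rfl | rfl
    · have h3 : (H k u : ℝ) < H k1 u := by linarith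
      have h4 := hA1.1 h3
      have h5 := hδ0' k1 hk1
      have h6 := (H k1 v).2.2
      have h7 := (H k v).2.1
      constructor <;> linarith
    · have h3 : (H k1 u : ℝ) < H k u := by linarith
      have h4 := hA1.2 h3
      have h5 := hδ0' k1 hk1
      have h6 := (H k1 v).2.1
      have h7 := (H k v).2.2
      constructor <;> linarith
  refine ⟨⟨_, hyI⟩, rfl, ?_, ?_, ?_⟩
  · show ∃ k' ∈ K, (H k' v : ℝ) ≤ (H k v : ℝ) + t * r
    rcases ht with rfl | rfl
    · exact ⟨k, hk, by linarith⟩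
    · have h3 : (H k1 u : ℝ) < H k u := by linarith
      exact ⟨k1, hk1, by linarith [hA1.2 h3, hδ0' k1 hk1]⟩
  · show ∃ k' ∈ K, (H k v : ℝ) + t * r ≤ (H k' v : ℝ)
    rcases ht with rfl | rfl
    · have h3 : (H k u : ℝ) < H k1 u := by linarith
      exact ⟨k1, hk1, by linarith [hA1.1 h3, hδ0' k1 hk1]⟩
    · exact ⟨k, hk, by linarith⟩
  · intro C hC ⟨hact, hsep⟩
    apply hB C hC
    refine ⟨hact, ?_⟩
    have hsep1 : ∀ k' ∈ K, k' ∈ C.A → 0 < C.s * ((H k' v : ℝ) - ((H k v : ℝ) + t * r)) := hsep.1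
    have hsep2 : ∀ k' ∈ K, k' ∉ C.A → 0 < C.s * (((H k v : ℝ) + t * r) - (H k' v : ℝ)) := hsep.2
    have hs := hLs C hC
    -- `r` is positive
    have hrpos : 0 < r := by
      rcases hr0.eq_or_lt with h | h
      · exfalso
        by_cases hkA : k ∈ C.A
        · have := hsep1 k hk hkA
          rw [← h] at this; simp at this
        · have := hsep2 k hk hkA
          rw [← h] at this; simp at this
      · exact h
    -- compare signs at `v` and at `u` for `k' ≠ k`
    have hcmp : ∀ k' ∈ K, k' ≠ k → (((H k v : ℝ) + t * r < H k' v) ↔ (H k u : ℝ) < H k' u) ∧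
        (((H k' v : ℝ) < (H k v : ℝ) + t * r) ↔ (H k' u : ℝ) < H k u) := by
      intro k' hk' hne'
      have hne2 : (H k' u : ℝ) ≠ H k u := fun h => hdist k' hk' hne' (Subtype.ext h)
      have h5 := hδ0' k' hk'
      have h6 := hA k' hk' hne'
      have htr : -δ0 < t * r ∧ t * r < δ0 := by
        rcases ht with rfl | rfl <;> constructor <;> linarith
      rcases lt_or_gt_of_ne hne2 with h | h
      · have h7 := h6.2 h
        exact ⟨⟨fun h8 => by linarith, fun h8 => by linarith⟩,
          ⟨fun _ => h, fun _ => by linarith⟩⟩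
      · have h7 := h6.1 h
        exact ⟨⟨fun _ => h, fun _ => by linarith⟩,
          ⟨fun h8 => by linarith, fun h8 => by linarith⟩⟩
    constructor
    · intro k' hk' hkA
      have h4 := hsep1 k' hk' hkA
      by_cases hkk : k' = k
      · left
        refine ⟨hkk, ?_⟩
        subst hkk
        have : C.s * ((H k' v : ℝ) - ((H k' v : ℝ) + t * r)) = -(C.s * t) * r := by ring
        rw [this] at h4
        have := (pos_iff_pos_of_mul_pos h4).2 hrpos
        linarith
      · right
        refine ⟨hkk, ?_⟩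
        rcases pos_and_pos_or_neg_and_neg_of_mul_pos h4 with ⟨h5, h6⟩ | ⟨h5, h6⟩
        · exact mul_pos h5 (sub_pos.2 ((hcmp k' hk' hkk).1.1 (sub_pos.1 h6)))
        · exact mul_pos_of_neg_of_neg h5 (sub_neg.2 ((hcmp k' hk' hkk).2.1 (sub_neg.1 h6)))
    · intro k' hk' hkA
      have h4 := hsep2 k' hk' hkA
      by_cases hkk : k' = k
      · left
        refine ⟨hkk, ?_⟩
        subst hkk
        have : C.s * (((H k' v : ℝ) + t * r) - (H k' v : ℝ)) = (C.s * t) * r := by ring
        rw [this] at h4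
        exact (pos_iff_pos_of_mul_pos h4).2 hrpos
      · right
        refine ⟨hkk, ?_⟩
        rcases pos_and_pos_or_neg_and_neg_of_mul_pos h4 with ⟨h5, h6⟩ | ⟨h5, h6⟩
        · exact mul_pos h5 (sub_pos.2 ((hcmp k' hk' hkk).2.1 (sub_pos.1 h6)))
        · exact mul_pos_of_neg_of_neg h5 (sub_neg.2 ((hcmp k' hk' hkk).1.1 (sub_neg.1 h6)))

end Pool.Agent.W623.Pris
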