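import Mathlib
import Pool.Agent.W623.Pris.Obst
import Pool.Agent.W623.Pris.Region

/-!
# The part of a prismatic polyhedron that is never removed
-/

set_option autoImplicit false

open Set Filter Topology Metric Relation unitInterval

namespace Pool.Agent.W623.Pris

/-- Two continuous functions, each a selection of finitely many affine functions, agree near
every point where they agree, finitely many points excepted. -/
theorem affine_coincide (h h' : I → ℝ) (hc : Continuous h) (hc' : Continuous h')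
    (B : Finset (ℝ × ℝ)) (hB : ∀ u : I, ∃ q ∈ B, h u = q.1 * u + q.2)
    (hB' : ∀ u : I, ∃ q ∈ B, h' u = q.1 * u + q.2) :
    ∃ F : Set I, F.Finite ∧ ∀ u ∉ F, h u = h' u → ∀ᶠ v in 𝓝 u, h v = h' v := by
  classical
  let F : Set I := ⋃ p ∈ (B ×ˢ B : Finset _), {u : I | p.1 ≠ p.2 ∧
    p.1.1 * (u : ℝ) + p.1.2 = p.2.1 * u + p.2.2}
  refine ⟨F, ?_, ?_⟩
  · apply Set.Finite.biUnion (Finset.finite_toSet _)
    rintro ⟨p, q⟩ -
    apply Set.Subsingleton.finite
    rintro u ⟨h1, h2⟩ v ⟨-, h3⟩
    simp only at h1 h2 h3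
    apply Subtype.ext
    by_contra hne
    apply h1
    have h4 : (p.1 - q.1) * ((u : ℝ) - v) = 0 := by linarith
    rcases mul_eq_zero.1 h4 with h5 | h5
    · have h6 : p.1 = q.1 := by linarith
      refine Prod.ext h6 ?_
      rw [h6] at h2
      linarith
    · exact absurd (by linarith) hne
  · intro u hu huv
    obtain ⟨q, hq, hqu⟩ := hB u
    obtain ⟨q', hq', hqu'⟩ := hB' u
    have hne : ∀ p ∈ B, p ≠ q → p.1 * (u : ℝ) + p.2 ≠ h u := by
      intro p hp hpq h1
      apply hu
      refine mem_iUnion₂.2 ⟨(p, q), Finset.mk_mem_product hp hq, hpq, ?_⟩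
      rw [h1, hqu]
    have hqq : q' = q := by
      by_contra hcon
      exact hne q' hq' hcon (by rw [← hqu', huv])
    subst hqq
    have hev : ∀ (k : I → ℝ), Continuous k → k u = h u → (∀ u : I, ∃ q ∈ B, k u = q.1 * u + q.2) →
        ∀ᶠ v : I in 𝓝 u, k v = q'.1 * (v : ℝ) + q'.2 := by
      intro k hk hku hBk
      have h1 : ∀ p ∈ B, ∀ᶠ v : I in 𝓝 u, p ≠ q' → p.1 * (v : ℝ) + p.2 ≠ k v := by
        intro p hp
        by_cases hpq : p = q'
        · exact Filter.Eventually.of_forall fun v h => absurd hpq h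
        · have h2 : p.1 * (u : ℝ) + p.2 ≠ k u := by rw [hku]; exact hne p hp hpq
          have h3 : Continuous fun v : I => p.1 * (v : ℝ) + p.2 := by fun_prop
          have h4 : IsOpen {v : I | p.1 * (v : ℝ) + p.2 ≠ k v} := isOpen_ne_fun h3 hk
          filter_upwards [h4.mem_nhds h2] with v hv _
          exact hv
      filter_upwards [(Filter.eventually_all_finset B).2 h1] with v hv
      obtain ⟨p, hp, hpv⟩ := hBk v
      by_cases hpq : p = q'
      · rw [hpv, hpq]
      · exact absurd hpv.symm (hv p hp hpq)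
    filter_upwards [hev h hc rfl hB, hev h' hc' huv.symm hB'] with v h1 h2
    rw [h1, h2]

variable {n : ℕ} (R : Fin n → Word n) (f : Fin n → Disk → I)

/-- Occurrences of letters in the relators. -/
abbrev Occ := Σ j : Fin n, Fin (R j).length

/-- Occurrences of the generator `g`. -/
def occ (g : Fin n) : Finset (Occ R) := Finset.univ.filter fun p => gen R p.1 p.2 = g

/-- The height of the strand of an occurrence. -/
noncomputable def hs (p : Occ R) (u : I) : I := ht R f p.1 p.2 u

variable {f} in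
theorem continuous_hs (hf : ∀ j, Continuous (f j)) (p : Occ R) : Continuous (hs R f p) :=
  (hf p.1).comp (continuous_bp R p.1 p.2)

theorem mem_occ (g : Fin n) (p : Occ R) : p ∈ occ R g ↔ gen R p.1 p.2 = g := by
  simp [occ]

variable {f} in
/-- Off finitely many parameters, two strands that meet coincide nearby. -/
theorem exists_bad (hf : IsHeight f) : ∃ F : Set I, F.Finite ∧ ∀ u ∉ F, ∀ p p' : Occ R,
    hs R f p u = hs R f p' u → ∀ᶠ v in 𝓝 u, hs R f p v = hs R f p' v := by
  classical
  obtain ⟨hfc, hpl⟩ := hf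
  choose A hA using hpl
  have h1 : ∀ p : Occ R, ∃ B : Finset (ℝ × ℝ), ∀ u : I, ∃ q ∈ B,
      (hs R f p u : ℝ) = q.1 * u + q.2 := by
    rintro ⟨j, i⟩
    have hl : (0:ℝ) < (R j).length := by
      have := i.pos
      exact_mod_cast this
    by_cases hb : ((R j).get i).2
    · refine ⟨(A j).image fun q => (q.1 / (R j).length, q.1 * i / (R j).length + q.2), ?_⟩
      intro u
      have hi' : ((i : ℕ) : ℝ) + 1 ≤ (R j).length := by exact_mod_cast i.2
      obtain ⟨q, hq, h⟩ := hA j (((i : ℕ) + (u : ℝ)) / (R j).length) (by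
        have := u.2.1; have := u.2.2
        constructor
        · positivity
        · rw [div_le_one hl]; linarith)
      refine ⟨_, Finset.mem_image_of_mem _ hq, ?_⟩
      have h2 : hs R f ⟨j, i⟩ u = f j (circlePt (((i : ℕ) + (u : ℝ)) / (R j).length)) := by
        show f j (circlePt (((i : ℕ) + (tau ((R j).get i).2 u : ℝ)) / (R j).length)) = _
        rw [hb]; rfl
      rw [h2, h]
      simp only
      field_simp
      ring
    · refine ⟨(A j).image fun q =>
        (-q.1 / (R j).length, q.1 * (i + 1) / (R j).length + q.2), ?_⟩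
      intro u
      have hi' : ((i : ℕ) : ℝ) + 1 ≤ (R j).length := by exact_mod_cast i.2
      obtain ⟨q, hq, h⟩ := hA j (((i : ℕ) + (1 - (u : ℝ))) / (R j).length) (by
        have := u.2.1; have := u.2.2
        constructor
        · apply div_nonneg _ hl.le
          have : (0:ℝ) ≤ (i : ℕ) := by positivity
          linarith
        · rw [div_le_one hl]; linarith)
      refine ⟨_, Finset.mem_image_of_mem _ hq, ?_⟩
      have h2 : hs R f ⟨j, i⟩ u = f j (circlePt (((i : ℕ) + (1 - (u : ℝ))) / (R j).length)) := by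
        show f j (circlePt (((i : ℕ) + (tau ((R j).get i).2 u : ℝ)) / (R j).length)) = _
        rw [Bool.not_eq_true] at hb
        rw [hb]; rfl
      rw [h2, h]
      simp only
      field_simp
      ring
  choose B hB using h1
  have h2 : ∀ p p' : Occ R, ∃ F : Set I, F.Finite ∧ ∀ u ∉ F,
      (hs R f p u : ℝ) = hs R f p' u → ∀ᶠ v in 𝓝 u, (hs R f p v : ℝ) = hs R f p' v := by
    intro p p'
    apply affine_coincide _ _ _ _ (B p ∪ B p')
    · intro u
      obtain ⟨q, hq, h⟩ := hB p u
      exact ⟨q, Finset.mem_union_left _ hq, h⟩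
    · intro u
      obtain ⟨q, hq, h⟩ := hB p' u
      exact ⟨q, Finset.mem_union_right _ hq, h⟩
    · have := continuous_hs R hfc p; fun_prop
    · have := continuous_hs R hfc p'; fun_prop
  choose F hF hF' using h2
  refine ⟨⋃ p, ⋃ p', F p p', Set.finite_iUnion fun p => Set.finite_iUnion fun p' => hF p p', ?_⟩
  intro u hu p p' h
  have hu' : u ∉ F p p' := fun h => hu (mem_iUnion.2 ⟨p, mem_iUnion.2 ⟨p', h⟩⟩)
  filter_upwards [hF' p p' u hu' (congrArg Subtype.val h)] with v hv
  exact Subtype.ext hv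

/-- The kept part of the rectangle of the generator `g`. -/
def keptRegion (L : Fin n → Set (Cut (Occ R))) (g : Fin n) : Set (I × I) :=
  Region (occ R g) (hs R f) (L g)

/-- The kept part of the prismatic polyhedron. -/
def kept (L : Fin n → Set (Cut (Occ R))) : Set (Prism R f) :=
  (⋃ j, range (cpt R f j)) ∪ ⋃ g, ept R f g '' keptRegion R f L g

/-- Possible numbers of strands on a side of a point whose side is removed. -/
def SideCard {ι : Type} [DecidableEq ι] (K : Finset ι) (L : Set (Cut ι)) (x : ℕ) : Prop :=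
  x = 0 ∨ ∃ C ∈ L, x = (K.filter (· ∈ C.A)).card ∨ x = (K.filter (· ∉ C.A)).card

theorem side_card {ι : Type} [DecidableEq ι] {K : Finset ι} {H : ι → I → I} {L : Set (Cut ι)}
    (k : ι) (hk : k ∈ K) (t : ℝ) (ht : t = 1 ∨ t = -1) (u : I)
    (h : ¬ ((∃ k' ∈ K, 0 < t * ((H k' u : ℝ) - H k u)) ∧
      ∀ C ∈ L, ¬ (C.Act K H u ∧ C.Pattern K H k t u))) :
    SideCard K L (K.filter fun k' => 0 < t * ((H k' u : ℝ) - H k u)).card := by
  classical
  by_cases h1 : ∃ k' ∈ K, 0 < t * ((H k' u : ℝ) - H k u)
  · have h2 : ∃ C ∈ L, C.Pattern K H k t u := by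
      by_contra hcon
      push Not at hcon
      exact h ⟨h1, fun C hC h3 => hcon C hC h3.2⟩
    obtain ⟨C, hC, hpat⟩ := h2
    right
    refine ⟨C, hC, ?_⟩
    have hst : 0 < C.s * t ∨ C.s * t < 0 := by
      by_cases hkA : k ∈ C.A
      · rcases hpat.1 k hk hkA with h3 | h3
        · exact Or.inr h3.2
        · exact absurd rfl h3.1
      · rcases hpat.2 k hk hkA with h3 | h3
        · exact Or.inl h3.2
        · exact absurd rfl h3.1
    have htt : t * t = 1 := by rcases ht with rfl | rfl <;> norm_num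
    rcases hst with hst | hst
    · left
      congr 1
      apply Finset.filter_congr
      intro k' hk'
      constructor
      · intro h3
        by_contra hA
        rcases hpat.2 k' hk' hA with ⟨rfl, -⟩ | ⟨-, h4⟩
        · simp at h3
        · have h5 := mul_pos hst h3
          have h6 : C.s * t * (t * ((H k' u : ℝ) - H k u)) =
            (t * t) * (C.s * ((H k' u : ℝ) - H k u)) := by ring
          rw [h6, htt] at h5
          linarith
      · intro hA
        rcases hpat.1 k' hk' hA with ⟨rfl, h3⟩ | ⟨-, h4⟩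
        · linarith
        · have h5 := mul_pos hst h4
          have h6 : C.s * t * (C.s * ((H k' u : ℝ) - H k u)) =
            (C.s * C.s) * (t * ((H k' u : ℝ) - H k u)) := by ring
          rw [h6] at h5
          exact (pos_iff_pos_of_mul_pos h5).1 (by
            rcases (mul_self_nonneg C.s).eq_or_lt with h7 | h7
            · rw [← h7, zero_mul] at h5; exact absurd h5 (lt_irrefl _)
            · exact h7)
    · right
      congr 1
      apply Finset.filter_congr
      intro k' hk'
      constructor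
      · intro h3 hA
        rcases hpat.1 k' hk' hA with ⟨rfl, -⟩ | ⟨-, h4⟩
        · simp at h3
        · have h5 := mul_neg_of_neg_of_pos hst h3
          have h6 : C.s * t * (t * ((H k' u : ℝ) - H k u)) =
            (t * t) * (C.s * ((H k' u : ℝ) - H k u)) := by ring
          rw [h6, htt] at h5
          linarith
      · intro hA
        rcases hpat.2 k' hk' hA with ⟨rfl, h3⟩ | ⟨-, h4⟩
        · linarith
        · have h5 := mul_neg_of_neg_of_pos hst h4
          have h6 : C.s * t * (C.s * ((H k u : ℝ) - H k' u)) =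
            -((C.s * C.s) * (t * ((H k' u : ℝ) - H k u))) := by ring
          rw [h6] at h5
          have h5' : 0 < (C.s * C.s) * (t * ((H k' u : ℝ) - H k u)) := by linarith
          exact (pos_iff_pos_of_mul_pos h5').1 (by
            rcases (mul_self_nonneg C.s).eq_or_lt with h7 | h7
            · rw [← h7, zero_mul] at h5'; exact absurd h5' (lt_irrefl _)
            · exact h7)
  · left
    rw [Finset.card_eq_zero, Finset.filter_eq_empty_iff]
    intro k' hk' h2
    exact h1 ⟨k', hk', h2⟩

theorem I_coe_zero : ((0 : I) : ℝ) = 0 := rfl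

theorem mem_kept_cpt (L : Fin n → Set (Cut (Occ R))) (j : Fin n) (z : Disk) :
    cpt R f j z ∈ kept R f L := Or.inl (mem_iUnion.2 ⟨j, z, rfl⟩)

theorem mem_kept_ept (L : Fin n → Set (Cut (Occ R))) (g : Fin n) (p : I × I)
    (h : p ∈ keptRegion R f L g) : ept R f g p ∈ kept R f L :=
  Or.inr (mem_iUnion.2 ⟨g, p, h, rfl⟩)

/-- A neighbourhood in the unit interval seen from the real line. -/
theorem exists_eps {u : I} {P : I → Prop} (h : ∀ᶠ v in 𝓝 u, P v) :
    ∃ ε > 0, ∀ t : ℝ, |t - u| < ε → P (cl t) := by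
  have h1 : Tendsto cl (𝓝 (u : ℝ)) (𝓝 u) := by
    have := continuous_cl.continuousAt (x := (u : ℝ))
    rw [ContinuousAt, cl_coe] at this
    exact this
  obtain ⟨ε, hε, hball⟩ := Metric.eventually_nhds_iff_ball.1 (h1.eventually h)
  exact ⟨ε, hε, fun t ht => hball t (by rwa [Metric.mem_ball, Real.dist_eq])⟩

theorem exists_eps2 {u y : I} {P : I × I → Prop} (h : ∀ᶠ v in 𝓝 (u, y), P v) :
    ∃ ε > 0, ∀ t r : ℝ, |t - u| < ε → |r - y| < ε → P (cl t, cl r) := by
  have h1 : Tendsto (fun p : ℝ × ℝ => (cl p.1, cl p.2)) (𝓝 ((u : ℝ), (y : ℝ))) (𝓝 (u, y)) := by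
    have h2 : Continuous fun p : ℝ × ℝ => (cl p.1, cl p.2) :=
      (continuous_cl.comp continuous_fst).prodMk (continuous_cl.comp continuous_snd)
    have := h2.continuousAt (x := ((u : ℝ), (y : ℝ)))
    rw [ContinuousAt] at this
    simp only [cl_coe] at this
    exact this
  obtain ⟨ε, hε, hball⟩ := Metric.eventually_nhds_iff_ball.1 (h1.eventually h)
  refine ⟨ε, hε, fun t r ht hr => hball (t, r) ?_⟩
  rw [Metric.mem_ball, Prod.dist_eq, Real.dist_eq, Real.dist_eq]
  exact max_lt ht hr

/-- Points of the strands. -/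
theorem onDisc_kept_strand (hf : IsHeight f) (L : Fin n → Set (Cut (Occ R)))
    (hL : ∀ g, (L g).Finite) (hLs : ∀ g, ∀ C ∈ L g, C.s ≠ 0)
    (hcard : ∀ g, ∀ x y : ℕ, SideCard (occ R g) (L g) x → SideCard (occ R g) (L g) y →
      x + y + 1 ≠ (occ R g).card)
    (p : Occ R) (u : I) (hu0 : 0 < (u : ℝ)) (hu1 : (u : ℝ) < 1)
    (hu : ∀ p' : Occ R, hs R f p u = hs R f p' u → ∀ᶠ v in 𝓝 u, hs R f p v = hs R f p' v) :
    OnDisc (kept R f L) (ept R f (gen R p.1 p.2) (u, hs R f p u)) := by
  classical
  obtain ⟨j, i⟩ := p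
  have hcl : cl (u : ℝ) = u := cl_coe u
  by_cases hex : ∃ p' ∈ occ R (gen R j i), p' ≠ ⟨j, i⟩ ∧ hs R f p' u = hs R f ⟨j, i⟩ u
  · obtain ⟨⟨j', i'⟩, hp', hne, heq⟩ := hex
    rw [mem_occ] at hp'
    obtain ⟨ε, hε, hball⟩ := exists_eps (hu ⟨j', i'⟩ heq.symm)
    have hδ : 0 < min ε (min ((u : ℝ) / 2) ((1 - u) / 2)) :=
      lt_min hε (lt_min (by linarith) (by linarith))
    have h1 := min_le_left ε (min ((u : ℝ) / 2) ((1 - u) / 2))
    have h2 := (min_le_right ε (min ((u : ℝ) / 2) ((1 - u) / 2))).trans (min_le_left _ _)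
    have h3 := (min_le_right ε (min ((u : ℝ) / 2) ((1 - u) / 2))).trans (min_le_right _ _)
    have := onDisc_double R f hf.1 (kept R f L) j j' i i' (fun j z => mem_kept_cpt R f L j z)
      (by
        rintro ⟨rfl, h⟩
        simp only at h
        exact hne (by rw [h])) hp'.symm (u : ℝ) (min ε (min ((u : ℝ) / 2) ((1 - u) / 2))) hδ
      (by linarith) (by linarith) (by linarith) (by
        intro t ht
        exact hball t (lt_of_lt_of_le ht h1))
    rw [hcl] at this
    exact this
  · push Not at hex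
    have hstrip : ∃ t : ℝ, (t = 1 ∨ t = -1) ∧
        ((∃ k' ∈ occ R (gen R j i), 0 < t * ((hs R f k' u : ℝ) - hs R f ⟨j, i⟩ u)) ∧
        ∀ C ∈ L (gen R j i), ¬ (C.Act (occ R (gen R j i)) (hs R f) u ∧
          C.Pattern (occ R (gen R j i)) (hs R f) ⟨j, i⟩ t u)) := by
      by_contra hcon
      push Not at hcon
      have hk : (⟨j, i⟩ : Occ R) ∈ occ R (gen R j i) := (mem_occ _ _ _).2 rfl
      have h1 := side_card (H := hs R f) (L := L (gen R j i)) (⟨j, i⟩ : Occ R) hk 1 (Or.inl rfl) u
        (by
          rintro ⟨h1, h2⟩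
          obtain ⟨C, hC, h3, h4⟩ := hcon 1 (Or.inl rfl) h1
          exact h2 C hC ⟨h3, h4⟩)
      have h2 := side_card (H := hs R f) (L := L (gen R j i)) (⟨j, i⟩ : Occ R) hk (-1)
        (Or.inr rfl) u
        (by
          rintro ⟨h1, h2⟩
          obtain ⟨C, hC, h3, h4⟩ := hcon (-1) (Or.inr rfl) h1
          exact h2 C hC ⟨h3, h4⟩)
      apply hcard _ _ _ h1 h2
      rw [← Finset.card_union_of_disjoint, ← Finset.card_erase_add_one hk]
      · congr 2
        ext k'
        rw [Finset.mem_union, Finset.mem_filter, Finset.mem_filter, Finset.mem_erase]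
        constructor
        · rintro (⟨h3, h4⟩ | ⟨h3, h4⟩)
          · refine ⟨?_, h3⟩
            rintro rfl
            simp at h4
          · refine ⟨?_, h3⟩
            rintro rfl
            simp at h4
        · rintro ⟨h3, h4⟩
          have h5 := hex k' h4 h3
          have h6 : (hs R f k' u : ℝ) ≠ hs R f ⟨j, i⟩ u := fun h => h5 (Subtype.ext h)
          rcases lt_or_gt_of_ne h6 with h7 | h7
          · right
            exact ⟨h4, by linarith⟩
          · left
            exact ⟨h4, by linarith⟩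
      · rw [Finset.disjoint_left]
        intro k' h3 h4
        rw [Finset.mem_filter] at h3 h4
        linarith [h3.2, h4.2]
    obtain ⟨t, htc, hside, hkeep⟩ := hstrip
    obtain ⟨ε, hε, hstr⟩ := region_strip (fun k => continuous_hs R hf.1 k) (hL _) (hLs _)
      (⟨j, i⟩ : Occ R) ((mem_occ _ _ _).2 rfl) t htc u (fun k' hk' hne h => hex k' hk' hne h)
      hside hkeep
    have hδ : 0 < min ε (min ((u : ℝ) / 2) ((1 - u) / 2)) :=
      lt_min hε (lt_min (by linarith) (by linarith))
    have h1 := min_le_left ε (min ((u : ℝ) / 2) ((1 - u) / 2))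
    have h2 := (min_le_right ε (min ((u : ℝ) / 2) ((1 - u) / 2))).trans (min_le_left _ _)
    have h3 := (min_le_right ε (min ((u : ℝ) / 2) ((1 - u) / 2))).trans (min_le_right _ _)
    set δ := min ε (min ((u : ℝ) / 2) ((1 - u) / 2)) with hδdef
    have hkey : ∀ x r : ℝ, |x - u| < δ → 0 ≤ r → r < δ →
        ∃ y : I, (y : ℝ) = (ht R f j i (cl x) : ℝ) + t * r ∧
          (cl x, y) ∈ keptRegion R f L (gen R j i) := by
      intro x r hx hr0 hr
      apply hstr (cl x) _ r hr0 (lt_of_lt_of_le hr h1)
      have h4 := abs_lt.1 hx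
      rw [cl_of_mem (by linarith) (by linarith)]
      exact lt_of_lt_of_le hx h1
    have := onDisc_strand R f hf.1 (kept R f L) j i (fun z => mem_kept_cpt R f L j z) (u : ℝ) δ t
      hδ (by rcases htc with rfl | rfl <;> norm_num) (by linarith) (by linarith) (by linarith)
      (by
        intro x r hx hr0 hr
        obtain ⟨y, hy, -⟩ := hkey x r hx hr0 hr
        rw [← hy]; exact y.2)
      (by
        intro x r hx hr0 hr
        obtain ⟨y, hy, hy'⟩ := hkey x r hx hr0 hr
        rw [← hy, cl_coe]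
        exact mem_kept_ept R f L _ _ hy')
    rw [hcl] at this
    exact this

/-- Points of the vertex line. -/
theorem onDisc_kept_vertex (hf : IsHeight f) (L : Fin n → Set (Cut (Occ R)))
    (hL : ∀ g, (L g).Finite) (y : I) (hy : ∀ p : Occ R, hs R f p 0 ≠ y ∧ hs R f p 1 ≠ y)
    (g g' : Fin n) (b b' : Bool) (hne : ¬ (g = g' ∧ b = b'))
    (h : (tau b 0, y) ∈ keptRegion R f L g) (h' : (tau b' 0, y) ∈ keptRegion R f L g') :
    OnDisc (kept R f L) (ept R f g (tau b 0, y)) := by
  have hns : ∀ (b : Bool) (p : Occ R), (hs R f p (tau b 0) : ℝ) ≠ y := by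
    intro b p h
    cases b
    · have h1 : tau false 0 = 1 := by simp [tau]
      rw [h1] at h
      exact (hy p).2 (Subtype.ext h)
    · have h1 : tau true 0 = 0 := by simp [tau]
      rw [h1] at h
      exact (hy p).1 (Subtype.ext h)
  have hy0 : 0 < (y : ℝ) := by
    obtain ⟨k, hk, hk'⟩ := h.1
    exact lt_of_le_of_lt (hs R f k (tau b 0)).2.1 (lt_of_le_of_ne hk' (hns b k))
  have hy1 : (y : ℝ) < 1 := by
    obtain ⟨k, hk, hk'⟩ := h.2.1
    exact lt_of_lt_of_le (lt_of_le_of_ne hk' (hns b k).symm) (hs R f k (tau b 0)).2.2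
  have key : ∀ (g : Fin n) (b : Bool), (tau b 0, y) ∈ keptRegion R f L g →
      ∃ ε > 0, ∀ r x : ℝ, 0 ≤ r → r < ε → |x - y| < ε →
        ept R f g (endCoord b r, cl x) ∈ kept R f L := by
    intro g b hb
    have h1 := region_interior (fun k => continuous_hs R hf.1 k) (hL g) hb (fun k _ => hns b k)
    have h2 : ∀ᶠ q in 𝓝 ((0 : I), y), (tau b q.1, q.2) ∈ keptRegion R f L g := by
      have h3 : Continuous fun q : I × I => (tau b q.1, q.2) :=
        ((continuous_tau b).comp continuous_fst).prodMk continuous_snd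
      exact h3.continuousAt (x := ((0 : I), y)) h1
    obtain ⟨ε, hε, hball⟩ := exists_eps2 h2
    refine ⟨ε, hε, fun r x hr0 hr hx => mem_kept_ept R f L _ _ (hball r x ?_ hx)⟩
    show |r - ((0 : I) : ℝ)| < ε
    rw [I_coe_zero, sub_zero, abs_of_nonneg hr0]
    exact hr
  obtain ⟨ε, hε, hS⟩ := key g b h
  obtain ⟨ε', hε', hS'⟩ := key g' b' h'
  have hδ : 0 < min (min ε ε') (min (1/4) (min ((y : ℝ) / 2) ((1 - y) / 2))) :=
    lt_min (lt_min hε hε') (lt_min (by norm_num) (lt_min (by linarith) (by linarith)))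
  have e1 := (min_le_left (min ε ε') (min (1/4) (min ((y : ℝ) / 2) ((1 - y) / 2)))).trans
    (min_le_left _ _)
  have e2 := (min_le_left (min ε ε') (min (1/4) (min ((y : ℝ) / 2) ((1 - y) / 2)))).trans
    (min_le_right _ _)
  have e3 := (min_le_right (min ε ε') (min (1/4) (min ((y : ℝ) / 2) ((1 - y) / 2)))).trans
    (min_le_left _ _)
  have e4 := (min_le_right (min ε ε') (min (1/4) (min ((y : ℝ) / 2) ((1 - y) / 2)))).trans
    ((min_le_right _ _).trans (min_le_left _ _))
  have e5 := (min_le_right (min ε ε') (min (1/4) (min ((y : ℝ) / 2) ((1 - y) / 2)))).trans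
    ((min_le_right _ _).trans (min_le_right _ _))
  set δ := min (min ε ε') (min (1/4) (min ((y : ℝ) / 2) ((1 - y) / 2)))
  have := onDisc_ends R f (kept R f L) g g' b b' hne (y : ℝ) δ hδ (by linarith) (by linarith)
    (by linarith)
    (fun r x h0 h1 h2 => hS r x h0 (lt_of_lt_of_le h1 e1) (lt_of_lt_of_le h2 e1))
    (fun r x h0 h1 h2 => hS' r x h0 (lt_of_lt_of_le h1 e2) (lt_of_lt_of_le h2 e2))
  have h0 : endCoord b 0 = tau b 0 := by
    unfold endCoord
    have := cl_coe 0
    rw [I_coe_zero] at this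
    rw [this]
  rw [cl_coe, h0] at this
  exact this

/-- The combinatorial obstruction. -/
theorem not_collapses_of (hR : ∀ j, R j ≠ []) (hf : IsHeight f) (L : Fin n → Set (Cut (Occ R)))
    (hL : ∀ g, (L g).Finite) (hLs : ∀ g, ∀ C ∈ L g, C.s ≠ 0)
    (hcard : ∀ g, ∀ x y : ℕ, SideCard (occ R g) (L g) x → SideCard (occ R g) (L g) y →
      x + y + 1 ≠ (occ R g).card)
    (hn : 0 < n)
    (hvert : ∀ y : I, (∀ p : Occ R, hs R f p 0 ≠ y ∧ hs R f p 1 ≠ y) → ∀ g (b : Bool),
      (tau b 0, y) ∈ keptRegion R f L g → ∃ g' b', ¬ (g = g' ∧ b = b') ∧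
        (tau b' 0, y) ∈ keptRegion R f L g') :
    ¬ CollapsesToPoint (Prism R f) := by
  classical
  obtain ⟨F, hF, hF'⟩ := exists_bad R hf
  let s : Occ R × I → Prism R f := fun q => ept R f (gen R q.1.1 q.1.2) (q.2, hs R f q.1 q.2)
  let E : Set (Prism R f) := s '' (univ ×ˢ (F ∪ {0, 1}))
  have hstrand : ∀ (p : Occ R) (u : I), ept R f (gen R p.1 p.2) (u, hs R f p u) ∉ E →
      OnDisc (kept R f L) (ept R f (gen R p.1 p.2) (u, hs R f p u)) := by
    intro p u hE
    have hu : u ∉ F ∪ {0, 1} := fun h => hE ⟨(p, u), ⟨mem_univ _, h⟩, rfl⟩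
    have hu0 : 0 < (u : ℝ) := by
      rcases lt_or_eq_of_le u.2.1 with h | h
      · exact h
      · exact absurd (Or.inr (Or.inl (Subtype.ext h.symm))) hu
    have hu1 : (u : ℝ) < 1 := by
      rcases lt_or_eq_of_le u.2.2 with h | h
      · exact h
      · exact absurd (Or.inr (Or.inr (Subtype.ext h))) hu
    exact onDisc_kept_strand R f hf L hL hLs hcard p u hu0 hu1
      (fun p' h => hF' u (fun h => hu (Or.inl h)) p p' h)
  have hdisc : ∀ x ∈ kept R f L \ E, OnDisc (kept R f L) x := by
    rintro x ⟨hx | hx, hxE⟩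
    · obtain ⟨j, z, rfl⟩ := mem_iUnion.1 hx
      by_cases hz : ‖(z : ℂ)‖ < 1
      · exact onDisc_cell R f hf.1 _ j (fun z => mem_kept_cpt R f L j z) z hz
      · have hz1 : ‖(z : ℂ)‖ = 1 := by
          have h2 : ‖(z : ℂ)‖ ≤ 1 := by
            have := z.2
            rwa [mem_closedBall, dist_zero_right] at this
          linarith [not_lt.1 hz]
        obtain ⟨i, u, rfl⟩ := cpt_of_norm_one R hR j z hz1
        rw [cpt_bp] at hxE ⊢
        exact hstrand ⟨j, i⟩ u hxE
    · obtain ⟨g, ⟨u, y⟩, hreg, rfl⟩ := mem_iUnion.1 hx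
      by_cases hu : u = 0 ∨ u = 1
      · obtain ⟨b, rfl⟩ : ∃ b, u = tau b 0 := by
          rcases hu with rfl | rfl
          · exact ⟨true, by simp [tau]⟩
          · exact ⟨false, by simp [tau]⟩
        by_cases hy : ∀ p : Occ R, hs R f p 0 ≠ y ∧ hs R f p 1 ≠ y
        · obtain ⟨g', b', hne, h'⟩ := hvert y hy g b hreg
          exact onDisc_kept_vertex R f hf L hL y hy g g' b b' hne hreg h'
        · exfalso
          apply hxE
          push Not at hy
          obtain ⟨p, hp⟩ := hy
          by_cases hp0 : hs R f p 0 = y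
          · refine ⟨(p, 0), ⟨mem_univ _, Or.inr (Or.inl rfl)⟩, ?_⟩
            show ept R f _ (0, hs R f p 0) = _
            rw [hp0]
            exact ept_end R f (Or.inl rfl) hu
          · refine ⟨(p, 1), ⟨mem_univ _, Or.inr (Or.inr rfl)⟩, ?_⟩
            show ept R f _ (1, hs R f p 1) = _
            rw [hp hp0]
            exact ept_end R f (Or.inr rfl) hu
      · have hu0 : 0 < (u : ℝ) := by
          rcases lt_or_eq_of_le u.2.1 with h | h
          · exact h
          · exact absurd (Or.inl (Subtype.ext h.symm)) hu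
        have hu1 : (u : ℝ) < 1 := by
          rcases lt_or_eq_of_le u.2.2 with h | h
          · exact h
          · exact absurd (Or.inr (Subtype.ext h)) hu
        by_cases hon : ∃ k ∈ occ R g, hs R f k u = y
        · obtain ⟨k, hk, rfl⟩ := hon
          rw [mem_occ] at hk
          subst hk
          exact hstrand k u hxE
        · push Not at hon
          have hns : ∀ k ∈ occ R g, (hs R f k u : ℝ) ≠ y := fun k hk h =>
            hon k hk (Subtype.ext h)
          have h1 := region_interior (fun k => continuous_hs R hf.1 k) (hL g) hreg hns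
          obtain ⟨ε, hε, hball⟩ := exists_eps2 (P := fun q => q ∈ keptRegion R f L g) h1
          have hy0 : 0 < (y : ℝ) := by
            obtain ⟨k, hk, hk'⟩ := hreg.1
            exact lt_of_le_of_lt (hs R f k u).2.1 (lt_of_le_of_ne hk' (hns k hk))
          have hy1 : (y : ℝ) < 1 := by
            obtain ⟨k, hk, hk'⟩ := hreg.2.1
            exact lt_of_lt_of_le (lt_of_le_of_ne hk' (hns k hk).symm) (hs R f k u).2.2
          have hδ : 0 < min ε (min (min ((u : ℝ) / 2) ((1 - u) / 2))
              (min ((y : ℝ) / 2) ((1 - y) / 2))) :=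
            lt_min hε (lt_min (lt_min (by linarith) (by linarith))
              (lt_min (by linarith) (by linarith)))
          set δ := min ε (min (min ((u : ℝ) / 2) ((1 - u) / 2))
              (min ((y : ℝ) / 2) ((1 - y) / 2))) with hδdef
          have e1 : δ ≤ ε := min_le_left _ _
          have e2 : δ ≤ (u : ℝ) / 2 := (min_le_right _ _).trans ((min_le_left _ _).trans
            (min_le_left _ _))
          have e3 : δ ≤ (1 - (u : ℝ)) / 2 := (min_le_right _ _).trans ((min_le_left _ _).trans
            (min_le_right _ _))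
          have e4 : δ ≤ (y : ℝ) / 2 := (min_le_right _ _).trans ((min_le_right _ _).trans
            (min_le_left _ _))
          have e5 : δ ≤ (1 - (y : ℝ)) / 2 := (min_le_right _ _).trans ((min_le_right _ _).trans
            (min_le_right _ _))
          have := onDisc_rect R f (kept R f L) g (u : ℝ) (y : ℝ) δ hδ (by linarith) (by linarith)
            (by linarith) (by linarith) (fun t r ht hr => mem_kept_ept R f L _ _
              (hball t r (lt_of_lt_of_le ht e1) (lt_of_lt_of_le hr e1)))
          rw [cl_coe, cl_coe] at this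
          exact this
  apply not_collapses R f hR hf.1 (kept R f L) E
  · apply IsCompact.union
    · exact isCompact_iUnion fun j => isCompact_range (continuous_cpt R hf.1 j)
    · exact isCompact_iUnion fun g =>
        ((isClosed_region (fun k => continuous_hs R hf.1 k) (L g)).isCompact).image
          (continuous_ept R f g)
  · exact ⟨_, mem_kept_cpt R f L ⟨0, hn⟩ (circlePt 0)⟩
  · exact (Set.finite_univ.prod (hF.union (Set.toFinite _))).image _
  · exact hdisc
  · intro U hU ⟨x, hxU, hxS⟩
    by_cases hxE : x ∈ E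
    · obtain ⟨⟨⟨j, i⟩, u⟩, -, rfl⟩ := hxE
      have h1 : s (⟨j, i⟩, u) = cpt R f j (bp R j i u) := (cpt_bp R f j i u).symm
      rw [h1] at hxU
      have h2 : Continuous fun c : I => cpt R f j (shr c (bp R j i u)) :=
        (continuous_cpt R hf.1 j).comp (continuous_shr.comp
          (continuous_id.prodMk continuous_const))
      have h3 : ∀ᶠ c : I in 𝓝 0, cpt R f j (shr c (bp R j i u)) ∈ U := by
        apply h2.continuousAt.eventually
        have h0 : (fun c : I => cpt R f j (shr c (bp R j i u))) 0 = cpt R f j (bp R j i u) := by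
          show cpt R f j (shr 0 (bp R j i u)) = _
          rw [shr_zero]
        rw [h0]
        exact hU.mem_nhds hxU
      obtain ⟨ε, hε, hball⟩ := exists_eps h3
      have h4 : (Ioo (0:ℝ) (min ε 1)).Infinite := Set.Ioo_infinite (lt_min hε one_pos)
      refine (h4.image (f := fun c => cpt R f j (shr (cl c) (bp R j i u))) ?_).mono ?_
      · intro c hc c' hc' h
        have e1 : ((cl c : I) : ℝ) = c := cl_of_mem hc.1.le (hc.2.le.trans (min_le_right _ _))
        have e1' : ((cl c' : I) : ℝ) = c' := cl_of_mem hc'.1.le (hc'.2.le.trans (min_le_right _ _))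
        have hlt : c < 1 := lt_of_lt_of_le hc.2 (min_le_right _ _)
        have h5 := (cpt_inj R f h (by
          rw [norm_shr _ _ (norm_bp R j i u), e1]
          linarith [hc.1])).2
        have h6 := (shr_inj (norm_bp R j i u) (norm_bp R j i u) (by rw [e1]; exact hlt) h5).1
        rw [← e1, ← e1', h6]
      · rintro _ ⟨c, hc, rfl⟩
        refine ⟨hball c ?_, mem_kept_cpt R f L j _⟩
        show |c - ((0:I) : ℝ)| < ε
        rw [I_coe_zero, sub_zero, abs_of_pos hc.1]
        exact lt_of_lt_of_le hc.2 (min_le_left _ _)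
    · obtain ⟨O, φ, hO, hφ, hφi, hφm, p, hp, hpx⟩ := hdisc x ⟨hxS, hxE⟩
      have h1 : IsOpen (O ∩ φ ⁻¹' U) := hφ.isOpen_inter_preimage hO hU
      have h2 : (O ∩ φ ⁻¹' U).Infinite := by
        have h3 : O ∩ φ ⁻¹' U ∈ 𝓝 p := h1.mem_nhds ⟨hp, by show φ p ∈ U; rw [hpx]; exact hxU⟩
        exact infinite_of_mem_nhds p h3
      refine (h2.image (f := φ) (hφi.mono inter_subset_left)).mono ?_
      rintro _ ⟨q, ⟨hq, hqU⟩, rfl⟩
      exact ⟨hqU, hφm hq⟩

end Pool.Agent.W623.Pris
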