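import Mathlib
import Pool.Agent.W623.Pris.Kept
import Pool.Agent.W623.Pris.Core

/-!
# A basis of the free group of rank three whose complex is not prismatically collapsible

The relators are `a b a b b c`, `b` and `b c⁻¹ b⁻¹ a b b c`.
-/

set_option autoImplicit false

open Set Filter Topology Metric Relation unitInterval

namespace Pool.Agent.W623.Pris

/-- The relators `a b a b b c`, `b`, `b c⁻¹ b⁻¹ a b b c`, with `a = 0`, `b = 1`, `c = 2`. -/
def exR : Fin 3 → Word 3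
  | 0 => [(0, true), (1, true), (0, true), (1, true), (1, true), (2, true)]
  | 1 => [(1, true)]
  | 2 => [(1, true), (2, false), (1, false), (0, true), (1, true), (1, true), (2, true)]

variable (f : Fin 3 → Disk → I)

/-- Heights of the corners. -/
noncomputable def cr (j : Fin 3) (m : ℕ) : I := f j (circlePt ((m : ℝ) / (exR j).length))

theorem tau_true_zero : tau true 0 = 0 := by simp [tau]
theorem tau_true_one : tau true 1 = 1 := by simp [tau]
theorem tau_false_zero : tau false 0 = 1 := by simp [tau]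
theorem tau_false_one : tau false 1 = 0 := by simp [tau]

theorem hs_pos_zero (j : Fin 3) (i : Fin (exR j).length) (h : ((exR j).get i).2 = true) :
    hs exR f ⟨j, i⟩ 0 = cr f j i := by
  show f j (circlePt (((i : ℕ) + (tau ((exR j).get i).2 0 : ℝ)) / (exR j).length)) = _
  rw [h, tau_true_zero, I_coe_zero, add_zero]
  rfl

theorem hs_pos_one (j : Fin 3) (i : Fin (exR j).length) (h : ((exR j).get i).2 = true) :
    hs exR f ⟨j, i⟩ 1 = cr f j (i + 1) := by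
  show f j (circlePt (((i : ℕ) + (tau ((exR j).get i).2 1 : ℝ)) / (exR j).length)) = _
  rw [h, tau_true_one]
  unfold cr
  push_cast
  rfl

theorem hs_neg_zero (j : Fin 3) (i : Fin (exR j).length) (h : ((exR j).get i).2 = false) :
    hs exR f ⟨j, i⟩ 0 = cr f j (i + 1) := by
  show f j (circlePt (((i : ℕ) + (tau ((exR j).get i).2 0 : ℝ)) / (exR j).length)) = _
  rw [h, tau_false_zero]
  unfold cr
  push_cast
  rfl

theorem hs_neg_one (j : Fin 3) (i : Fin (exR j).length) (h : ((exR j).get i).2 = false) :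
    hs exR f ⟨j, i⟩ 1 = cr f j i := by
  show f j (circlePt (((i : ℕ) + (tau ((exR j).get i).2 1 : ℝ)) / (exR j).length)) = _
  rw [h, tau_false_one, I_coe_zero, add_zero]
  rfl

theorem cr_wrap (j : Fin 3) (hl : (exR j).length ≠ 0) :
    cr f j (exR j).length = cr f j 0 := by
  unfold cr
  congr 1
  rw [circlePt_eq_iff]
  refine ⟨1, ?_⟩
  have : ((exR j).length : ℝ) ≠ 0 := by exact_mod_cast hl
  field_simp
  simp

/-- The strand of letter 0 of relator 0. -/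
def s0 : Occ exR := ⟨0, ⟨0, by decide⟩⟩
/-- The strand of letter 1 of relator 0. -/
def s1 : Occ exR := ⟨0, ⟨1, by decide⟩⟩
/-- The strand of letter 2 of relator 0. -/
def s2 : Occ exR := ⟨0, ⟨2, by decide⟩⟩
/-- The strand of letter 3 of relator 0. -/
def s3 : Occ exR := ⟨0, ⟨3, by decide⟩⟩
/-- The strand of letter 4 of relator 0. -/
def s4 : Occ exR := ⟨0, ⟨4, by decide⟩⟩
/-- The strand of letter 5 of relator 0. -/
def s5 : Occ exR := ⟨0, ⟨5, by decide⟩⟩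
/-- The strand of letter 0 of relator 1. -/
def s6 : Occ exR := ⟨1, ⟨0, by decide⟩⟩
/-- The strand of letter 0 of relator 2. -/
def s7 : Occ exR := ⟨2, ⟨0, by decide⟩⟩
/-- The strand of letter 1 of relator 2. -/
def s8 : Occ exR := ⟨2, ⟨1, by decide⟩⟩
/-- The strand of letter 2 of relator 2. -/
def s9 : Occ exR := ⟨2, ⟨2, by decide⟩⟩
/-- The strand of letter 3 of relator 2. -/
def s10 : Occ exR := ⟨2, ⟨3, by decide⟩⟩
/-- The strand of letter 4 of relator 2. -/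
def s11 : Occ exR := ⟨2, ⟨4, by decide⟩⟩
/-- The strand of letter 5 of relator 2. -/
def s12 : Occ exR := ⟨2, ⟨5, by decide⟩⟩
/-- The strand of letter 6 of relator 2. -/
def s13 : Occ exR := ⟨2, ⟨6, by decide⟩⟩

theorem v0a : hs exR f s0 0 = cr f 0 0 :=
  hs_pos_zero f 0 ⟨0, by decide⟩ rfl
theorem v0b : hs exR f s0 1 = cr f 0 1 :=
  hs_pos_one f 0 ⟨0, by decide⟩ rfl
theorem v1a : hs exR f s1 0 = cr f 0 1 :=
  hs_pos_zero f 0 ⟨1, by decide⟩ rfl
theorem v1b : hs exR f s1 1 = cr f 0 2 :=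
  hs_pos_one f 0 ⟨1, by decide⟩ rfl
theorem v2a : hs exR f s2 0 = cr f 0 2 :=
  hs_pos_zero f 0 ⟨2, by decide⟩ rfl
theorem v2b : hs exR f s2 1 = cr f 0 3 :=
  hs_pos_one f 0 ⟨2, by decide⟩ rfl
theorem v3a : hs exR f s3 0 = cr f 0 3 :=
  hs_pos_zero f 0 ⟨3, by decide⟩ rfl
theorem v3b : hs exR f s3 1 = cr f 0 4 :=
  hs_pos_one f 0 ⟨3, by decide⟩ rfl
theorem v4a : hs exR f s4 0 = cr f 0 4 :=
  hs_pos_zero f 0 ⟨4, by decide⟩ rfl
theorem v4b : hs exR f s4 1 = cr f 0 5 :=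
  hs_pos_one f 0 ⟨4, by decide⟩ rfl
theorem v5a : hs exR f s5 0 = cr f 0 5 :=
  hs_pos_zero f 0 ⟨5, by decide⟩ rfl
theorem v5b : hs exR f s5 1 = cr f 0 0 :=
  (hs_pos_one f 0 ⟨5, by decide⟩ rfl).trans (cr_wrap f 0 (by decide))
theorem v6a : hs exR f s6 0 = cr f 1 0 :=
  hs_pos_zero f 1 ⟨0, by decide⟩ rfl
theorem v6b : hs exR f s6 1 = cr f 1 0 :=
  (hs_pos_one f 1 ⟨0, by decide⟩ rfl).trans (cr_wrap f 1 (by decide))
theorem v7a : hs exR f s7 0 = cr f 2 0 :=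
  hs_pos_zero f 2 ⟨0, by decide⟩ rfl
theorem v7b : hs exR f s7 1 = cr f 2 1 :=
  hs_pos_one f 2 ⟨0, by decide⟩ rfl
theorem v8a : hs exR f s8 0 = cr f 2 2 :=
  hs_neg_zero f 2 ⟨1, by decide⟩ rfl
theorem v8b : hs exR f s8 1 = cr f 2 1 :=
  hs_neg_one f 2 ⟨1, by decide⟩ rfl
theorem v9a : hs exR f s9 0 = cr f 2 3 :=
  hs_neg_zero f 2 ⟨2, by decide⟩ rfl
theorem v9b : hs exR f s9 1 = cr f 2 2 :=
  hs_neg_one f 2 ⟨2, by decide⟩ rfl
theorem v10a : hs exR f s10 0 = cr f 2 3 :=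
  hs_pos_zero f 2 ⟨3, by decide⟩ rfl
theorem v10b : hs exR f s10 1 = cr f 2 4 :=
  hs_pos_one f 2 ⟨3, by decide⟩ rfl
theorem v11a : hs exR f s11 0 = cr f 2 4 :=
  hs_pos_zero f 2 ⟨4, by decide⟩ rfl
theorem v11b : hs exR f s11 1 = cr f 2 5 :=
  hs_pos_one f 2 ⟨4, by decide⟩ rfl
theorem v12a : hs exR f s12 0 = cr f 2 5 :=
  hs_pos_zero f 2 ⟨5, by decide⟩ rfl
theorem v12b : hs exR f s12 1 = cr f 2 6 :=
  hs_pos_one f 2 ⟨5, by decide⟩ rfl
theorem v13a : hs exR f s13 0 = cr f 2 6 :=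
  hs_pos_zero f 2 ⟨6, by decide⟩ rfl
theorem v13b : hs exR f s13 1 = cr f 2 0 :=
  (hs_pos_one f 2 ⟨6, by decide⟩ rfl).trans (cr_wrap f 2 (by decide))

theorem occ0 : occ exR 0 = {s0, s2, s10} := by decide

theorem ex_occ0 (P : Occ exR → Prop) : (∃ k ∈ occ exR 0, P k) ↔
    P s0 ∨ P s2 ∨ P s10 := by
  rw [occ0]; simp only [Finset.mem_insert, Finset.mem_singleton, exists_eq_or_imp, exists_eq_left]

theorem all_occ0 (P : Occ exR → Prop) : (∀ k ∈ occ exR 0, P k) ↔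
    P s0 ∧ P s2 ∧ P s10 := by
  rw [occ0]; simp only [Finset.mem_insert, Finset.mem_singleton, forall_eq_or_imp, forall_eq]

theorem occ1 : occ exR 1 = {s1, s3, s4, s6, s7, s9, s11, s12} := by decide

theorem ex_occ1 (P : Occ exR → Prop) : (∃ k ∈ occ exR 1, P k) ↔
    P s1 ∨ P s3 ∨ P s4 ∨ P s6 ∨ P s7 ∨ P s9 ∨ P s11 ∨ P s12 := by
  rw [occ1]; simp only [Finset.mem_insert, Finset.mem_singleton, exists_eq_or_imp, exists_eq_left]

theorem all_occ1 (P : Occ exR → Prop) : (∀ k ∈ occ exR 1, P k) ↔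
    P s1 ∧ P s3 ∧ P s4 ∧ P s6 ∧ P s7 ∧ P s9 ∧ P s11 ∧ P s12 := by
  rw [occ1]; simp only [Finset.mem_insert, Finset.mem_singleton, forall_eq_or_imp, forall_eq]

theorem occ2 : occ exR 2 = {s5, s8, s13} := by decide

theorem ex_occ2 (P : Occ exR → Prop) : (∃ k ∈ occ exR 2, P k) ↔
    P s5 ∨ P s8 ∨ P s13 := by
  rw [occ2]; simp only [Finset.mem_insert, Finset.mem_singleton, exists_eq_or_imp, exists_eq_left]

theorem all_occ2 (P : Occ exR → Prop) : (∀ k ∈ occ exR 2, P k) ↔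
    P s5 ∧ P s8 ∧ P s13 := by
  rw [occ2]; simp only [Finset.mem_insert, Finset.mem_singleton, forall_eq_or_imp, forall_eq]

end Pool.Agent.W623.Pris
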