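import Mathlib
import Pool.Agent.W623.Pris.Example

/-!
# The relators of the example form a basis of the free group
-/

set_option autoImplicit false

namespace Pool.Agent.W623.Pris

/-- The endomorphism of the free group given by the relators. -/
def relHom : FreeGroup (Fin 3) →* FreeGroup (Fin 3) :=
  FreeGroup.lift fun j => FreeGroup.mk (exR j)

/-- The image of `a` under the inverse. -/
def invA : FreeGroup (Fin 3) := FreeGroup.of 0 * (FreeGroup.of 1)⁻¹ * FreeGroup.of 2 *
  (FreeGroup.of 0)⁻¹ * (FreeGroup.of 1)⁻¹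

/-- The images of the generators under the inverse. -/
def invVal : Fin 3 → FreeGroup (Fin 3)
  | 0 => invA
  | 1 => FreeGroup.of 1
  | 2 => (FreeGroup.of 1)⁻¹ * (FreeGroup.of 1)⁻¹ * invA⁻¹ * (FreeGroup.of 1)⁻¹ * invA⁻¹ *
      FreeGroup.of 0

theorem mk0 : FreeGroup.mk (exR 0) = FreeGroup.of 0 * FreeGroup.of 1 * FreeGroup.of 0 *
    FreeGroup.of 1 * FreeGroup.of 1 * FreeGroup.of 2 := rfl

theorem mk1 : FreeGroup.mk (exR 1) = FreeGroup.of 1 := rfl

theorem mk2 : FreeGroup.mk (exR 2) = FreeGroup.of 1 * (FreeGroup.of 2)⁻¹ * (FreeGroup.of 1)⁻¹ *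
    FreeGroup.of 0 * FreeGroup.of 1 * FreeGroup.of 1 * FreeGroup.of 2 := rfl

theorem comp1 : (FreeGroup.lift invVal).comp relHom = MonoidHom.id _ := by
  apply FreeGroup.ext_hom
  intro j
  have hj : j = 0 ∨ j = 1 ∨ j = 2 := by fin_cases j <;> simp
  rcases hj with rfl | rfl | rfl
  · show FreeGroup.lift invVal (relHom (FreeGroup.of 0)) = FreeGroup.of 0
    unfold relHom
    rw [FreeGroup.lift_apply_of, mk0]
    simp only [map_mul, map_inv, FreeGroup.lift_apply_of, invVal, invA]
    group
  · show FreeGroup.lift invVal (relHom (FreeGroup.of 1)) = FreeGroup.of 1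
    unfold relHom
    rw [FreeGroup.lift_apply_of, mk1]
    simp only [FreeGroup.lift_apply_of, invVal]
  · show FreeGroup.lift invVal (relHom (FreeGroup.of 2)) = FreeGroup.of 2
    unfold relHom
    rw [FreeGroup.lift_apply_of, mk2]
    simp only [map_mul, map_inv, FreeGroup.lift_apply_of, invVal, invA]
    group

theorem relHom_invA : relHom invA = FreeGroup.of 0 := by
  unfold invA relHom
  simp only [map_mul, map_inv, FreeGroup.lift_apply_of, mk0, mk1, mk2]
  group

theorem comp2 : relHom.comp (FreeGroup.lift invVal) = MonoidHom.id _ := by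
  apply FreeGroup.ext_hom
  intro j
  have hj : j = 0 ∨ j = 1 ∨ j = 2 := by fin_cases j <;> simp
  rcases hj with rfl | rfl | rfl
  · show relHom (FreeGroup.lift invVal (FreeGroup.of 0)) = FreeGroup.of 0
    rw [FreeGroup.lift_apply_of]
    exact relHom_invA
  · show relHom (FreeGroup.lift invVal (FreeGroup.of 1)) = FreeGroup.of 1
    rw [FreeGroup.lift_apply_of]
    show relHom (FreeGroup.of 1) = _
    unfold relHom
    rw [FreeGroup.lift_apply_of, mk1]
  · show relHom (FreeGroup.lift invVal (FreeGroup.of 2)) = FreeGroup.of 2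
    rw [FreeGroup.lift_apply_of]
    show relHom ((FreeGroup.of 1)⁻¹ * (FreeGroup.of 1)⁻¹ * invA⁻¹ * (FreeGroup.of 1)⁻¹ * invA⁻¹ *
      FreeGroup.of 0) = _
    simp only [map_mul, map_inv, relHom_invA]
    unfold relHom
    simp only [FreeGroup.lift_apply_of, mk0, mk1]
    group

/-- The relators form a basis. -/
theorem ex_basis : ∃ e : FreeGroup (Fin 3) ≃* FreeGroup (Fin 3),
    ∀ j, e (FreeGroup.of j) = FreeGroup.mk (exR j) :=
  ⟨MonoidHom.toMulEquiv relHom (FreeGroup.lift invVal) comp1 comp2, fun j => by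
    show relHom (FreeGroup.of j) = _
    unfold relHom
    rw [FreeGroup.lift_apply_of]⟩

theorem ex_reduced : ∀ j, FreeGroup.IsReduced (exR j) := by
  intro j
  have hj : j = 0 ∨ j = 1 ∨ j = 2 := by fin_cases j <;> simp
  rcases hj with rfl | rfl | rfl
  · show List.IsChain _ [(0, true), (1, true), (0, true), (1, true), (1, true), (2, true)]
    simp
  · exact FreeGroup.IsReduced.singleton
  · show List.IsChain _ [(1, true), (2, false), (1, false), (0, true), (1, true), (1, true),
      (2, true)]
    simp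

end Pool.Agent.W623.Pris
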