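import Mathlib
import Pool.Agent.W623.Pris.Example

/-!
# The cuts of the example and the analysis of the vertex line
-/

set_option autoImplicit false

open Set Filter Topology Metric Relation unitInterval

namespace Pool.Agent.W623.Pris

variable (f : Fin 3 → Disk → I)

/-- The group of `X` lies on the side `s` of the group of `Y`. -/
def sepL (s : ℝ) (X Y : List ℝ) : Prop := ∀ x ∈ X, ∀ y ∈ Y, 0 < s * (x - y)

/-- Corners at the end of `a`. -/
noncomputable def lal : List ℝ := [(cr f 0 1 : ℝ), (cr f 0 3 : ℝ), (cr f 2 4 : ℝ)]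
/-- Corners at the start of `c`. -/
noncomputable def lga : List ℝ := [(cr f 0 5 : ℝ), (cr f 2 2 : ℝ), (cr f 2 6 : ℝ)]
/-- The other corners. -/
noncomputable def lka : List ℝ := [(cr f 0 0 : ℝ), (cr f 0 2 : ℝ), (cr f 0 4 : ℝ), (cr f 1 0 : ℝ),
  (cr f 2 0 : ℝ), (cr f 2 1 : ℝ), (cr f 2 3 : ℝ), (cr f 2 5 : ℝ)]

/-- The condition for the cut at the start of `b`. -/
def condA (s : ℝ) : Prop := sepL s (lal f) (lka f) ∧ (sepL s (lal f) (lga f) ∨
  ((∃ t : ℝ, (t = 1 ∨ t = -1) ∧ sepL t (lga f) (lka f)) ∧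
    ∃ r : ℝ, (r = 1 ∨ r = -1) ∧ sepL r (lal f) (lga f)))

/-- The condition for the cut at the end of `b`. -/
def condG (s : ℝ) : Prop := sepL s (lga f) (lka f) ∧ (sepL s (lga f) (lal f) ∨
  ((∃ t : ℝ, (t = 1 ∨ t = -1) ∧ sepL t (lal f) (lka f)) ∧
    ∃ r : ℝ, (r = 1 ∨ r = -1) ∧ sepL r (lal f) (lga f)))

theorem condA_iff (s t : ℝ) (ht : t = 1 ∨ t = -1) (hs : s = 1 ∨ s = -1)
    (h1 : sepL s (lal f) (lka f)) (h2 : sepL t (lga f) (lka f)) :
    condA f s ↔ ∃ r : ℝ, (r = 1 ∨ r = -1) ∧ sepL r (lal f) (lga f) := by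
  constructor
  · rintro ⟨-, h | ⟨-, h⟩⟩
    · exact ⟨s, hs, h⟩
    · exact h
  · intro h
    exact ⟨h1, Or.inr ⟨⟨t, ht, h2⟩, h⟩⟩

theorem sepL_swap (s : ℝ) (X Y : List ℝ) (h : sepL s X Y) : sepL (-s) Y X := by
  intro y hy x hx
  have := h x hx y hy
  linarith

theorem condG_iff (s t : ℝ) (ht : t = 1 ∨ t = -1) (hs : s = 1 ∨ s = -1)
    (h1 : sepL s (lga f) (lka f)) (h2 : sepL t (lal f) (lka f)) :
    condG f s ↔ ∃ r : ℝ, (r = 1 ∨ r = -1) ∧ sepL r (lal f) (lga f) := by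
  constructor
  · rintro ⟨-, h | ⟨-, h⟩⟩
    · refine ⟨-s, ?_, sepL_swap s _ _ h⟩
      rcases hs with rfl | rfl
      · right; rfl
      · left; norm_num
    · exact h
  · intro h
    exact ⟨h1, Or.inr ⟨⟨t, ht, h2⟩, h⟩⟩

/-- The `b`-strands starting at the end of `a`. -/
def sA : Finset (Occ exR) := {s1, s3, s11}
/-- The `b`-strands ending at the start of `c`. -/
def sG : Finset (Occ exR) := {s4, s9, s12}

/-- The cut at the start of `b`. -/
def cutA (s : ℝ) : Cut (Occ exR) := ⟨0, s, sA, condA f s⟩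
/-- The cut at the end of `b`. -/
def cutG (s : ℝ) : Cut (Occ exR) := ⟨1, s, sG, condG f s⟩

/-- The cuts of the three rectangles. -/
def exL (g : Fin 3) : Set (Cut (Occ exR)) :=
  {C | g = 1 ∧ ∃ s : ℝ, (s = 1 ∨ s = -1) ∧ (C = cutA f s ∨ C = cutG f s)}

theorem exL_finite (g : Fin 3) : (exL f g).Finite := by
  refine (Set.toFinite {cutA f 1, cutA f (-1), cutG f 1, cutG f (-1)}).subset ?_
  rintro C ⟨-, s, rfl | rfl, rfl | rfl⟩ <;> simp

theorem exL_ne (g : Fin 3) : ∀ C ∈ exL f g, C.s ≠ 0 := by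
  rintro C ⟨-, s, rfl | rfl, rfl | rfl⟩ <;> simp [cutA, cutG]

theorem exL_card (g : Fin 3) : ∀ x y : ℕ, SideCard (occ exR g) (exL f g) x →
    SideCard (occ exR g) (exL f g) y → x + y + 1 ≠ (occ exR g).card := by
  have c0 : (occ exR 0).card = 3 := by decide
  have c1 : (occ exR 1).card = 8 := by decide
  have c2 : (occ exR 2).card = 3 := by decide
  have hA : ((occ exR 1).filter (· ∈ sA)).card = 3 := by decide
  have hA' : ((occ exR 1).filter (· ∉ sA)).card = 5 := by decide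
  have hG : ((occ exR 1).filter (· ∈ sG)).card = 3 := by decide
  have hG' : ((occ exR 1).filter (· ∉ sG)).card = 5 := by decide
  have hno : ∀ g : Fin 3, g ≠ 1 → ∀ x, SideCard (occ exR g) (exL f g) x → x = 0 := by
    intro g hg x h
    rcases h with h | ⟨C, hC, -⟩
    · exact h
    · exact absurd hC.1 hg
  have hyes : ∀ x, SideCard (occ exR 1) (exL f 1) x → x = 0 ∨ x = 3 ∨ x = 5 := by
    intro x h
    rcases h with h | ⟨C, ⟨-, s, -, rfl | rfl⟩, h⟩
    · exact Or.inl h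
    · change x = ((occ exR 1).filter (· ∈ sA)).card ∨ x = ((occ exR 1).filter (· ∉ sA)).card at h
      rw [hA, hA'] at h
      exact Or.inr h
    · change x = ((occ exR 1).filter (· ∈ sG)).card ∨ x = ((occ exR 1).filter (· ∉ sG)).card at h
      rw [hG, hG'] at h
      exact Or.inr h
  intro x y hx hy
  have hg : g = 0 ∨ g = 1 ∨ g = 2 := by fin_cases g <;> simp
  rcases hg with rfl | rfl | rfl
  · rw [hno 0 (by decide) x hx, hno 0 (by decide) y hy, c0]; decide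
  · have h1 := hyes x hx
    have h2 := hyes y hy
    rw [c1]
    omega
  · rw [hno 2 (by decide) x hx, hno 2 (by decide) y hy, c2]; decide

/-! ### Positions relative to the groups -/

theorem sepAt_A0 (s : ℝ) (y : I) : (cutA f s).SepAt (occ exR 1) (hs exR f) 0 y ↔
    (0 < s * ((cr f 0 1 : ℝ) - y) ∧ 0 < s * ((cr f 0 3 : ℝ) - y) ∧ 0 < s * ((cr f 2 4 : ℝ) - y)) ∧
    (0 < s * ((y : ℝ) - cr f 0 4) ∧ 0 < s * ((y : ℝ) - cr f 1 0) ∧ 0 < s * ((y : ℝ) - cr f 2 0) ∧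
      0 < s * ((y : ℝ) - cr f 2 3) ∧ 0 < s * ((y : ℝ) - cr f 2 5)) := by
  unfold Cut.SepAt
  rw [all_occ1, all_occ1]
  simp only [cutA, v1a, v3a, v4a, v6a, v7a, v9a, v11a, v12a]
  have e1 : s1 ∈ sA := by decide
  have e3 : s3 ∈ sA := by decide
  have e4 : s4 ∉ sA := by decide
  have e6 : s6 ∉ sA := by decide
  have e7 : s7 ∉ sA := by decide
  have e9 : s9 ∉ sA := by decide
  have e11 : s11 ∈ sA := by decide
  have e12 : s12 ∉ sA := by decide
  simp only [e1, e3, e4, e6, e7, e9, e11, e12, not_true_eq_false, not_false_eq_true,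
    false_imp_iff, true_imp_iff, true_and, and_true]

theorem sepAt_A1 (s : ℝ) (y : I) : (cutA f s).SepAt (occ exR 1) (hs exR f) 1 y ↔
    (0 < s * ((cr f 0 2 : ℝ) - y) ∧ 0 < s * ((cr f 0 4 : ℝ) - y) ∧ 0 < s * ((cr f 2 5 : ℝ) - y)) ∧
    (0 < s * ((y : ℝ) - cr f 0 5) ∧ 0 < s * ((y : ℝ) - cr f 1 0) ∧ 0 < s * ((y : ℝ) - cr f 2 1) ∧
      0 < s * ((y : ℝ) - cr f 2 2) ∧ 0 < s * ((y : ℝ) - cr f 2 6)) := by
  unfold Cut.SepAt
  rw [all_occ1, all_occ1]
  simp only [cutA, v1b, v3b, v4b, v6b, v7b, v9b, v11b, v12b]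
  have e1 : s1 ∈ sA := by decide
  have e3 : s3 ∈ sA := by decide
  have e4 : s4 ∉ sA := by decide
  have e6 : s6 ∉ sA := by decide
  have e7 : s7 ∉ sA := by decide
  have e9 : s9 ∉ sA := by decide
  have e11 : s11 ∈ sA := by decide
  have e12 : s12 ∉ sA := by decide
  simp only [e1, e3, e4, e6, e7, e9, e11, e12, not_true_eq_false, not_false_eq_true,
    false_imp_iff, true_imp_iff, true_and, and_true]

theorem sepAt_G0 (s : ℝ) (y : I) : (cutG f s).SepAt (occ exR 1) (hs exR f) 0 y ↔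
    (0 < s * ((cr f 0 4 : ℝ) - y) ∧ 0 < s * ((cr f 2 3 : ℝ) - y) ∧ 0 < s * ((cr f 2 5 : ℝ) - y)) ∧
    (0 < s * ((y : ℝ) - cr f 0 1) ∧ 0 < s * ((y : ℝ) - cr f 0 3) ∧ 0 < s * ((y : ℝ) - cr f 1 0) ∧
      0 < s * ((y : ℝ) - cr f 2 0) ∧ 0 < s * ((y : ℝ) - cr f 2 4)) := by
  unfold Cut.SepAt
  rw [all_occ1, all_occ1]
  simp only [cutG, v1a, v3a, v4a, v6a, v7a, v9a, v11a, v12a]
  have e1 : s1 ∉ sG := by decide
  have e3 : s3 ∉ sG := by decide
  have e4 : s4 ∈ sG := by decide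
  have e6 : s6 ∉ sG := by decide
  have e7 : s7 ∉ sG := by decide
  have e9 : s9 ∈ sG := by decide
  have e11 : s11 ∉ sG := by decide
  have e12 : s12 ∈ sG := by decide
  simp only [e1, e3, e4, e6, e7, e9, e11, e12, not_true_eq_false, not_false_eq_true,
    false_imp_iff, true_imp_iff, true_and, and_true]

theorem sepAt_G1 (s : ℝ) (y : I) : (cutG f s).SepAt (occ exR 1) (hs exR f) 1 y ↔
    (0 < s * ((cr f 0 5 : ℝ) - y) ∧ 0 < s * ((cr f 2 2 : ℝ) - y) ∧ 0 < s * ((cr f 2 6 : ℝ) - y)) ∧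
    (0 < s * ((y : ℝ) - cr f 0 2) ∧ 0 < s * ((y : ℝ) - cr f 0 4) ∧ 0 < s * ((y : ℝ) - cr f 1 0) ∧
      0 < s * ((y : ℝ) - cr f 2 1) ∧ 0 < s * ((y : ℝ) - cr f 2 5)) := by
  unfold Cut.SepAt
  rw [all_occ1, all_occ1]
  simp only [cutG, v1b, v3b, v4b, v6b, v7b, v9b, v11b, v12b]
  have e1 : s1 ∉ sG := by decide
  have e3 : s3 ∉ sG := by decide
  have e4 : s4 ∈ sG := by decide
  have e6 : s6 ∉ sG := by decide
  have e7 : s7 ∉ sG := by decide
  have e9 : s9 ∈ sG := by decide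
  have e11 : s11 ∉ sG := by decide
  have e12 : s12 ∈ sG := by decide
  simp only [e1, e3, e4, e6, e7, e9, e11, e12, not_true_eq_false, not_false_eq_true,
    false_imp_iff, true_imp_iff, true_and, and_true]

theorem act_own (C : Cut (Occ exR)) (u : I) (he : C.e = u) (y : ℝ)
    (h : C.SepAt (occ exR 1) (hs exR f) u y) :
    C.Act (occ exR 1) (hs exR f) u ↔ C.c := by
  constructor
  · exact fun h => h.1
  · intro hc
    refine ⟨hc, ?_⟩
    intro u' hu'
    rw [he, uIcc_self, mem_singleton_iff] at hu'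
    rw [hu']
    exact h.sep

/-- The two cuts cannot both reach the other end of `b`. -/
theorem not_both (s s' : ℝ) (hs : s = 1 ∨ s = -1) (hs' : s' = 1 ∨ s' = -1)
    (h : (cutG f s).Act (occ exR 1) (Pris.hs exR f) 0)
    (h' : (cutA f s').Act (occ exR 1) (Pris.hs exR f) 1) : False := by
  have m1 : s1 ∈ occ exR 1 := by decide
  have m3 : s3 ∈ occ exR 1 := by decide
  have m4 : s4 ∈ occ exR 1 := by decide
  have m6 : s6 ∈ occ exR 1 := by decide
  have a1 : s3 ∈ sA := by decide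
  have a2 : s4 ∉ sA := by decide
  have a3 : s6 ∉ sA := by decide
  have g1 : s3 ∉ sG := by decide
  have g2 : s4 ∈ sG := by decide
  have g3 : s6 ∉ sG := by decide
  have e1 := h.2 0 right_mem_uIcc s4 m4 s6 m6 g2 g3
  have e2 := h.2 0 right_mem_uIcc s4 m4 s3 m3 g2 g1
  have e3 := h'.2 1 right_mem_uIcc s3 m3 s6 m6 a1 a3
  have e4 := h'.2 0 left_mem_uIcc s3 m3 s4 m4 a1 a2
  rw [v4a, v6a] at e1
  rw [v4a, v3a] at e2
  rw [v3b, v6b] at e3
  rw [v3a, v4a] at e4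
  change 0 < s * _ at e1
  change 0 < s * _ at e2
  change 0 < s' * _ at e3
  change 0 < s' * _ at e4
  rcases hs with rfl | rfl <;> rcases hs' with rfl | rfl <;> linarith

end Pool.Agent.W623.Pris
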