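import Mathlib
import Pool.Agent.W623.Pris.Vertex

/-!
# The example is not prismatically collapsible
-/

set_option autoImplicit false

open Set Filter Topology Metric Relation unitInterval

namespace Pool.Agent.W623.Pris

variable (f : Fin 3 → Disk → I)

theorem region_no_cut (g : Fin 3) (hg : g ≠ 1) (u y : I) :
    (u, y) ∈ keptRegion exR f (exL f) g ↔
      (∃ k ∈ occ exR g, (hs exR f k u : ℝ) ≤ y) ∧ (∃ k ∈ occ exR g, (y : ℝ) ≤ hs exR f k u) := by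
  constructor
  · rintro ⟨h1, h2, -⟩
    exact ⟨h1, h2⟩
  · rintro ⟨h1, h2⟩
    refine ⟨h1, h2, ?_⟩
    rintro C ⟨hC, -⟩
    exact absurd hC hg

theorem region_cut (u y : I) :
    (u, y) ∈ keptRegion exR f (exL f) 1 ↔
      (∃ k ∈ occ exR 1, (hs exR f k u : ℝ) ≤ y) ∧ (∃ k ∈ occ exR 1, (y : ℝ) ≤ hs exR f k u) ∧
      (¬ ∃ s : ℝ, (s = 1 ∨ s = -1) ∧ (cutA f s).Act (occ exR 1) (hs exR f) u ∧
        (cutA f s).SepAt (occ exR 1) (hs exR f) u y) ∧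
      (¬ ∃ s : ℝ, (s = 1 ∨ s = -1) ∧ (cutG f s).Act (occ exR 1) (hs exR f) u ∧
        (cutG f s).SepAt (occ exR 1) (hs exR f) u y) := by
  constructor
  · rintro ⟨h1, h2, h3⟩
    refine ⟨h1, h2, ?_, ?_⟩
    · rintro ⟨s, hs, h4⟩
      exact h3 (cutA f s) ⟨rfl, s, hs, Or.inl rfl⟩ h4
    · rintro ⟨s, hs, h4⟩
      exact h3 (cutG f s) ⟨rfl, s, hs, Or.inr rfl⟩ h4
  · rintro ⟨h1, h2, h3, h4⟩
    refine ⟨h1, h2, ?_⟩
    rintro C ⟨-, s, hs, rfl | rfl⟩ h5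
    · exact h3 ⟨s, hs, h5⟩
    · exact h4 ⟨s, hs, h5⟩


theorem e1_aux (h0 h2 h10 e : Prop)
    (E : e ↔ (¬ h0 ∨ ¬ h2 ∨ ¬ h10) ∧ (h0 ∨ h2 ∨ h10)) :
    e ↔ (h0 ∨ h2 ∨ h10) ∧ ¬ (h0 ∧ h2 ∧ h10) := by
  rw [E, and_comm]
  apply and_congr Iff.rfl
  rw [not_and_or, not_and_or]

theorem e2_aux (h0 h2 h10 e : Prop)
    (E : e ↔ (¬ h0 ∨ ¬ h2 ∨ ¬ h10) ∧ (h0 ∨ h2 ∨ h10)) :
    e ↔ (h0 ∨ h2 ∨ h10) ∧ (¬ h0 ∨ ¬ h2 ∨ ¬ h10) := by
  rw [E, and_comm]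

theorem e5_aux (h1 h3 h4 h6 h7 h10 h11 h12 xA tG e : Prop)
    (E : e ↔ (¬ h1 ∨ ¬ h3 ∨ ¬ h4 ∨ ¬ h6 ∨ ¬ h7 ∨ ¬ h10 ∨ ¬ h11 ∨ ¬ h12) ∧
      (h1 ∨ h3 ∨ h4 ∨ h6 ∨ h7 ∨ h10 ∨ h11 ∨ h12) ∧ ¬ xA ∧ ¬ tG) :
    e ↔ ((h1 ∨ h3 ∨ h11) ∨ h4 ∨ h6 ∨ h7 ∨ h10 ∨ h12) ∧
      ((¬ h1 ∨ ¬ h3 ∨ ¬ h11) ∨ ¬ (h4 ∧ h6 ∧ h7 ∧ h10 ∧ h12)) ∧ ¬ xA ∧ ¬ tG := by
  rw [E, ← and_assoc, ← and_assoc, and_comm (a := _ ∨ _)]
  rw [and_assoc, and_assoc]
  apply and_congr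
  · constructor
    · rintro (h | h | h | h | h | h | h | h) <;> simp [h]
    · rintro ((h | h | h) | h | h | h | h | h) <;> simp [h]
  apply and_congr _ Iff.rfl
  rw [not_and_or, not_and_or, not_and_or, not_and_or]
  constructor
  · rintro (h | h | h | h | h | h | h | h) <;> simp [h]
  · rintro ((h | h | h) | h | h | h | h | h) <;> simp [h]

theorem e6_aux (h2 h4 h5 h6 h8 h9 h12 h13 xG tA e : Prop)
    (E : e ↔ (¬ h2 ∨ ¬ h4 ∨ ¬ h5 ∨ ¬ h6 ∨ ¬ h8 ∨ ¬ h9 ∨ ¬ h12 ∨ ¬ h13) ∧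
      (h2 ∨ h4 ∨ h5 ∨ h6 ∨ h8 ∨ h9 ∨ h12 ∨ h13) ∧ ¬ tA ∧ ¬ xG) :
    e ↔ ((h5 ∨ h9 ∨ h13) ∨ h2 ∨ h4 ∨ h6 ∨ h8 ∨ h12) ∧
      ((¬ h5 ∨ ¬ h9 ∨ ¬ h13) ∨ ¬ (h2 ∧ h4 ∧ h6 ∧ h8 ∧ h12)) ∧ ¬ xG ∧ ¬ tA := by
  rw [E, and_comm (a := ¬ tA), ← and_assoc, ← and_assoc, and_comm (a := _ ∨ _)]
  rw [and_assoc, and_assoc]
  apply and_congr
  · constructor
    · rintro (h | h | h | h | h | h | h | h) <;> simp [h]
    · rintro ((h | h | h) | h | h | h | h | h) <;> simp [h]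
  apply and_congr _ Iff.rfl
  rw [not_and_or, not_and_or, not_and_or, not_and_or]
  constructor
  · rintro (h | h | h | h | h | h | h | h) <;> simp [h]
  · rintro ((h | h | h) | h | h | h | h | h) <;> simp [h]

theorem sepL_of (s : ℝ) (X Y : List ℝ) (y : ℝ) (hX : ∀ x ∈ X, 0 < s * (x - y))
    (hY : ∀ x ∈ Y, 0 ≤ s * (y - x)) : sepL s X Y := by
  intro x hx x' hx'
  have h1 := hX x hx
  have h2 := hY x' hx'
  have : s * (x - x') = s * (x - y) + s * (y - x') := by ring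
  rw [this]; linarith

/-- The analysis of the vertex line. -/
theorem vertex_main (y : I) (hy : ∀ p : Occ exR, hs exR f p 0 ≠ y ∧ hs exR f p 1 ≠ y) :
    ∀ g (b : Bool), (tau b 0, y) ∈ keptRegion exR f (exL f) g →
      ∃ g' b', ¬ (g = g' ∧ b = b') ∧ (tau b' 0, y) ∈ keptRegion exR f (exL f) g' := by
  -- heights of corners differ from `y`
  have n0 : (cr f 0 0 : ℝ) ≠ y := fun h => (hy s0).1 (by rw [v0a]; exact Subtype.ext h)
  have n1 : (cr f 0 1 : ℝ) ≠ y := fun h => (hy s1).1 (by rw [v1a]; exact Subtype.ext h)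
  have n2 : (cr f 0 2 : ℝ) ≠ y := fun h => (hy s2).1 (by rw [v2a]; exact Subtype.ext h)
  have n3 : (cr f 0 3 : ℝ) ≠ y := fun h => (hy s3).1 (by rw [v3a]; exact Subtype.ext h)
  have n4 : (cr f 0 4 : ℝ) ≠ y := fun h => (hy s4).1 (by rw [v4a]; exact Subtype.ext h)
  have n5 : (cr f 0 5 : ℝ) ≠ y := fun h => (hy s5).1 (by rw [v5a]; exact Subtype.ext h)
  have n6 : (cr f 1 0 : ℝ) ≠ y := fun h => (hy s6).1 (by rw [v6a]; exact Subtype.ext h)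
  have n7 : (cr f 2 0 : ℝ) ≠ y := fun h => (hy s7).1 (by rw [v7a]; exact Subtype.ext h)
  have n8 : (cr f 2 1 : ℝ) ≠ y := fun h => (hy s8).2 (by rw [v8b]; exact Subtype.ext h)
  have n9 : (cr f 2 2 : ℝ) ≠ y := fun h => (hy s8).1 (by rw [v8a]; exact Subtype.ext h)
  have n10 : (cr f 2 3 : ℝ) ≠ y := fun h => (hy s10).1 (by rw [v10a]; exact Subtype.ext h)
  have n11 : (cr f 2 4 : ℝ) ≠ y := fun h => (hy s11).1 (by rw [v11a]; exact Subtype.ext h)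
  have n12 : (cr f 2 5 : ℝ) ≠ y := fun h => (hy s12).1 (by rw [v12a]; exact Subtype.ext h)
  have n13 : (cr f 2 6 : ℝ) ≠ y := fun h => (hy s13).1 (by rw [v13a]; exact Subtype.ext h)
  -- the six ends
  have E1 := region_no_cut f 0 (by decide) 0 y
  rw [ex_occ0, ex_occ0, v0a, v2a, v10a] at E1
  have E2 := region_no_cut f 0 (by decide) 1 y
  rw [ex_occ0, ex_occ0, v0b, v2b, v10b] at E2
  have E3 := region_no_cut f 2 (by decide) 0 y
  rw [ex_occ2, ex_occ2, v5a, v8a, v13a] at E3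
  have E4 := region_no_cut f 2 (by decide) 1 y
  rw [ex_occ2, ex_occ2, v5b, v8b, v13b] at E4
  have E5 := region_cut f 0 y
  rw [ex_occ1, ex_occ1, v1a, v3a, v4a, v6a, v7a, v9a, v11a, v12a] at E5
  have E6 := region_cut f 1 y
  rw [ex_occ1, ex_occ1, v1b, v3b, v4b, v6b, v7b, v9b, v11b, v12b] at E6
  -- the flags
  set xA : Prop := ∃ s : ℝ, (s = 1 ∨ s = -1) ∧ (cutA f s).Act (occ exR 1) (hs exR f) 0 ∧
        (cutA f s).SepAt (occ exR 1) (hs exR f) 0 y with hxA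
  set tG : Prop := ∃ s : ℝ, (s = 1 ∨ s = -1) ∧ (cutG f s).Act (occ exR 1) (hs exR f) 0 ∧
        (cutG f s).SepAt (occ exR 1) (hs exR f) 0 y with htG
  set tA : Prop := ∃ s : ℝ, (s = 1 ∨ s = -1) ∧ (cutA f s).Act (occ exR 1) (hs exR f) 1 ∧
        (cutA f s).SepAt (occ exR 1) (hs exR f) 1 y with htA
  set xG : Prop := ∃ s : ℝ, (s = 1 ∨ s = -1) ∧ (cutG f s).Act (occ exR 1) (hs exR f) 1 ∧
        (cutG f s).SepAt (occ exR 1) (hs exR f) 1 y with hxG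
  have H7 : ¬ (tG ∧ tA) := by
    rintro ⟨⟨s, hs, h1, -⟩, ⟨s', hs', h1', -⟩⟩
    exact not_both f s s' hs hs' h1 h1'
  have PA : xA → (¬ (¬ (y : ℝ) < cr f 0 1 ∨ ¬ (y : ℝ) < cr f 0 3 ∨ ¬ (y : ℝ) < cr f 2 4) ∧
      ¬ ((y : ℝ) < cr f 0 4 ∨ (y : ℝ) < cr f 1 0 ∨ (y : ℝ) < cr f 2 0 ∨ (y : ℝ) < cr f 2 3 ∨
        (y : ℝ) < cr f 2 5)) ∨
      (¬ ((y : ℝ) < cr f 0 1 ∨ (y : ℝ) < cr f 0 3 ∨ (y : ℝ) < cr f 2 4) ∧
      ((y : ℝ) < cr f 0 4 ∧ (y : ℝ) < cr f 1 0 ∧ (y : ℝ) < cr f 2 0 ∧ (y : ℝ) < cr f 2 3 ∧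
        (y : ℝ) < cr f 2 5)) := by
    rintro ⟨s, hs, -, h⟩
    rw [sepAt_A0] at h
    obtain ⟨⟨a1, a2, a3⟩, b1, b2, b3, b4, b5⟩ := h
    rcases hs with rfl | rfl
    · left
      push Not
      exact ⟨⟨by linarith, by linarith, by linarith⟩, by linarith, by linarith, by linarith,
        by linarith, by linarith⟩
    · right
      push Not
      exact ⟨⟨by linarith, by linarith, by linarith⟩, by linarith, by linarith, by linarith,
        by linarith, by linarith⟩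
  have PG : xG → (¬ (¬ (y : ℝ) < cr f 0 5 ∨ ¬ (y : ℝ) < cr f 2 2 ∨ ¬ (y : ℝ) < cr f 2 6) ∧
      ¬ ((y : ℝ) < cr f 0 2 ∨ (y : ℝ) < cr f 0 4 ∨ (y : ℝ) < cr f 2 5 ∨ (y : ℝ) < cr f 1 0 ∨
        (y : ℝ) < cr f 2 1)) ∨
      (¬ ((y : ℝ) < cr f 0 5 ∨ (y : ℝ) < cr f 2 2 ∨ (y : ℝ) < cr f 2 6) ∧
      ((y : ℝ) < cr f 0 2 ∧ (y : ℝ) < cr f 0 4 ∧ (y : ℝ) < cr f 2 5 ∧ (y : ℝ) < cr f 1 0 ∧
        (y : ℝ) < cr f 2 1)) := by
    rintro ⟨s, hs, -, h⟩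
    rw [sepAt_G1] at h
    obtain ⟨⟨a1, a2, a3⟩, b1, b2, b3, b4, b5⟩ := h
    rcases hs with rfl | rfl
    · left
      push Not
      exact ⟨⟨by linarith, by linarith, by linarith⟩, by linarith, by linarith, by linarith,
        by linarith, by linarith⟩
    · right
      push Not
      exact ⟨⟨by linarith, by linarith, by linarith⟩, by linarith, by linarith, by linarith,
        by linarith, by linarith⟩
  have TG : tG → ((y : ℝ) < cr f 0 4 ∧ (y : ℝ) < cr f 2 3 ∧ (y : ℝ) < cr f 2 5 ∧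
      ¬ ((y : ℝ) < cr f 0 1 ∨ (y : ℝ) < cr f 0 3 ∨ (y : ℝ) < cr f 2 4) ∧
      ¬ (y : ℝ) < cr f 1 0 ∧ ¬ (y : ℝ) < cr f 2 0) ∨
      (¬ (y : ℝ) < cr f 0 4 ∧ ¬ (y : ℝ) < cr f 2 3 ∧ ¬ (y : ℝ) < cr f 2 5 ∧
      ¬ (¬ (y : ℝ) < cr f 0 1 ∨ ¬ (y : ℝ) < cr f 0 3 ∨ ¬ (y : ℝ) < cr f 2 4) ∧
      (y : ℝ) < cr f 1 0 ∧ (y : ℝ) < cr f 2 0) := by
    rintro ⟨s, hs, -, h⟩
    rw [sepAt_G0] at h
    obtain ⟨⟨a1, a2, a3⟩, b1, b2, b3, b4, b5⟩ := h
    rcases hs with rfl | rfl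
    · left
      push Not
      exact ⟨by linarith, by linarith, by linarith, ⟨by linarith, by linarith, by linarith⟩,
        by linarith, by linarith⟩
    · right
      push Not
      exact ⟨by linarith, by linarith, by linarith, ⟨by linarith, by linarith, by linarith⟩,
        by linarith, by linarith⟩
  have TA : tA → ((y : ℝ) < cr f 0 2 ∧ (y : ℝ) < cr f 0 4 ∧ (y : ℝ) < cr f 2 5 ∧
      ¬ ((y : ℝ) < cr f 0 5 ∨ (y : ℝ) < cr f 2 2 ∨ (y : ℝ) < cr f 2 6) ∧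
      ¬ (y : ℝ) < cr f 1 0 ∧ ¬ (y : ℝ) < cr f 2 1) ∨
      (¬ (y : ℝ) < cr f 0 2 ∧ ¬ (y : ℝ) < cr f 0 4 ∧ ¬ (y : ℝ) < cr f 2 5 ∧
      ¬ (¬ (y : ℝ) < cr f 0 5 ∨ ¬ (y : ℝ) < cr f 2 2 ∨ ¬ (y : ℝ) < cr f 2 6) ∧
      (y : ℝ) < cr f 1 0 ∧ (y : ℝ) < cr f 2 1) := by
    rintro ⟨s, hs, -, h⟩
    rw [sepAt_A1] at h
    obtain ⟨⟨a1, a2, a3⟩, b1, b2, b3, b4, b5⟩ := h
    rcases hs with rfl | rfl
    · left
      push Not
      exact ⟨by linarith, by linarith, by linarith, ⟨by linarith, by linarith, by linarith⟩,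
        by linarith, by linarith⟩
    · right
      push Not
      exact ⟨by linarith, by linarith, by linarith, ⟨by linarith, by linarith, by linarith⟩,
        by linarith, by linarith⟩
  have allal : ∀ P : ℝ → Prop, P (cr f 0 1) → P (cr f 0 3) → P (cr f 2 4) → ∀ x ∈ lal f, P x := by
    intro P h1 h2 h3 x hx
    simp only [lal, List.mem_cons, List.not_mem_nil, or_false] at hx
    rcases hx with rfl | rfl | rfl <;> assumption
  have allga : ∀ P : ℝ → Prop, P (cr f 0 5) → P (cr f 2 2) → P (cr f 2 6) → ∀ x ∈ lga f, P x := by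
    intro P h1 h2 h3 x hx
    simp only [lga, List.mem_cons, List.not_mem_nil, or_false] at hx
    rcases hx with rfl | rfl | rfl <;> assumption
  have allka : ∀ P : ℝ → Prop, P (cr f 0 0) → P (cr f 0 2) → P (cr f 0 4) → P (cr f 1 0) →
      P (cr f 2 0) → P (cr f 2 1) → P (cr f 2 3) → P (cr f 2 5) → ∀ x ∈ lka f, P x := by
    intro P h1 h2 h3 h4 h5 h6 h7 h8 x hx
    simp only [lka, List.mem_cons, List.not_mem_nil, or_false] at hx
    rcases hx with rfl | rfl | rfl | rfl | rfl | rfl | rfl | rfl <;> assumption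
  -- strict versions
  have st : ∀ {x : ℝ}, x ≠ y → x ≤ y → x < y := fun h1 h2 => lt_of_le_of_ne h2 h1
  have H8 : ¬ ((y : ℝ) < cr f 0 0 ∨ (y : ℝ) < cr f 0 2 ∨ (y : ℝ) < cr f 0 4 ∨ (y : ℝ) < cr f 1 0 ∨
      (y : ℝ) < cr f 2 0 ∨ (y : ℝ) < cr f 2 1 ∨ (y : ℝ) < cr f 2 3 ∨ (y : ℝ) < cr f 2 5) →
      ¬ (¬ (y : ℝ) < cr f 0 1 ∨ ¬ (y : ℝ) < cr f 0 3 ∨ ¬ (y : ℝ) < cr f 2 4) →
      ¬ ((y : ℝ) < cr f 0 5 ∨ (y : ℝ) < cr f 2 2 ∨ (y : ℝ) < cr f 2 6) → xA := by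
    intro hk ha hg
    push Not at hk ha hg
    obtain ⟨k0, k2, k4, k6, k7, k8, k10, k12⟩ := hk
    obtain ⟨a1, a2, a3⟩ := ha
    obtain ⟨g1, g2, g3⟩ := hg
    have q1 : ∀ x ∈ lal f, 0 < (1:ℝ) * (x - y) :=
      allal _ (by linarith) (by linarith) (by linarith)
    have q2 : ∀ x ∈ lka f, 0 ≤ (1:ℝ) * (y - x) :=
      allka _ (by linarith) (by linarith) (by linarith) (by linarith) (by linarith)
        (by linarith) (by linarith) (by linarith)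
    have q3 : ∀ x ∈ lga f, 0 ≤ (1:ℝ) * (y - x) :=
      allga _ (by linarith) (by linarith) (by linarith)
    have hc : condA f 1 := ⟨sepL_of 1 _ _ y q1 q2, Or.inl (sepL_of 1 _ _ y q1 q3)⟩
    have k4' := st n4 k4
    have k6' := st n6 k6
    have k7' := st n7 k7
    have k10' := st n10 k10
    have k12' := st n12 k12
    have hsep : (cutA f 1).SepAt (occ exR 1) (hs exR f) 0 y := by
      rw [sepAt_A0]
      exact ⟨⟨by linarith, by linarith, by linarith⟩, by linarith, by linarith, by linarith,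
        by linarith, by linarith⟩
    exact ⟨1, Or.inl rfl, (act_own f (cutA f 1) 0 rfl y hsep).2 hc, hsep⟩
  have H9 : (y : ℝ) < cr f 0 0 ∧ (y : ℝ) < cr f 0 2 ∧ (y : ℝ) < cr f 0 4 ∧ (y : ℝ) < cr f 1 0 ∧
      (y : ℝ) < cr f 2 0 ∧ (y : ℝ) < cr f 2 1 ∧ (y : ℝ) < cr f 2 3 ∧ (y : ℝ) < cr f 2 5 →
      ¬ ((y : ℝ) < cr f 0 1 ∨ (y : ℝ) < cr f 0 3 ∨ (y : ℝ) < cr f 2 4) →
      ¬ (¬ (y : ℝ) < cr f 0 5 ∨ ¬ (y : ℝ) < cr f 2 2 ∨ ¬ (y : ℝ) < cr f 2 6) → xA := by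
    intro hk ha hg
    push Not at ha hg
    obtain ⟨k0, k2, k4, k6, k7, k8, k10, k12⟩ := hk
    obtain ⟨a1, a2, a3⟩ := ha
    obtain ⟨g1, g2, g3⟩ := hg
    have a1' := st n1 a1
    have a2' := st n3 a2
    have a3' := st n11 a3
    have q1 : ∀ x ∈ lal f, 0 < (-1:ℝ) * (x - y) :=
      allal _ (by linarith) (by linarith) (by linarith)
    have q2 : ∀ x ∈ lka f, 0 ≤ (-1:ℝ) * (y - x) :=
      allka _ (by linarith) (by linarith) (by linarith) (by linarith) (by linarith)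
        (by linarith) (by linarith) (by linarith)
    have q3 : ∀ x ∈ lga f, 0 ≤ (-1:ℝ) * (y - x) :=
      allga _ (by linarith) (by linarith) (by linarith)
    have hc : condA f (-1) := ⟨sepL_of (-1) _ _ y q1 q2, Or.inl (sepL_of (-1) _ _ y q1 q3)⟩
    have hsep : (cutA f (-1)).SepAt (occ exR 1) (hs exR f) 0 y := by
      rw [sepAt_A0]
      exact ⟨⟨by linarith, by linarith, by linarith⟩, by linarith, by linarith, by linarith,
        by linarith, by linarith⟩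
    exact ⟨-1, Or.inr rfl, (act_own f (cutA f (-1)) 0 rfl y hsep).2 hc, hsep⟩
  have H10 : ¬ ((y : ℝ) < cr f 0 0 ∨ (y : ℝ) < cr f 0 2 ∨ (y : ℝ) < cr f 0 4 ∨
      (y : ℝ) < cr f 1 0 ∨
      (y : ℝ) < cr f 2 0 ∨ (y : ℝ) < cr f 2 1 ∨ (y : ℝ) < cr f 2 3 ∨ (y : ℝ) < cr f 2 5) →
      ¬ (¬ (y : ℝ) < cr f 0 5 ∨ ¬ (y : ℝ) < cr f 2 2 ∨ ¬ (y : ℝ) < cr f 2 6) →
      ¬ ((y : ℝ) < cr f 0 1 ∨ (y : ℝ) < cr f 0 3 ∨ (y : ℝ) < cr f 2 4) → xG := by
    intro hk hg ha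
    push Not at hk ha hg
    obtain ⟨k0, k2, k4, k6, k7, k8, k10, k12⟩ := hk
    obtain ⟨a1, a2, a3⟩ := ha
    obtain ⟨g1, g2, g3⟩ := hg
    have q1 : ∀ x ∈ lga f, 0 < (1:ℝ) * (x - y) :=
      allga _ (by linarith) (by linarith) (by linarith)
    have q2 : ∀ x ∈ lka f, 0 ≤ (1:ℝ) * (y - x) :=
      allka _ (by linarith) (by linarith) (by linarith) (by linarith) (by linarith)
        (by linarith) (by linarith) (by linarith)
    have q3 : ∀ x ∈ lal f, 0 ≤ (1:ℝ) * (y - x) :=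
      allal _ (by linarith) (by linarith) (by linarith)
    have hc : condG f 1 := ⟨sepL_of 1 _ _ y q1 q2, Or.inl (sepL_of 1 _ _ y q1 q3)⟩
    have k2' := st n2 k2
    have k4' := st n4 k4
    have k6' := st n6 k6
    have k8' := st n8 k8
    have k12' := st n12 k12
    have hsep : (cutG f 1).SepAt (occ exR 1) (hs exR f) 1 y := by
      rw [sepAt_G1]
      exact ⟨⟨by linarith, by linarith, by linarith⟩, by linarith, by linarith, by linarith,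
        by linarith, by linarith⟩
    exact ⟨1, Or.inl rfl, (act_own f (cutG f 1) 1 rfl y hsep).2 hc, hsep⟩
  have H11 : (y : ℝ) < cr f 0 0 ∧ (y : ℝ) < cr f 0 2 ∧ (y : ℝ) < cr f 0 4 ∧ (y : ℝ) < cr f 1 0 ∧
      (y : ℝ) < cr f 2 0 ∧ (y : ℝ) < cr f 2 1 ∧ (y : ℝ) < cr f 2 3 ∧ (y : ℝ) < cr f 2 5 →
      ¬ ((y : ℝ) < cr f 0 5 ∨ (y : ℝ) < cr f 2 2 ∨ (y : ℝ) < cr f 2 6) →
      ¬ (¬ (y : ℝ) < cr f 0 1 ∨ ¬ (y : ℝ) < cr f 0 3 ∨ ¬ (y : ℝ) < cr f 2 4) → xG := by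
    intro hk hg ha
    push Not at ha hg
    obtain ⟨k0, k2, k4, k6, k7, k8, k10, k12⟩ := hk
    obtain ⟨a1, a2, a3⟩ := ha
    obtain ⟨g1, g2, g3⟩ := hg
    have g1' := st n5 g1
    have g2' := st n9 g2
    have g3' := st n13 g3
    have q1 : ∀ x ∈ lga f, 0 < (-1:ℝ) * (x - y) :=
      allga _ (by linarith) (by linarith) (by linarith)
    have q2 : ∀ x ∈ lka f, 0 ≤ (-1:ℝ) * (y - x) :=
      allka _ (by linarith) (by linarith) (by linarith) (by linarith) (by linarith)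
        (by linarith) (by linarith) (by linarith)
    have q3 : ∀ x ∈ lal f, 0 ≤ (-1:ℝ) * (y - x) :=
      allal _ (by linarith) (by linarith) (by linarith)
    have hc : condG f (-1) := ⟨sepL_of (-1) _ _ y q1 q2, Or.inl (sepL_of (-1) _ _ y q1 q3)⟩
    have hsep : (cutG f (-1)).SepAt (occ exR 1) (hs exR f) 1 y := by
      rw [sepAt_G1]
      exact ⟨⟨by linarith, by linarith, by linarith⟩, by linarith, by linarith, by linarith,
        by linarith, by linarith⟩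
    exact ⟨-1, Or.inr rfl, (act_own f (cutG f (-1)) 1 rfl y hsep).2 hc, hsep⟩
  have H12 : ¬ ((y : ℝ) < cr f 0 0 ∨ (y : ℝ) < cr f 0 2 ∨ (y : ℝ) < cr f 0 4 ∨
      (y : ℝ) < cr f 1 0 ∨
      (y : ℝ) < cr f 2 0 ∨ (y : ℝ) < cr f 2 1 ∨ (y : ℝ) < cr f 2 3 ∨ (y : ℝ) < cr f 2 5) →
      ¬ (¬ (y : ℝ) < cr f 0 1 ∨ ¬ (y : ℝ) < cr f 0 3 ∨ ¬ (y : ℝ) < cr f 2 4) →
      ¬ (¬ (y : ℝ) < cr f 0 5 ∨ ¬ (y : ℝ) < cr f 2 2 ∨ ¬ (y : ℝ) < cr f 2 6) → (xA ↔ xG) := by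
    intro hk ha hg
    push Not at hk ha hg
    obtain ⟨k0, k2, k4, k6, k7, k8, k10, k12⟩ := hk
    obtain ⟨a1, a2, a3⟩ := ha
    obtain ⟨g1, g2, g3⟩ := hg
    have q1 : ∀ x ∈ lal f, 0 < (1:ℝ) * (x - y) :=
      allal _ (by linarith) (by linarith) (by linarith)
    have q2 : ∀ x ∈ lka f, 0 ≤ (1:ℝ) * (y - x) :=
      allka _ (by linarith) (by linarith) (by linarith) (by linarith) (by linarith)
        (by linarith) (by linarith) (by linarith)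
    have q3 : ∀ x ∈ lga f, 0 < (1:ℝ) * (x - y) :=
      allga _ (by linarith) (by linarith) (by linarith)
    have k2' := st n2 k2
    have k4' := st n4 k4
    have k6' := st n6 k6
    have k7' := st n7 k7
    have k8' := st n8 k8
    have k10' := st n10 k10
    have k12' := st n12 k12
    have hsA : (cutA f 1).SepAt (occ exR 1) (hs exR f) 0 y := by
      rw [sepAt_A0]
      exact ⟨⟨by linarith, by linarith, by linarith⟩, by linarith, by linarith, by linarith,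
        by linarith, by linarith⟩
    have hsG : (cutG f 1).SepAt (occ exR 1) (hs exR f) 1 y := by
      rw [sepAt_G1]
      exact ⟨⟨by linarith, by linarith, by linarith⟩, by linarith, by linarith, by linarith,
        by linarith, by linarith⟩
    have hA' : xA ↔ condA f 1 := by
      constructor
      · rintro ⟨s, hs', h1, h2⟩
        rcases hs' with rfl | rfl
        · exact h1.1
        · rw [sepAt_A0] at h2
          linarith [h2.1.1]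
      · intro hc
        exact ⟨1, Or.inl rfl, (act_own f (cutA f 1) 0 rfl y hsA).2 hc, hsA⟩
    have hG' : xG ↔ condG f 1 := by
      constructor
      · rintro ⟨s, hs', h1, h2⟩
        rcases hs' with rfl | rfl
        · exact h1.1
        · rw [sepAt_G1] at h2
          linarith [h2.1.1]
      · intro hc
        exact ⟨1, Or.inl rfl, (act_own f (cutG f 1) 1 rfl y hsG).2 hc, hsG⟩
    rw [hA', hG', condA_iff f 1 1 (Or.inl rfl) (Or.inl rfl) (sepL_of 1 _ _ y q1 q2)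
      (sepL_of 1 _ _ y q3 q2), condG_iff f 1 1 (Or.inl rfl) (Or.inl rfl) (sepL_of 1 _ _ y q3 q2)
      (sepL_of 1 _ _ y q1 q2)]
  have H13 : (y : ℝ) < cr f 0 0 ∧ (y : ℝ) < cr f 0 2 ∧ (y : ℝ) < cr f 0 4 ∧ (y : ℝ) < cr f 1 0 ∧
      (y : ℝ) < cr f 2 0 ∧ (y : ℝ) < cr f 2 1 ∧ (y : ℝ) < cr f 2 3 ∧ (y : ℝ) < cr f 2 5 →
      ¬ ((y : ℝ) < cr f 0 1 ∨ (y : ℝ) < cr f 0 3 ∨ (y : ℝ) < cr f 2 4) →
      ¬ ((y : ℝ) < cr f 0 5 ∨ (y : ℝ) < cr f 2 2 ∨ (y : ℝ) < cr f 2 6) → (xA ↔ xG) := by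
    intro hk ha hg
    push Not at ha hg
    obtain ⟨k0, k2, k4, k6, k7, k8, k10, k12⟩ := hk
    obtain ⟨a1, a2, a3⟩ := ha
    obtain ⟨g1, g2, g3⟩ := hg
    have a1' := st n1 a1
    have a2' := st n3 a2
    have a3' := st n11 a3
    have g1' := st n5 g1
    have g2' := st n9 g2
    have g3' := st n13 g3
    have q1 : ∀ x ∈ lal f, 0 < (-1:ℝ) * (x - y) :=
      allal _ (by linarith) (by linarith) (by linarith)
    have q2 : ∀ x ∈ lka f, 0 ≤ (-1:ℝ) * (y - x) :=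
      allka _ (by linarith) (by linarith) (by linarith) (by linarith) (by linarith)
        (by linarith) (by linarith) (by linarith)
    have q3 : ∀ x ∈ lga f, 0 < (-1:ℝ) * (x - y) :=
      allga _ (by linarith) (by linarith) (by linarith)
    have hsA : (cutA f (-1)).SepAt (occ exR 1) (hs exR f) 0 y := by
      rw [sepAt_A0]
      exact ⟨⟨by linarith, by linarith, by linarith⟩, by linarith, by linarith, by linarith,
        by linarith, by linarith⟩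
    have hsG : (cutG f (-1)).SepAt (occ exR 1) (hs exR f) 1 y := by
      rw [sepAt_G1]
      exact ⟨⟨by linarith, by linarith, by linarith⟩, by linarith, by linarith, by linarith,
        by linarith, by linarith⟩
    have hA' : xA ↔ condA f (-1) := by
      constructor
      · rintro ⟨s, hs', h1, h2⟩
        rcases hs' with rfl | rfl
        · rw [sepAt_A0] at h2
          linarith [h2.1.1]
        · exact h1.1
      · intro hc
        exact ⟨-1, Or.inr rfl, (act_own f (cutA f (-1)) 0 rfl y hsA).2 hc, hsA⟩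
    have hG' : xG ↔ condG f (-1) := by
      constructor
      · rintro ⟨s, hs', h1, h2⟩
        rcases hs' with rfl | rfl
        · rw [sepAt_G1] at h2
          linarith [h2.1.1]
        · exact h1.1
      · intro hc
        exact ⟨-1, Or.inr rfl, (act_own f (cutG f (-1)) 1 rfl y hsG).2 hc, hsG⟩
    rw [hA', hG', condA_iff f (-1) (-1) (Or.inr rfl) (Or.inr rfl) (sepL_of (-1) _ _ y q1 q2)
      (sepL_of (-1) _ _ y q3 q2), condG_iff f (-1) (-1) (Or.inr rfl) (Or.inr rfl)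
      (sepL_of (-1) _ _ y q3 q2) (sepL_of (-1) _ _ y q1 q2)]
  have m : ∀ {x : ℝ}, x ≠ y → ((y : ℝ) ≤ x ↔ (y : ℝ) < x) :=
    fun h => ⟨fun h2 => lt_of_le_of_ne h2 h.symm, le_of_lt⟩
  rw [m n0, m n2, m n10, ← not_lt, ← not_lt, ← not_lt] at E1
  rw [m n1, m n3, m n11, ← not_lt, ← not_lt, ← not_lt] at E2
  rw [m n5, m n9, m n13, ← not_lt, ← not_lt, ← not_lt] at E3
  rw [m n0, m n8, m n7, ← not_lt, ← not_lt, ← not_lt] at E4
  rw [m n1, m n3, m n4, m n6, m n7, m n10, m n11, m n12, ← not_lt, ← not_lt, ← not_lt,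
    ← not_lt, ← not_lt, ← not_lt, ← not_lt, ← not_lt] at E5
  rw [m n2, m n4, m n5, m n6, m n8, m n9, m n12, m n13, ← not_lt, ← not_lt, ← not_lt,
    ← not_lt, ← not_lt, ← not_lt, ← not_lt, ← not_lt] at E6
  have E4' : ((1 : I), y) ∈ keptRegion exR f (exL f) 2 ↔
      ((y : ℝ) < cr f 0 0 ∨ (y : ℝ) < cr f 2 0 ∨ (y : ℝ) < cr f 2 1) ∧
      ¬ ((y : ℝ) < cr f 0 0 ∧ (y : ℝ) < cr f 2 0 ∧ (y : ℝ) < cr f 2 1) := by
    rw [e1_aux _ _ _ _ E4, or_comm (a := (y : ℝ) < cr f 2 1), and_comm (a := (y : ℝ) < cr f 2 1)]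
  obtain ⟨c1, c2, c3, c4, c5, c6⟩ := core
    ((y : ℝ) < cr f 0 1 ∨ (y : ℝ) < cr f 0 3 ∨ (y : ℝ) < cr f 2 4)
    (¬ (y : ℝ) < cr f 0 1 ∨ ¬ (y : ℝ) < cr f 0 3 ∨ ¬ (y : ℝ) < cr f 2 4)
    ((y : ℝ) < cr f 0 5 ∨ (y : ℝ) < cr f 2 2 ∨ (y : ℝ) < cr f 2 6)
    (¬ (y : ℝ) < cr f 0 5 ∨ ¬ (y : ℝ) < cr f 2 2 ∨ ¬ (y : ℝ) < cr f 2 6)
    ((y : ℝ) < cr f 0 0) ((y : ℝ) < cr f 0 2) ((y : ℝ) < cr f 0 4) ((y : ℝ) < cr f 1 0)
    ((y : ℝ) < cr f 2 0) ((y : ℝ) < cr f 2 1) ((y : ℝ) < cr f 2 3) ((y : ℝ) < cr f 2 5)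
    xA xG tG tA
    (by
      by_cases h : (y : ℝ) < cr f 0 1
      · exact Or.inl (Or.inl h)
      · exact Or.inr (Or.inl h))
    (by
      by_cases h : (y : ℝ) < cr f 0 5
      · exact Or.inl (Or.inl h)
      · exact Or.inr (Or.inl h))
    PA PG TG TA H7 H8 H9 H10 H11 H12 H13 _ _ _ _ _ _ (e1_aux _ _ _ _ E1) (e2_aux _ _ _ _ E2)
    (e2_aux _ _ _ _ E3) E4' (e5_aux _ _ _ _ _ _ _ _ _ _ _ E5)
    (e6_aux _ _ _ _ _ _ _ _ _ _ _ E6)
  have fin1 : ∀ (g : Fin 3) (b : Bool),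
      ((0 : I), y) ∈ keptRegion exR f (exL f) 0 → ¬ (g = 0 ∧ b = true) →
      ∃ g' b', ¬ (g = g' ∧ b = b') ∧ (tau b' 0, y) ∈ keptRegion exR f (exL f) g' :=
    fun g b h hne => ⟨0, true, hne, by rw [tau_true_zero]; exact h⟩
  have fin2 : ∀ (g : Fin 3) (b : Bool),
      ((1 : I), y) ∈ keptRegion exR f (exL f) 0 → ¬ (g = 0 ∧ b = false) →
      ∃ g' b', ¬ (g = g' ∧ b = b') ∧ (tau b' 0, y) ∈ keptRegion exR f (exL f) g' :=
    fun g b h hne => ⟨0, false, hne, by rw [tau_false_zero]; exact h⟩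
  have fin3 : ∀ (g : Fin 3) (b : Bool),
      ((0 : I), y) ∈ keptRegion exR f (exL f) 2 → ¬ (g = 2 ∧ b = true) →
      ∃ g' b', ¬ (g = g' ∧ b = b') ∧ (tau b' 0, y) ∈ keptRegion exR f (exL f) g' :=
    fun g b h hne => ⟨2, true, hne, by rw [tau_true_zero]; exact h⟩
  have fin4 : ∀ (g : Fin 3) (b : Bool),
      ((1 : I), y) ∈ keptRegion exR f (exL f) 2 → ¬ (g = 2 ∧ b = false) →
      ∃ g' b', ¬ (g = g' ∧ b = b') ∧ (tau b' 0, y) ∈ keptRegion exR f (exL f) g' :=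
    fun g b h hne => ⟨2, false, hne, by rw [tau_false_zero]; exact h⟩
  have fin5 : ∀ (g : Fin 3) (b : Bool),
      ((0 : I), y) ∈ keptRegion exR f (exL f) 1 → ¬ (g = 1 ∧ b = true) →
      ∃ g' b', ¬ (g = g' ∧ b = b') ∧ (tau b' 0, y) ∈ keptRegion exR f (exL f) g' :=
    fun g b h hne => ⟨1, true, hne, by rw [tau_true_zero]; exact h⟩
  have fin6 : ∀ (g : Fin 3) (b : Bool),
      ((1 : I), y) ∈ keptRegion exR f (exL f) 1 → ¬ (g = 1 ∧ b = false) →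
      ∃ g' b', ¬ (g = g' ∧ b = b') ∧ (tau b' 0, y) ∈ keptRegion exR f (exL f) g' :=
    fun g b h hne => ⟨1, false, hne, by rw [tau_false_zero]; exact h⟩
  intro g b hb
  have hg : g = 0 ∨ g = 1 ∨ g = 2 := by fin_cases g <;> simp
  rcases hg with rfl | rfl | rfl <;> cases b
  · rw [tau_false_zero] at hb
    rcases c2 hb with h | h | h | h | h
    · exact fin1 _ _ h (by decide)
    · exact fin3 _ _ h (by decide)
    · exact fin4 _ _ h (by decide)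
    · exact fin5 _ _ h (by decide)
    · exact fin6 _ _ h (by decide)
  · rw [tau_true_zero] at hb
    rcases c1 hb with h | h | h | h | h
    · exact fin2 _ _ h (by decide)
    · exact fin3 _ _ h (by decide)
    · exact fin4 _ _ h (by decide)
    · exact fin5 _ _ h (by decide)
    · exact fin6 _ _ h (by decide)
  · rw [tau_false_zero] at hb
    rcases c6 hb with h | h | h | h | h
    · exact fin1 _ _ h (by decide)
    · exact fin2 _ _ h (by decide)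
    · exact fin3 _ _ h (by decide)
    · exact fin4 _ _ h (by decide)
    · exact fin5 _ _ h (by decide)
  · rw [tau_true_zero] at hb
    rcases c5 hb with h | h | h | h | h
    · exact fin1 _ _ h (by decide)
    · exact fin2 _ _ h (by decide)
    · exact fin3 _ _ h (by decide)
    · exact fin4 _ _ h (by decide)
    · exact fin6 _ _ h (by decide)
  · rw [tau_false_zero] at hb
    rcases c4 hb with h | h | h | h | h
    · exact fin1 _ _ h (by decide)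
    · exact fin2 _ _ h (by decide)
    · exact fin3 _ _ h (by decide)
    · exact fin5 _ _ h (by decide)
    · exact fin6 _ _ h (by decide)
  · rw [tau_true_zero] at hb
    rcases c3 hb with h | h | h | h | h
    · exact fin1 _ _ h (by decide)
    · exact fin2 _ _ h (by decide)
    · exact fin4 _ _ h (by decide)
    · exact fin5 _ _ h (by decide)
    · exact fin6 _ _ h (by decide)

/-- The complex of the example is not prismatically collapsible. -/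
theorem ex_not_prismatically_collapsible : ¬ PrismaticallyCollapsible exR := by
  rintro ⟨f, hf, hc⟩
  have hR : ∀ j, exR j ≠ [] := by decide
  exact not_collapses_of exR f hR hf (exL f) (exL_finite f) (exL_ne f) (exL_card f) (by norm_num)
    (fun y hy => vertex_main f y hy) hc

end Pool.Agent.W623.Pris
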